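import Pool.Agent.Rn3.Inp

/-!
# Rn3 ANA: the Moebius function along polynomials of degree at most 3
-/

set_option autoImplicit false

namespace Rn3

open Finset Filter Topology Rnt

-- BEGIN vdcN
/-- A1. `vdc` (Inp) for `R = -1` and `fun r => if r ∈ Ioc (-1) (-1 + H) then x r.toNat else 0`. -/
theorem vdcN (H K : ℕ) (x : ℕ → ℝ) :
    (K : ℝ) ^ 2 * (∑ i ∈ range H, x i) ^ 2 ≤
      (H + K) * (K * ∑ i ∈ range H, x i ^ 2 +
        2 * ∑ h ∈ Ico 1 K, ((K : ℝ) - h) * ∑ i ∈ range (H - h), x i * x (i + h)) := by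
  set X : ℤ → ℝ := fun r => if r ∈ Ioc (-1 : ℤ) (-1 + H) then x r.toNat else 0 with hX
  have hIoc : Ioc (-1 : ℤ) (-1 + H) = (range H).map Nat.castEmbedding := by
    ext r
    simp only [mem_Ioc, Finset.mem_map, mem_range, Nat.castEmbedding_apply]
    constructor
    · rintro ⟨h1, h2⟩
      exact ⟨r.toNat, by omega, by omega⟩
    · rintro ⟨i, hi, rfl⟩
      omega
  have hXn : ∀ i : ℕ, X (i : ℤ) = if i < H then x i else 0 := by
    intro i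
    simp only [hX, mem_Ioc, Int.toNat_natCast]
    by_cases hi : i < H
    · rw [if_pos hi, if_pos (by omega)]
    · rw [if_neg hi, if_neg (by omega)]
  have hsum : ∀ f : ℤ → ℝ, ∑ r ∈ Ioc (-1 : ℤ) (-1 + H), f r = ∑ i ∈ range H, f (i : ℤ) := by
    intro f
    rw [hIoc, sum_map]
    rfl
  have h := vdc (-1) H K X (fun r hr => by simp only [hX, if_neg hr])
  rw [hsum, hsum] at h
  have e1 : ∑ i ∈ range H, X (i : ℤ) = ∑ i ∈ range H, x i :=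
    sum_congr rfl fun i hi => by rw [hXn, if_pos (mem_range.1 hi)]
  have e2 : ∑ i ∈ range H, X (i : ℤ) ^ 2 = ∑ i ∈ range H, x i ^ 2 :=
    sum_congr rfl fun i hi => by rw [hXn, if_pos (mem_range.1 hi)]
  have e3 : ∀ k : ℕ, ∑ r ∈ Ioc (-1 : ℤ) (-1 + H), X r * X (r + k) =
      ∑ i ∈ range (H - k), x i * x (i + k) := by
    intro k
    rw [hsum]
    have hsub : range (H - k) ⊆ range H := range_subset_range.2 (Nat.sub_le _ _)
    rw [← sum_subset hsub]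
    · refine sum_congr rfl fun i hi => ?_
      have hi' := mem_range.1 hi
      have e : ((i : ℤ) + (k : ℤ)) = ((i + k : ℕ) : ℤ) := by push_cast; ring
      rw [e, hXn, hXn, if_pos (by omega), if_pos (by omega)]
    · intro i hi hi2
      have hi' := mem_range.1 hi
      have hi2' : ¬ i < H - k := fun hh => hi2 (mem_range.2 hh)
      have e : ((i : ℤ) + (k : ℤ)) = ((i + k : ℕ) : ℤ) := by push_cast; ring
      rw [e, hXn (i + k), if_neg (by omega), mul_zero]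
  rw [e1, e2] at h
  have e4 : ∑ k ∈ Ico 1 K, ((K : ℝ) - k) * ∑ r ∈ Ioc (-1 : ℤ) (-1 + H), X r * X (r + k) =
      ∑ k ∈ Ico 1 K, ((K : ℝ) - k) * ∑ i ∈ range (H - k), x i * x (i + k) :=
    sum_congr rfl fun k _ => by rw [e3]
  rw [e4] at h
  exact h
-- END vdcN

-- BEGIN step
private theorem step_card (N : ℕ) (a b : ℤ) :
    (((Icc (-(N : ℤ) - a) (N - a)) \ (Icc (-(N : ℤ) - b) (N - b))).card : ℝ) ≤
      |((a - b : ℤ) : ℝ)| := by
  have hsub : (Icc (-(N : ℤ) - a) (N - a)) \ (Icc (-(N : ℤ) - b) (N - b)) ⊆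
      Ico (-(N : ℤ) - a) (-(N : ℤ) - b) ∪ Ioc ((N : ℤ) - b) (N - a) := by
    intro m hm
    simp only [Finset.mem_sdiff, Finset.mem_Icc, Finset.mem_union, Finset.mem_Ico,
      Finset.mem_Ioc] at hm ⊢
    omega
  have h1 := (Finset.card_le_card hsub).trans (Finset.card_union_le _ _)
  rw [Int.card_Ico, Int.card_Ioc] at h1
  have h2 : ((((Icc (-(N : ℤ) - a) (N - a)) \ (Icc (-(N : ℤ) - b) (N - b))).card : ℕ) : ℤ) ≤
      |a - b| := by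
    rcases le_total a b with h | h
    · rw [abs_of_nonpos (by omega)]
      omega
    · rw [abs_of_nonneg (by omega)]
      omega
  rw [← Int.cast_abs]
  exact_mod_cast h2

private theorem step_abs (F : ℤ → ℝ) (hF : ∀ m, |F m| ≤ 1) (s : Finset ℤ) :
    |∑ m ∈ s, F m| ≤ s.card := by
  refine le_trans (Finset.abs_sum_le_sum_abs _ _) ?_
  refine le_trans (Finset.sum_le_sum (fun m _ => hF m)) ?_
  simp

private theorem step_shift (F : ℤ → ℝ) (hF : ∀ m, |F m| ≤ 1) (N : ℕ) (a b : ℤ) :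
    ∑ m ∈ Icc (-(N : ℤ) - a) (N - a), F m ≤
      ∑ m ∈ Icc (-(N : ℤ) - b) (N - b), F m + 2 * |((a - b : ℤ) : ℝ)| := by
  have h1 := Finset.sum_inter_add_sum_sdiff (Icc (-(N : ℤ) - a) (N - a))
    (Icc (-(N : ℤ) - b) (N - b)) F
  have h2 := Finset.sum_inter_add_sum_sdiff (Icc (-(N : ℤ) - b) (N - b))
    (Icc (-(N : ℤ) - a) (N - a)) F
  rw [Finset.inter_comm] at h2
  have h3 := (abs_le.1 (step_abs F hF ((Icc (-(N : ℤ) - a) (N - a)) \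
    (Icc (-(N : ℤ) - b) (N - b))))).2
  have h4 := (abs_le.1 (step_abs F hF ((Icc (-(N : ℤ) - b) (N - b)) \
    (Icc (-(N : ℤ) - a) (N - a))))).1
  have h5 := step_card N a b
  have h6 := step_card N b a
  have h7 : |((b - a : ℤ) : ℝ)| = |((a - b : ℤ) : ℝ)| := by
    push_cast
    exact abs_sub_comm _ _
  rw [h7] at h6
  linarith

private theorem step_sub (G : ℤ → ℝ) (N : ℕ) (a : ℤ) :
    ∑ n ∈ Icc (-(N : ℤ)) N, G (n - a) = ∑ m ∈ Icc (-(N : ℤ) - a) (N - a), G m := by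
  refine Finset.sum_nbij' (fun n => n - a) (fun m => m + a) ?_ ?_ ?_ ?_ ?_
  · intro n hn
    rw [Finset.mem_Icc] at hn ⊢
    omega
  · intro n hn
    rw [Finset.mem_Icc] at hn ⊢
    omega
  · intro n _
    ring
  · intro n _
    ring
  · intro n _
    rfl

/-- A2. Finite inequality. Cauchy-Schwarz over `n` (`2N + 1 ≤ 3N` values), `vdcN` for `x i = g (n - f i)` and each `n`, sum over `n`; `H + K ≤ 2H`, `∑_(h<K) (K - h) ≤ K²/2`.
`∑_n ∑_i g (n - f i) g (n - f (i + h))`: for each `i` put `m = n - f i`, `m` runs through `Icc (-N - f i) (N - f i)`; replace it by `Icc (-N - f 0) (N - f 0)` (at most `2D` values of `m`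
change, terms `≤ 1`); then exchange the sums: `∑_m g m ∑_i g (m - (f (i + h) - f i))`, `|g m| ≤ 1`, and `Icc (-N - f 0) (N - f 0) ⊆ Icc (-(N + E)) (N + E)`. -/
theorem step (g : ℤ → ℝ) (hg : ∀ n, |g n| ≤ 1) (N H K E : ℕ) (D S : ℝ) (hN : 1 ≤ N) (hK : 1 ≤ K) (hKH : K ≤ H) (f : ℕ → ℤ)
    (hE : |f 0| ≤ E) (hD : ∀ i < H, |((f i - f 0 : ℤ) : ℝ)| ≤ D) (hS0 : 0 ≤ S)
    (hS : ∀ h : ℕ, 1 ≤ h → h < K →
      ∑ m ∈ Icc (-((N + E : ℕ) : ℤ)) ((N + E : ℕ) : ℤ), |∑ i ∈ range (H - h), g (m - (f (i + h) - f i))| ≤ S) :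
    (∑ n ∈ Icc (-(N : ℤ)) N, |∑ i ∈ range H, g (n - f i)|) ^ 2 ≤
      3 * N * (2 * H) * (3 * N * H / K + 2 * (S + 2 * D * H)) := by
  have hKR : (0 : ℝ) < K := by exact_mod_cast hK
  have hNR : (1 : ℝ) ≤ N := by exact_mod_cast hN
  have hKHR : (K : ℝ) ≤ H := by exact_mod_cast hKH
  have hHR : (0 : ℝ) ≤ H := Nat.cast_nonneg H
  have hD0 : 0 ≤ D := by
    have h1 := hD 0 (by omega)
    exact le_trans (abs_nonneg _) h1
  have hcardR : ((Icc (-(N : ℤ)) N).card : ℝ) ≤ 3 * N := by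
    rw [Int.card_Icc]
    have h1 : ((N : ℤ) + 1 - -(N : ℤ)).toNat ≤ 3 * N := by omega
    exact_mod_cast h1
  -- correlations
  have hC : ∀ h ∈ Ico 1 K, ∑ n ∈ Icc (-(N : ℤ)) N,
      ∑ i ∈ range (H - h), g (n - f i) * g (n - f (i + h)) ≤ S + 2 * D * H := by
    intro h hh
    obtain ⟨hh1, hh2⟩ := Finset.mem_Ico.1 hh
    rw [Finset.sum_comm]
    have h1 : ∀ i ∈ range (H - h), ∑ n ∈ Icc (-(N : ℤ)) N, g (n - f i) * g (n - f (i + h)) ≤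
        ∑ m ∈ Icc (-(N : ℤ) - f 0) (N - f 0), g m * g (m - (f (i + h) - f i)) + 2 * D := by
      intro i hi
      rw [Finset.mem_range] at hi
      have h2 : ∑ n ∈ Icc (-(N : ℤ)) N, g (n - f i) * g (n - f (i + h)) =
          ∑ n ∈ Icc (-(N : ℤ)) N, (fun m => g m * g (m - (f (i + h) - f i))) (n - f i) := by
        refine Finset.sum_congr rfl (fun n _ => ?_)
        have h3 : n - f (i + h) = n - f i - (f (i + h) - f i) := by ring
        simp only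
        rw [h3]
      rw [h2, step_sub (fun m => g m * g (m - (f (i + h) - f i))) N (f i)]
      refine le_trans (step_shift _ ?_ N (f i) (f 0)) ?_
      · intro m
        rw [abs_mul]
        exact mul_le_one₀ (hg _) (abs_nonneg _) (hg _)
      · have h3 := hD i (by omega)
        linarith
    refine le_trans (Finset.sum_le_sum h1) ?_
    rw [Finset.sum_add_distrib, Finset.sum_comm, Finset.sum_const, Finset.card_range, nsmul_eq_mul]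
    have h2 : ((H - h : ℕ) : ℝ) * (2 * D) ≤ 2 * D * H := by
      have h3 : ((H - h : ℕ) : ℝ) ≤ H := by exact_mod_cast Nat.sub_le H h
      nlinarith
    have h4 : ∑ m ∈ Icc (-(N : ℤ) - f 0) (N - f 0),
        ∑ i ∈ range (H - h), g m * g (m - (f (i + h) - f i)) ≤ S := by
      refine le_trans ?_ (hS h hh1 hh2)
      have hsub : Icc (-(N : ℤ) - f 0) (N - f 0) ⊆
          Icc (-((N + E : ℕ) : ℤ)) ((N + E : ℕ) : ℤ) := by
        intro m hm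
        rw [Finset.mem_Icc] at hm ⊢
        rw [abs_le] at hE
        push_cast
        omega
      calc ∑ m ∈ Icc (-(N : ℤ) - f 0) (N - f 0),
            ∑ i ∈ range (H - h), g m * g (m - (f (i + h) - f i))
          ≤ ∑ m ∈ Icc (-(N : ℤ) - f 0) (N - f 0),
            |∑ i ∈ range (H - h), g (m - (f (i + h) - f i))| := by
            refine Finset.sum_le_sum (fun m _ => ?_)
            rw [← Finset.mul_sum]
            refine le_trans (le_abs_self _) ?_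
            rw [abs_mul]
            exact mul_le_of_le_one_left (abs_nonneg _) (hg m)
        _ ≤ _ := Finset.sum_le_sum_of_subset_of_nonneg hsub (fun m _ _ => abs_nonneg _)
    linarith
  -- van der Corput for every `n`
  have hV : (K : ℝ) ^ 2 * ∑ n ∈ Icc (-(N : ℤ)) N, (∑ i ∈ range H, g (n - f i)) ^ 2 ≤
      (H + K) * (K * ∑ n ∈ Icc (-(N : ℤ)) N, ∑ i ∈ range H, g (n - f i) ^ 2 +
        2 * ∑ h ∈ Ico 1 K, ((K : ℝ) - h) * ∑ n ∈ Icc (-(N : ℤ)) N,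
          ∑ i ∈ range (H - h), g (n - f i) * g (n - f (i + h))) := by
    have h1 : ∑ h ∈ Ico 1 K, ((K : ℝ) - h) * ∑ n ∈ Icc (-(N : ℤ)) N,
          ∑ i ∈ range (H - h), g (n - f i) * g (n - f (i + h)) =
        ∑ n ∈ Icc (-(N : ℤ)) N, ∑ h ∈ Ico 1 K, ((K : ℝ) - h) *
          ∑ i ∈ range (H - h), g (n - f i) * g (n - f (i + h)) := by
      rw [Finset.sum_comm]
      exact Finset.sum_congr rfl (fun h _ => Finset.mul_sum _ _ _)
    rw [h1, Finset.mul_sum, Finset.mul_sum, Finset.mul_sum, ← Finset.sum_add_distrib,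
      Finset.mul_sum]
    exact Finset.sum_le_sum (fun n _ => vdcN H K (fun i => g (n - f i)))
  have hdiag : ∑ n ∈ Icc (-(N : ℤ)) N, ∑ i ∈ range H, g (n - f i) ^ 2 ≤ 3 * N * H := by
    calc ∑ n ∈ Icc (-(N : ℤ)) N, ∑ i ∈ range H, g (n - f i) ^ 2
        ≤ ∑ _n ∈ Icc (-(N : ℤ)) N, (H : ℝ) := by
          refine Finset.sum_le_sum (fun n _ => ?_)
          refine le_trans (Finset.sum_le_sum (fun i _ => ?_) : _ ≤ ∑ _i ∈ range H, (1 : ℝ)) (by simp)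
          rw [sq_le_one_iff_abs_le_one]
          exact hg _
      _ = ((Icc (-(N : ℤ)) N).card : ℝ) * H := by rw [Finset.sum_const, nsmul_eq_mul]
      _ ≤ 3 * N * H := mul_le_mul_of_nonneg_right hcardR hHR
  have hoff : ∑ h ∈ Ico 1 K, ((K : ℝ) - h) * ∑ n ∈ Icc (-(N : ℤ)) N,
      ∑ i ∈ range (H - h), g (n - f i) * g (n - f (i + h)) ≤ (K : ℝ) ^ 2 * (S + 2 * D * H) := by
    have hpos : 0 ≤ S + 2 * D * H := by positivity
    calc ∑ h ∈ Ico 1 K, ((K : ℝ) - h) * ∑ n ∈ Icc (-(N : ℤ)) N,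
          ∑ i ∈ range (H - h), g (n - f i) * g (n - f (i + h))
        ≤ ∑ _h ∈ Ico 1 K, (K : ℝ) * (S + 2 * D * H) := by
          refine Finset.sum_le_sum (fun h hh => ?_)
          have h2 : (h : ℝ) ≤ K := by exact_mod_cast (Finset.mem_Ico.1 hh).2.le
          have h3 : (0 : ℝ) ≤ h := Nat.cast_nonneg h
          refine le_trans (mul_le_mul_of_nonneg_left (hC h hh) (by linarith)) ?_
          exact mul_le_mul_of_nonneg_right (by linarith) hpos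
      _ = ((K - 1 : ℕ) : ℝ) * (K * (S + 2 * D * H)) := by
          rw [Finset.sum_const, Nat.card_Ico, nsmul_eq_mul]
      _ ≤ (K : ℝ) * (K * (S + 2 * D * H)) := by
          refine mul_le_mul_of_nonneg_right ?_ (by positivity)
          exact_mod_cast Nat.sub_le K 1
      _ = (K : ℝ) ^ 2 * (S + 2 * D * H) := by ring
  have hsq : ∑ n ∈ Icc (-(N : ℤ)) N, (∑ i ∈ range H, g (n - f i)) ^ 2 ≤
      2 * H * (3 * N * H / K + 2 * (S + 2 * D * H)) := by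
    have h1 : (K : ℝ) ^ 2 * ∑ n ∈ Icc (-(N : ℤ)) N, (∑ i ∈ range H, g (n - f i)) ^ 2 ≤
        (K : ℝ) ^ 2 * (2 * H * (3 * N * H / K + 2 * (S + 2 * D * H))) := by
      calc (K : ℝ) ^ 2 * ∑ n ∈ Icc (-(N : ℤ)) N, (∑ i ∈ range H, g (n - f i)) ^ 2
          ≤ (H + K) * (K * (3 * N * H) + 2 * ((K : ℝ) ^ 2 * (S + 2 * D * H))) := by
            refine le_trans hV ?_
            refine mul_le_mul_of_nonneg_left ?_ (by linarith)
            exact add_le_add (mul_le_mul_of_nonneg_left hdiag hKR.le)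
              (mul_le_mul_of_nonneg_left hoff (by norm_num))
        _ ≤ (2 * H) * (K * (3 * N * H) + 2 * ((K : ℝ) ^ 2 * (S + 2 * D * H))) := by
            refine mul_le_mul_of_nonneg_right (by linarith) (by positivity)
        _ = (K : ℝ) ^ 2 * (2 * H * (3 * N * H / K + 2 * (S + 2 * D * H))) := by
            field_simp
    exact le_of_mul_le_mul_left h1 (by positivity)
  have hcs : (∑ n ∈ Icc (-(N : ℤ)) N, |∑ i ∈ range H, g (n - f i)|) ^ 2 ≤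
      ((Icc (-(N : ℤ)) N).card : ℝ) * ∑ n ∈ Icc (-(N : ℤ)) N, (∑ i ∈ range H, g (n - f i)) ^ 2 := by
    refine le_trans sq_sum_le_card_mul_sum_sq ?_
    refine mul_le_mul_of_nonneg_left ?_ (Nat.cast_nonneg _)
    exact Finset.sum_le_sum (fun n _ => (sq_abs _).le)
  calc (∑ n ∈ Icc (-(N : ℤ)) N, |∑ i ∈ range H, g (n - f i)|) ^ 2
      ≤ ((Icc (-(N : ℤ)) N).card : ℝ) *
        ∑ n ∈ Icc (-(N : ℤ)) N, (∑ i ∈ range H, g (n - f i)) ^ 2 := hcs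
    _ ≤ (3 * N) * ∑ n ∈ Icc (-(N : ℤ)) N, (∑ i ∈ range H, g (n - f i)) ^ 2 :=
        mul_le_mul_of_nonneg_right hcardR (Finset.sum_nonneg (fun n _ => sq_nonneg _))
    _ ≤ (3 * N) * (2 * H * (3 * N * H / K + 2 * (S + 2 * D * H))) :=
        mul_le_mul_of_nonneg_left hsq (by positivity)
    _ = 3 * N * (2 * H) * (3 * N * H / K + 2 * (S + 2 * D * H)) := by ring
-- END step

-- BEGIN lin
private theorem lin_shift (F : ℤ → ℝ) (hF : ∀ m, 0 ≤ F m) (N N' : ℕ) (c : ℤ) (h : (N : ℤ) + |c| ≤ N') :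
    ∑ n ∈ Icc (-(N : ℤ)) N, F (n - c) ≤ ∑ m ∈ Icc (-(N' : ℤ)) N', F m := by
  have h1 : ∑ n ∈ Icc (-(N : ℤ)) N, F (n - c) = ∑ m ∈ (Icc (-(N : ℤ)) N).image (fun n => n - c), F m := by
    rw [Finset.sum_image]
    intro x _ y _ hxy
    exact sub_left_injective hxy
  rw [h1]
  apply Finset.sum_le_sum_of_subset_of_nonneg
  · intro m hm
    obtain ⟨n, hn, rfl⟩ := Finset.mem_image.1 hm
    rw [Finset.mem_Icc] at hn ⊢
    have h2 := neg_abs_le c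
    have h3 := le_abs_self c
    constructor <;> omega
  · intros
    exact hF _

/-- A3. From `ap3` (Inp) with `D = a`, `ε / (C + 3)`: reflect `i ↦ H - 1 - i`, put `m = n - e - a (H - 1)`, then `n - (a i' + e) = m + a i`; for `N ≥ a H` the `m` are in
`Icc (-N') N'`, `N' = N + ⌈C N⌉ + N ≤ (C + 3) N`. -/
theorem lin (M v a : ℕ) (hM : 0 < M) (hv : 0 < v) (ha : 0 < a) (n₀ : ℤ) (C : ℝ) (hC : 0 < C) (ε : ℝ) (hε : 0 < ε) :
    ∃ H₀ : ℕ, ∀ H : ℕ, H₀ ≤ H → ∃ N₀ : ℕ, ∀ N : ℕ, N₀ ≤ N → ∀ e : ℤ, |(e : ℝ)| ≤ C * N →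
      ∑ n ∈ Icc (-(N : ℤ)) N, |∑ i ∈ range H, gg M v n₀ (n - (a * (i : ℤ) + e))| ≤ ε * N * H := by
  have hC3 : 0 < C + 3 := by linarith
  obtain ⟨J₀, hJ⟩ := ap3 M v a hM hv ha n₀ (ε / (C + 3)) (div_pos hε hC3)
  refine ⟨J₀, fun H hH => ?_⟩
  obtain ⟨N₁, hN₁⟩ := hJ H hH
  refine ⟨N₁ + a * (H + 1), fun N hN e he => ?_⟩
  obtain ⟨c, hc⟩ : ∃ c : ℤ, c = e + a * ((H : ℤ) - 1) := ⟨_, rfl⟩
  obtain ⟨N', hN'⟩ : ∃ N' : ℕ, N' = ⌊(C + 3) * N⌋₊ := ⟨_, rfl⟩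
  have hN0 : (0 : ℝ) ≤ N := Nat.cast_nonneg N
  have hNN : N ≤ N' := by
    rw [hN']
    apply Nat.le_floor
    nlinarith
  have hN'le : (N' : ℝ) ≤ (C + 3) * N := by
    rw [hN']
    exact Nat.floor_le (by positivity)
  have haH : (a : ℝ) * (H + 1) ≤ N := by
    exact_mod_cast (by omega : a * (H + 1) ≤ N)
  have hin : ∀ n : ℤ, ∑ i ∈ range H, gg M v n₀ (n - (a * (i : ℤ) + e)) =
      ∑ i ∈ range H, gg M v n₀ ((n - c) + a * (i : ℤ)) := by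
    intro n
    rw [← Finset.sum_range_reflect]
    refine Finset.sum_congr rfl fun i hi => ?_
    have hi' := Finset.mem_range.1 hi
    have h1 : ((H - 1 - i : ℕ) : ℤ) = (H : ℤ) - 1 - i := by omega
    rw [h1, hc]
    congr 1
    ring
  have hcb : (N : ℤ) + |c| ≤ N' := by
    have h1 : |(c : ℝ)| ≤ |(e : ℝ)| + a * (H + 1) := by
      rw [hc]
      push_cast
      have h0 := abs_add_le (e : ℝ) ((a : ℝ) * ((H : ℝ) - 1))
      have h2 : |(a : ℝ) * ((H : ℝ) - 1)| ≤ a * (H + 1) := by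
        rw [abs_mul, abs_of_nonneg (Nat.cast_nonneg (α := ℝ) a)]
        refine mul_le_mul_of_nonneg_left ?_ (Nat.cast_nonneg a)
        have h3 : (0 : ℝ) ≤ H := Nat.cast_nonneg H
        rw [abs_le]
        constructor <;> linarith
      linarith
    have h4 : ((N + c.natAbs : ℕ) : ℝ) ≤ (C + 3) * N := by
      rw [Nat.cast_add, Nat.cast_natAbs, Int.cast_abs]
      nlinarith
    have h5 : N + c.natAbs ≤ N' := by
      rw [hN']
      exact Nat.le_floor h4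
    rw [← Int.natCast_natAbs c]
    omega
  calc ∑ n ∈ Icc (-(N : ℤ)) N, |∑ i ∈ range H, gg M v n₀ (n - (a * (i : ℤ) + e))|
      = ∑ n ∈ Icc (-(N : ℤ)) N, (fun m : ℤ => |∑ i ∈ range H, gg M v n₀ (m + a * (i : ℤ))|) (n - c) :=
        Finset.sum_congr rfl fun n _ => by rw [hin n]
    _ ≤ ∑ m ∈ Icc (-(N' : ℤ)) N', |∑ i ∈ range H, gg M v n₀ (m + a * (i : ℤ))| :=
        lin_shift (fun m : ℤ => |∑ i ∈ range H, gg M v n₀ (m + a * (i : ℤ))|) (fun m => abs_nonneg _) N N' c hcb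
    _ ≤ ε / (C + 3) * N' * H := hN₁ N' (by omega)
    _ ≤ ε / (C + 3) * ((C + 3) * N) * H := by
        refine mul_le_mul_of_nonneg_right ?_ (Nat.cast_nonneg H)
        exact mul_le_mul_of_nonneg_left hN'le (div_pos hε hC3).le
    _ = ε * N * H := by
        field_simp
-- END lin

-- BEGIN quad
/-- A4. `step` with `g = gg M v n₀`, `f i = a i² + b i + e`; `f (i + h) - f i = (2 a h) i + (a h² + b h)`. `K` with `18 / K ≤ ε² / 2`, `ε₁ = ε² / (100 (C + 3))`; `lin` for `2 a h`, `C = 1`, `ε₁`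
and each `1 ≤ h < K` (take the maximum of the `H₀` plus `K`, the maximum of the `N₀` for `H - h`); `E = ⌈C N⌉₊ ≤ (C + 1) N`, `D = ε₁ N` (`|b| H ≤ η N H ≤ ε₁ N / 2`, `a H² ≤ ε₁ N / 2`), `S = ε₁ (N + E) H`. -/
theorem quad (M v a : ℕ) (hM : 0 < M) (hv : 0 < v) (ha : 0 < a) (n₀ : ℤ) (C : ℝ) (hC : 0 < C) (ε : ℝ) (hε : 0 < ε) :
    ∃ H₀ : ℕ, ∀ H : ℕ, H₀ ≤ H → ∃ η : ℝ, 0 < η ∧ ∃ N₀ : ℕ, ∀ N : ℕ, N₀ ≤ N → ∀ b e : ℤ, |(b : ℝ)| ≤ η * N → |(e : ℝ)| ≤ C * N →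
      ∑ n ∈ Icc (-(N : ℤ)) N, |∑ i ∈ range H, gg M v n₀ (n - (a * (i : ℤ) ^ 2 + b * i + e))| ≤ ε * N * H := by
  -- the constants
  obtain ⟨K, hK⟩ : ∃ K : ℕ, 36 / ε ^ 2 + 1 ≤ K := exists_nat_ge _
  have hε2 : 0 < ε ^ 2 := by positivity
  have hK1 : 1 ≤ K := by
    have h1 : (1 : ℝ) ≤ K := by
      have : 0 < 36 / ε ^ 2 := by positivity
      linarith
    exact_mod_cast h1
  have hKr : (1 : ℝ) ≤ K := by exact_mod_cast hK1
  have hKε : 36 ≤ ε ^ 2 * K := by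
    have h1 : 36 / ε ^ 2 ≤ K := by linarith
    rw [div_le_iff₀ hε2] at h1
    linarith
  obtain ⟨ε₁, hε₁⟩ : ∃ ε₁ : ℝ, ε₁ = ε ^ 2 / (200 * (C + 3)) := ⟨_, rfl⟩
  have hε₁0 : 0 < ε₁ := by rw [hε₁]; positivity
  have hε₁C : ε₁ * (C + 3) = ε ^ 2 / 200 := by
    rw [hε₁]
    field_simp
  have hl : ∀ h : ℕ, ∃ H₀ : ℕ, 0 < h → ∀ H : ℕ, H₀ ≤ H → ∃ N₀ : ℕ, ∀ N : ℕ, N₀ ≤ N → ∀ e : ℤ, |(e : ℝ)| ≤ 1 * N →
      ∑ n ∈ Icc (-(N : ℤ)) N, |∑ i ∈ range H, gg M v n₀ (n - (((2 * a * h : ℕ) : ℤ) * (i : ℤ) + e))| ≤ ε₁ * N * H := by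
    intro h
    by_cases hh : 0 < h
    · obtain ⟨H₀, h1⟩ := lin M v (2 * a * h) hM hv (by positivity) n₀ 1 one_pos ε₁ hε₁0
      exact ⟨H₀, fun _ => h1⟩
    · exact ⟨0, fun h' => absurd h' hh⟩
  choose HH hHH using hl
  refine ⟨K + ∑ h ∈ range K, HH h, fun H hH => ?_⟩
  have hHh : ∀ h, h < K → HH h ≤ H - h := by
    intro h hh
    have h1 : HH h ≤ ∑ h ∈ range K, HH h :=
      Finset.single_le_sum (f := HH) (fun _ _ => Nat.zero_le _) (Finset.mem_range.2 hh)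
    omega
  have hl2 : ∀ h : ℕ, ∃ N₀ : ℕ, 0 < h → h < K → ∀ N : ℕ, N₀ ≤ N → ∀ e : ℤ, |(e : ℝ)| ≤ 1 * N →
      ∑ n ∈ Icc (-(N : ℤ)) N, |∑ i ∈ range (H - h), gg M v n₀ (n - (((2 * a * h : ℕ) : ℤ) * (i : ℤ) + e))| ≤
        ε₁ * N * ((H - h : ℕ) : ℝ) := by
    intro h
    by_cases hh : 0 < h ∧ h < K
    · obtain ⟨N₀, h1⟩ := hHH h hh.1 (H - h) (hHh h hh.2)
      exact ⟨N₀, fun _ _ => h1⟩
    · exact ⟨0, fun h1 h2 => absurd ⟨h1, h2⟩ hh⟩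
  choose NN hNN using hl2
  obtain ⟨η, hη⟩ : ∃ η : ℝ, η = ε ^ 2 / (200 * (H + 1) * (ε ^ 2 + 1)) := ⟨_, rfl⟩
  have hHr : (0 : ℝ) ≤ H := Nat.cast_nonneg H
  have hη0 : 0 < η := by rw [hη]; positivity
  have hηH : η * H ≤ ε ^ 2 / 200 := by
    rw [hη, div_mul_eq_mul_div, div_le_div_iff₀ (by positivity) (by norm_num)]
    nlinarith [mul_nonneg hHr hε2.le, mul_nonneg (mul_nonneg hHr hε2.le) hε2.le]
  have hηH1 : η * H ≤ 1 / 2 := by
    rw [hη, div_mul_eq_mul_div, div_le_div_iff₀ (by positivity) (by norm_num)]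
    nlinarith [mul_nonneg hHr hε2.le]
  refine ⟨η, hη0, ?_⟩
  obtain ⟨N₂, hN₂⟩ : ∃ N₂ : ℕ, (200 / ε ^ 2 + 2) * (a * (H + 1) ^ 2) + 1 ≤ N₂ := exists_nat_ge _
  refine ⟨N₂ + ∑ h ∈ range K, NN h, fun N hN b e hb he => ?_⟩
  have hN2r : (200 / ε ^ 2 + 2) * (a * (H + 1) ^ 2) + 1 ≤ (N : ℝ) := by
    refine hN₂.trans ?_
    exact_mod_cast (by omega : N₂ ≤ N)
  have har : (0 : ℝ) ≤ a := Nat.cast_nonneg a
  have haH2 : (0 : ℝ) ≤ a * (H + 1) ^ 2 := by positivity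
  have hNr1 : (1 : ℝ) ≤ N := by
    have h1 : 0 ≤ (200 / ε ^ 2 + 2) * (a * (H + 1) ^ 2) := by positivity
    linarith
  have hN1 : 1 ≤ N := by exact_mod_cast hNr1
  have hN0 : (0 : ℝ) ≤ N := Nat.cast_nonneg N
  have haN1 : (a : ℝ) * (H + 1) ^ 2 ≤ ε ^ 2 / 200 * N := by
    have h1 : (200 / ε ^ 2) * (a * (H + 1) ^ 2) ≤ N := by nlinarith
    have h2 : (200 / ε ^ 2) * ((a : ℝ) * (H + 1) ^ 2) = 200 * (a * (H + 1) ^ 2) / ε ^ 2 := by ring
    rw [h2, div_le_iff₀ hε2] at h1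
    linarith
  have haN2 : (a : ℝ) * (H + 1) ^ 2 ≤ N / 2 := by
    have h1 : 0 ≤ (200 / ε ^ 2) * (a * (H + 1) ^ 2) := by positivity
    nlinarith
  obtain ⟨E, hE⟩ : ∃ E : ℕ, E = e.natAbs := ⟨_, rfl⟩
  have hEe : ((E : ℕ) : ℝ) = |(e : ℝ)| := by rw [hE, Nat.cast_natAbs, Int.cast_abs]
  have hKH : K ≤ H := by omega
  have hS0 : 0 ≤ ε₁ * ((C + 1) * N) * H := by positivity
  have key := step (gg M v n₀) (gg_le M v n₀) N H K E (ε ^ 2 / 100 * N) (ε₁ * ((C + 1) * N) * H) hN1 hK1 hKH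
    (fun i => a * (i : ℤ) ^ 2 + b * i + e) ?_ ?_ hS0 ?_
  · have hX0 : 0 ≤ ∑ n ∈ Icc (-(N : ℤ)) N, |∑ i ∈ range H, gg M v n₀ (n - (a * (i : ℤ) ^ 2 + b * i + e))| :=
      Finset.sum_nonneg fun _ _ => abs_nonneg _
    have hR : 3 * (N : ℝ) * (2 * H) * (3 * N * H / K + 2 * (ε₁ * ((C + 1) * N) * H + 2 * (ε ^ 2 / 100 * N) * H)) ≤
        (ε * N * H) ^ 2 := by
      have h1 : 3 * (N : ℝ) * H / K ≤ N * H * (ε ^ 2 / 12) := by
        rw [div_le_iff₀ (by linarith)]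
        nlinarith [mul_nonneg hN0 hHr]
      have h2 : ε₁ * ((C + 1) * N) * H ≤ ε ^ 2 / 200 * N * H := by
        rw [← hε₁C]
        nlinarith [mul_nonneg hN0 hHr, mul_nonneg (mul_nonneg hN0 hHr) hε₁0.le]
      have h3 : 3 * (N : ℝ) * H / K + 2 * (ε₁ * ((C + 1) * N) * H + 2 * (ε ^ 2 / 100 * N) * H) ≤
          ε ^ 2 * N * H / 6 := by nlinarith [mul_nonneg (mul_nonneg hN0 hHr) hε2.le]
      have h4 : 0 ≤ 3 * (N : ℝ) * (2 * H) := by positivity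
      calc _ ≤ 3 * (N : ℝ) * (2 * H) * (ε ^ 2 * N * H / 6) := mul_le_mul_of_nonneg_left h3 h4
        _ = (ε * N * H) ^ 2 := by ring
    have hY0 : 0 ≤ ε * N * H := by positivity
    exact le_of_sq_le_sq (key.trans hR) hY0
  · -- `|f 0| ≤ E`
    simp only [Nat.cast_zero]
    rw [hE]
    have h1 : (a : ℤ) * 0 ^ 2 + b * 0 + e = e := by ring
    rw [h1, ← Int.natCast_natAbs e]
  · -- `|f i - f 0| ≤ D`
    intro i hi
    have hir : (i : ℝ) ≤ H := by exact_mod_cast hi.le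
    have hi0 : (0 : ℝ) ≤ i := Nat.cast_nonneg i
    have h1 : (((a * (i : ℤ) ^ 2 + b * i + e) - (a * ((0 : ℕ) : ℤ) ^ 2 + b * ((0 : ℕ) : ℤ) + e) : ℤ) : ℝ) =
        a * (i : ℝ) ^ 2 + b * i := by
      push_cast
      ring
    rw [h1]
    have h2 := abs_add_le ((a : ℝ) * (i : ℝ) ^ 2) (b * i)
    have h3 : |(a : ℝ) * (i : ℝ) ^ 2| ≤ ε ^ 2 / 200 * N := by
      rw [abs_of_nonneg (by positivity)]
      refine le_trans ?_ haN1
      exact mul_le_mul_of_nonneg_left (pow_le_pow_left₀ hi0 (by linarith) 2) har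
    have h4 : |(b : ℝ) * i| ≤ ε ^ 2 / 200 * N := by
      rw [abs_mul, abs_of_nonneg hi0]
      calc |(b : ℝ)| * i ≤ (η * N) * H := mul_le_mul hb hir hi0 (by positivity)
        _ = (η * H) * N := by ring
        _ ≤ ε ^ 2 / 200 * N := mul_le_mul_of_nonneg_right hηH hN0
    linarith
  · -- the correlations
    intro h h1 hh
    have hNh : NN h ≤ N + E := by
      have h2 : NN h ≤ ∑ h ∈ range K, NN h :=
        Finset.single_le_sum (f := NN) (fun _ _ => Nat.zero_le _) (Finset.mem_range.2 hh)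
      omega
    have hhr : (h : ℝ) ≤ H := by exact_mod_cast (by omega : h ≤ H)
    have hh0 : (0 : ℝ) ≤ h := Nat.cast_nonneg h
    have he' : |((a * (h : ℤ) ^ 2 + b * h : ℤ) : ℝ)| ≤ 1 * ((N + E : ℕ) : ℝ) := by
      push_cast
      have h2 := abs_add_le ((a : ℝ) * (h : ℝ) ^ 2) (b * h)
      have h3 : |(a : ℝ) * (h : ℝ) ^ 2| ≤ N / 2 := by
        rw [abs_of_nonneg (by positivity)]
        refine le_trans ?_ haN2
        exact mul_le_mul_of_nonneg_left (pow_le_pow_left₀ hh0 (by linarith) 2) har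
      have h4 : |(b : ℝ) * h| ≤ N / 2 := by
        rw [abs_mul, abs_of_nonneg hh0]
        calc |(b : ℝ)| * h ≤ (η * N) * H := mul_le_mul hb hhr hh0 (by positivity)
          _ = (η * H) * N := by ring
          _ ≤ 1 / 2 * N := mul_le_mul_of_nonneg_right hηH1 hN0
          _ = N / 2 := by ring
      have h5 : (0 : ℝ) ≤ E := Nat.cast_nonneg E
      linarith
    have h2 := hNN h (by omega) hh (N + E) hNh (a * (h : ℤ) ^ 2 + b * h) he'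
    have h3 : ∀ m : ℤ, ∀ i : ℕ, m - ((a * ((i + h : ℕ) : ℤ) ^ 2 + b * ((i + h : ℕ) : ℤ) + e) - (a * (i : ℤ) ^ 2 + b * i + e)) =
        m - (((2 * a * h : ℕ) : ℤ) * (i : ℤ) + (a * (h : ℤ) ^ 2 + b * h)) := by
      intro m i
      push_cast
      ring
    have h4 : ∑ m ∈ Icc (-((N + E : ℕ) : ℤ)) ((N + E : ℕ) : ℤ), |∑ i ∈ range (H - h),
        gg M v n₀ (m - ((a * ((i + h : ℕ) : ℤ) ^ 2 + b * ((i + h : ℕ) : ℤ) + e) - (a * (i : ℤ) ^ 2 + b * i + e)))| ≤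
        ε₁ * ((N + E : ℕ) : ℝ) * ((H - h : ℕ) : ℝ) := by
      refine le_trans (le_of_eq ?_) h2
      refine Finset.sum_congr rfl fun m _ => ?_
      congr 1
      exact Finset.sum_congr rfl fun i _ => by rw [h3]
    refine h4.trans ?_
    have h5 : ((N + E : ℕ) : ℝ) ≤ (C + 1) * N := by
      push_cast
      rw [hEe]
      linarith
    have h6 : ((H - h : ℕ) : ℝ) ≤ H := by exact_mod_cast Nat.sub_le H h
    refine mul_le_mul (mul_le_mul_of_nonneg_left h5 hε₁0.le) h6 (Nat.cast_nonneg _) (by positivity)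
-- END quad

-- BEGIN cub
private theorem cub_pos (K : ℕ) (e : ℕ → ℝ) (he : ∀ h, h < K → 0 < e h) :
    ∃ η : ℝ, 0 < η ∧ ∀ h, h < K → η ≤ e h := by
  induction K with
  | zero => exact ⟨1, one_pos, fun h hh => absurd hh (Nat.not_lt_zero _)⟩
  | succ K ih =>
    obtain ⟨η, h1, h2⟩ := ih (fun h hh => he h (Nat.lt_succ_of_lt hh))
    refine ⟨min η (e K), lt_min h1 (he K (Nat.lt_succ_self K)), fun h hh => ?_⟩
    rcases Nat.lt_succ_iff_lt_or_eq.1 hh with h3 | h3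
    · exact (min_le_left _ _).trans (h2 h h3)
    · rw [h3]; exact min_le_right _ _

private theorem cub_sum (K : ℕ) (e : ℕ → ℕ) (h : ℕ) (hh : h < K) :
    e h ≤ ∑ h ∈ range K, e h :=
  Finset.single_le_sum (f := e) (fun _ _ => Nat.zero_le _) (mem_range.2 hh)

/-- A5. The same as `quad`, one degree higher: `f i = a i³ + b i² + c i + e`, `f (i + h) - f i = (3 a h) i² + (3 a h² + 2 b h) i + (a h³ + b h² + c h)`, `quad` for `3 a h` and each `1 ≤ h < K`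
(with its `η'`: `3 a h² + 2 h η N ≤ η' N` for small `η` and large `N`). -/
theorem cub (M v a : ℕ) (hM : 0 < M) (hv : 0 < v) (ha : 0 < a) (n₀ : ℤ) (C : ℝ) (hC : 0 < C) (ε : ℝ) (hε : 0 < ε) :
    ∃ H₀ : ℕ, ∀ H : ℕ, H₀ ≤ H → ∃ η : ℝ, 0 < η ∧ ∃ N₀ : ℕ, ∀ N : ℕ, N₀ ≤ N → ∀ b c e : ℤ, |(b : ℝ)| ≤ η * N → |(c : ℝ)| ≤ η * N →
      |(e : ℝ)| ≤ C * N →
      ∑ n ∈ Icc (-(N : ℤ)) N, |∑ i ∈ range H, gg M v n₀ (n - (a * (i : ℤ) ^ 3 + b * i ^ 2 + c * i + e))| ≤ ε * N * H := by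
  set ε₁ : ℝ := ε ^ 2 / (100 * (C + 3)) with hε₁
  have hε₁0 : 0 < ε₁ := by positivity
  have hq : ∀ h' : ℕ, ∃ H₀ : ℕ, ∀ H : ℕ, H₀ ≤ H → ∃ η : ℝ, 0 < η ∧ ∃ N₀ : ℕ, ∀ N : ℕ, N₀ ≤ N →
      ∀ b e : ℤ, |(b : ℝ)| ≤ η * N → |(e : ℝ)| ≤ 1 * N →
      ∑ n ∈ Icc (-(N : ℤ)) N, |∑ i ∈ range H,
        gg M v n₀ (n - (((3 * a * (h' + 1) : ℕ) : ℤ) * (i : ℤ) ^ 2 + b * i + e))| ≤ ε₁ * N * H :=
    fun h' => quad M v (3 * a * (h' + 1)) hM hv (by positivity) n₀ 1 one_pos ε₁ hε₁0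
  choose H0 hH0 using hq
  obtain ⟨K, hK⟩ := exists_nat_gt (36 / ε ^ 2)
  have hK0 : (0 : ℝ) < K := lt_trans (by positivity) hK
  have hK1 : 1 ≤ K := by
    have : 0 < K := by exact_mod_cast hK0
    omega
  refine ⟨K + ∑ h ∈ range K, H0 h, fun H hH => ?_⟩
  have hKH : K ≤ H := by omega
  have hH1 : 1 ≤ H := hK1.trans hKH
  have hη : ∀ h' : ℕ, ∃ η : ℝ, ∃ N₀ : ℕ, h' < K → 0 < η ∧ ∀ N : ℕ, N₀ ≤ N →
      ∀ b e : ℤ, |(b : ℝ)| ≤ η * N → |(e : ℝ)| ≤ 1 * N →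
      ∑ n ∈ Icc (-(N : ℤ)) N, |∑ i ∈ range (H - (h' + 1)),
        gg M v n₀ (n - (((3 * a * (h' + 1) : ℕ) : ℤ) * (i : ℤ) ^ 2 + b * i + e))| ≤
          ε₁ * N * ((H - (h' + 1) : ℕ) : ℝ) := by
    intro h'
    by_cases hh : h' < K
    · have h1 := cub_sum K H0 h' hh
      obtain ⟨η, hη, N₀, hN⟩ := hH0 h' (H - (h' + 1)) (by omega)
      exact ⟨η, N₀, fun _ => ⟨hη, hN⟩⟩
    · exact ⟨0, 0, fun h => absurd h hh⟩
  choose e1 N1 hN1 using hη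
  obtain ⟨η1, hη1, hη1'⟩ := cub_pos K e1 (fun h hh => (hN1 h hh).1)
  have hHr : (1 : ℝ) ≤ H := by exact_mod_cast hH1
  have hKr : (1 : ℝ) ≤ K := by exact_mod_cast hK1
  have har : (0 : ℝ) < a := by exact_mod_cast ha
  set η : ℝ := min (η1 / (4 * K)) (min (1 / (4 * K ^ 2)) (ε₁ / (4 * H ^ 2))) with hηdef
  have hη0 : 0 < η := by positivity
  have l1 : 4 * K * η ≤ η1 := by
    have h1 : η ≤ η1 / (4 * K) := min_le_left _ _
    rw [le_div_iff₀ (by positivity)] at h1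
    linarith
  have l2 : 4 * K ^ 2 * η ≤ 1 := by
    have h1 : η ≤ 1 / (4 * K ^ 2) := (min_le_right _ _).trans (min_le_left _ _)
    rw [le_div_iff₀ (by positivity)] at h1
    linarith
  have l3 : 4 * H ^ 2 * η ≤ ε₁ := by
    have h1 : η ≤ ε₁ / (4 * H ^ 2) := (min_le_right _ _).trans (min_le_right _ _)
    rw [le_div_iff₀ (by positivity)] at h1
    linarith
  refine ⟨η, hη0, (∑ h ∈ range K, N1 h) + ⌈6 * a * K ^ 2 / η1⌉₊ + ⌈2 * (a : ℝ) * K ^ 3⌉₊ +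
    ⌈2 * a * H ^ 3 / ε₁⌉₊ + 1, fun N hN b c e hb hc he => ?_⟩
  have hNr1 : (1 : ℝ) ≤ N := by
    have : 1 ≤ N := by omega
    exact_mod_cast this
  have hN0 : (0 : ℝ) < N := by linarith
  have n1 : 6 * a * (K : ℝ) ^ 2 ≤ η1 * N := by
    have h1 : 6 * a * (K : ℝ) ^ 2 / η1 ≤ N := by
      refine (Nat.le_ceil _).trans ?_
      have : ⌈6 * (a : ℝ) * K ^ 2 / η1⌉₊ ≤ N := by omega
      exact_mod_cast this
    rw [div_le_iff₀ hη1] at h1
    linarith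
  have n2 : 2 * (a : ℝ) * K ^ 3 ≤ N := by
    refine (Nat.le_ceil _).trans ?_
    have : ⌈2 * (a : ℝ) * K ^ 3⌉₊ ≤ N := by omega
    exact_mod_cast this
  have n3 : 2 * a * (H : ℝ) ^ 3 ≤ ε₁ * N := by
    have h1 : 2 * a * (H : ℝ) ^ 3 / ε₁ ≤ N := by
      refine (Nat.le_ceil _).trans ?_
      have : ⌈2 * (a : ℝ) * H ^ 3 / ε₁⌉₊ ≤ N := by omega
      exact_mod_cast this
    rw [div_le_iff₀ hε₁0] at h1
    linarith
  set E : ℕ := ⌈C * N⌉₊ with hE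
  have hE1 : C * N ≤ E := Nat.le_ceil _
  have hE2 : (E : ℝ) ≤ C * N + 1 := (Nat.ceil_lt_add_one (by positivity)).le
  set f : ℕ → ℤ := fun i => a * (i : ℤ) ^ 3 + b * i ^ 2 + c * i + e with hf
  have hf0 : f 0 = e := by simp [hf]
  have hηN : 0 ≤ η * N := by positivity
  have hS0 : 0 ≤ ε₁ * (N + E) * H := by positivity
  have key := step (gg M v n₀) (gg_le M v n₀) N H K E (ε₁ * N) (ε₁ * (N + E) * H)
    (by exact_mod_cast hNr1) hK1 hKH f ?_ ?_ hS0 ?_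
  · -- conclusion
    have k1 : 3 * (N : ℝ) * H / K ≤ ε ^ 2 * (N * H) / 12 := by
      rw [div_le_iff₀ hK0]
      have h1 : 36 ≤ ε ^ 2 * K := by
        have h2 := hK.le
        rw [div_le_iff₀ (by positivity)] at h2
        linarith
      have h3 : 0 ≤ (N : ℝ) * H := by positivity
      nlinarith
    have k2 : ε₁ * (100 * (C + 3)) = ε ^ 2 := by
      rw [hε₁]; field_simp
    have k3 : ε₁ * (N + E) * H ≤ ε ^ 2 / 100 * (N * H) := by
      have h1 : (N : ℝ) + E ≤ (C + 3) * N := by nlinarith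
      have h2 : ε₁ * (N + E) ≤ ε₁ * ((C + 3) * N) := mul_le_mul_of_nonneg_left h1 hε₁0.le
      have h3 : ε₁ * ((C + 3) * N) = ε ^ 2 / 100 * N := by rw [← k2]; ring
      rw [h3] at h2
      have h4 := mul_le_mul_of_nonneg_right h2 (by positivity : (0 : ℝ) ≤ H)
      linarith
    have k4 : ε₁ ≤ ε ^ 2 / 300 := by
      rw [← k2]
      nlinarith
    have k5 : ε₁ * N * H ≤ ε ^ 2 / 300 * (N * H) := by
      have h4 := mul_le_mul_of_nonneg_right k4 (by positivity : (0 : ℝ) ≤ (N : ℝ) * H)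
      linarith
    have k6 : 3 * (N : ℝ) * (2 * H) * (3 * N * H / K + 2 * (ε₁ * (N + E) * H + 2 * (ε₁ * N) * H)) ≤
        (ε * N * H) ^ 2 := by
      have h0 : 0 ≤ 3 * (N : ℝ) * (2 * H) := by positivity
      have h1 : 3 * (N : ℝ) * H / K + 2 * (ε₁ * (N + E) * H + 2 * (ε₁ * N) * H) ≤
          ε ^ 2 * (N * H) / 6 := by
        have h2 : 0 ≤ ε ^ 2 * (N * H) := by positivity
        nlinarith
      have h2 := mul_le_mul_of_nonneg_left h1 h0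
      have h3 : 3 * (N : ℝ) * (2 * H) * (ε ^ 2 * (N * H) / 6) = (ε * N * H) ^ 2 := by ring
      rw [h3] at h2
      exact h2
    have k7 := key.trans k6
    have k8 : 0 ≤ ∑ n ∈ Icc (-(N : ℤ)) N, |∑ i ∈ range H, gg M v n₀ (n - f i)| :=
      Finset.sum_nonneg (fun _ _ => abs_nonneg _)
    exact (sq_le_sq₀ k8 (by positivity)).1 k7
  · -- |f 0| ≤ E
    rw [hf0]
    have h1 : |(e : ℝ)| ≤ E := he.trans hE1
    have h2 : ((|e| : ℤ) : ℝ) ≤ ((E : ℤ) : ℝ) := by push_cast; exact h1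
    exact_mod_cast h2
  · -- the differences
    intro i hi
    have hir : (i : ℝ) ≤ H := by exact_mod_cast hi.le
    have hi0 : (0 : ℝ) ≤ i := by positivity
    have h1 : ((f i - f 0 : ℤ) : ℝ) = a * (i : ℝ) ^ 3 + b * i ^ 2 + c * i := by
      rw [hf0]; simp only [hf]; push_cast; ring
    rw [h1]
    have i3 : (i : ℝ) ^ 3 ≤ H ^ 3 := pow_le_pow_left₀ hi0 hir 3
    have i2 : (i : ℝ) ^ 2 ≤ H ^ 2 := pow_le_pow_left₀ hi0 hir 2
    have i1 : (i : ℝ) ≤ H ^ 2 := hir.trans (by nlinarith)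
    have t1 : |(a : ℝ) * (i : ℝ) ^ 3| ≤ (a : ℝ) * (H : ℝ) ^ 3 := by
      rw [abs_of_nonneg (by positivity)]
      exact mul_le_mul_of_nonneg_left i3 har.le
    have t2 : |(b : ℝ) * (i : ℝ) ^ 2| ≤ η * N * H ^ 2 := by
      rw [abs_mul, abs_of_nonneg (by positivity : (0 : ℝ) ≤ (i : ℝ) ^ 2)]
      exact mul_le_mul hb i2 (by positivity) hηN
    have t3 : |(c : ℝ) * (i : ℝ)| ≤ η * N * H ^ 2 := by
      rw [abs_mul, abs_of_nonneg hi0]
      exact mul_le_mul hc i1 hi0 hηN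
    have t4 := abs_add_le ((a : ℝ) * (i : ℝ) ^ 3 + b * i ^ 2) (c * i)
    have t5 := abs_add_le ((a : ℝ) * (i : ℝ) ^ 3) (b * i ^ 2)
    have t6 := mul_le_mul_of_nonneg_right l3 hN0.le
    linarith
  · -- the inner sums
    intro h hh1 hhK
    obtain ⟨h', rfl⟩ : ∃ h' : ℕ, h = h' + 1 := ⟨h - 1, by omega⟩
    have hh' : h' < K := by omega
    have hxr : ((h' : ℝ) + 1) ≤ K := by
      have : h' + 1 ≤ K := by omega
      exact_mod_cast this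
    have hx0 : (0 : ℝ) < (h' : ℝ) + 1 := by positivity
    have hx1 : (1 : ℝ) ≤ (h' : ℝ) + 1 := by
      have : (0 : ℝ) ≤ h' := by positivity
      linarith
    have x2 : ((h' : ℝ) + 1) ^ 2 ≤ K ^ 2 := pow_le_pow_left₀ hx0.le hxr 2
    have x3 : ((h' : ℝ) + 1) ^ 3 ≤ K ^ 3 := pow_le_pow_left₀ hx0.le hxr 3
    have x1 : ((h' : ℝ) + 1) ≤ K ^ 2 := hxr.trans (by nlinarith)
    have hNN : (N : ℝ) ≤ ((N + E : ℕ) : ℝ) := by push_cast; linarith [Nat.cast_nonneg (α := ℝ) E]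
    set B : ℤ := 3 * a * (h' + 1) ^ 2 + 2 * b * (h' + 1) with hB
    set F : ℤ := a * (h' + 1) ^ 3 + b * (h' + 1) ^ 2 + c * (h' + 1) with hF
    have q1 : |(B : ℝ)| ≤ e1 h' * ((N + E : ℕ) : ℝ) := by
      have r1 : (B : ℝ) = 3 * a * ((h' : ℝ) + 1) ^ 2 + 2 * b * ((h' : ℝ) + 1) := by
        rw [hB]; push_cast; ring
      have r2 : |3 * (a : ℝ) * ((h' : ℝ) + 1) ^ 2| ≤ 3 * (a : ℝ) * (K : ℝ) ^ 2 := by
        rw [abs_of_nonneg (by positivity)]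
        exact mul_le_mul_of_nonneg_left x2 (by positivity)
      have r3 : |2 * (b : ℝ) * ((h' : ℝ) + 1)| ≤ 2 * (η * N) * K := by
        rw [abs_mul, abs_mul, abs_of_pos (by norm_num : (0 : ℝ) < 2), abs_of_pos hx0]
        exact mul_le_mul (mul_le_mul_of_nonneg_left hb (by norm_num)) hxr hx0.le (by positivity)
      have r4 := abs_add_le (3 * (a : ℝ) * ((h' : ℝ) + 1) ^ 2) (2 * b * ((h' : ℝ) + 1))
      have r5 := mul_le_mul_of_nonneg_right l1 hN0.le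
      have r6 : |(B : ℝ)| ≤ η1 * N := by
        rw [r1]; linarith
      have r7 : η1 * N ≤ e1 h' * ((N + E : ℕ) : ℝ) :=
        mul_le_mul (hη1' h' hh') hNN hN0.le (hη1.le.trans (hη1' h' hh'))
      exact r6.trans r7
    have q2 : |(F : ℝ)| ≤ 1 * ((N + E : ℕ) : ℝ) := by
      have r1 : (F : ℝ) = a * ((h' : ℝ) + 1) ^ 3 + b * ((h' : ℝ) + 1) ^ 2 + c * ((h' : ℝ) + 1) := by
        rw [hF]; push_cast; ring
      have r2 : |(a : ℝ) * ((h' : ℝ) + 1) ^ 3| ≤ (a : ℝ) * (K : ℝ) ^ 3 := by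
        rw [abs_of_nonneg (by positivity)]
        exact mul_le_mul_of_nonneg_left x3 har.le
      have r3 : |(b : ℝ) * ((h' : ℝ) + 1) ^ 2| ≤ η * N * K ^ 2 := by
        rw [abs_mul, abs_of_nonneg (by positivity : (0 : ℝ) ≤ ((h' : ℝ) + 1) ^ 2)]
        exact mul_le_mul hb x2 (by positivity) hηN
      have r4 : |(c : ℝ) * ((h' : ℝ) + 1)| ≤ η * N * K ^ 2 := by
        rw [abs_mul, abs_of_pos hx0]
        exact mul_le_mul hc x1 hx0.le hηN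
      have r5 := abs_add_le ((a : ℝ) * ((h' : ℝ) + 1) ^ 3 + b * ((h' : ℝ) + 1) ^ 2)
        (c * ((h' : ℝ) + 1))
      have r6 := abs_add_le ((a : ℝ) * ((h' : ℝ) + 1) ^ 3) (b * ((h' : ℝ) + 1) ^ 2)
      have r7 := mul_le_mul_of_nonneg_right l2 hN0.le
      have r8 : |(F : ℝ)| ≤ N := by
        rw [r1]; linarith
      rw [one_mul]
      exact r8.trans hNN
    have hN1' : N1 h' ≤ N + E := by
      have := cub_sum K N1 h' hh'
      omega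
    have r := (hN1 h' hh').2 (N + E) hN1' B F q1 q2
    have hint : ∀ m : ℤ, ∀ i : ℕ, m - (f (i + (h' + 1)) - f i) =
        m - (((3 * a * (h' + 1) : ℕ) : ℤ) * (i : ℤ) ^ 2 + B * i + F) := by
      intro m i
      simp only [hf, hB, hF]
      push_cast
      ring
    simp only [hint]
    refine r.trans ?_
    have r1 : ((H - (h' + 1) : ℕ) : ℝ) ≤ H := by
      have : H - (h' + 1) ≤ H := Nat.sub_le _ _
      exact_mod_cast this
    have r2 : ε₁ * ((N + E : ℕ) : ℝ) = ε₁ * (N + E) := by push_cast; ring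
    rw [r2]
    exact mul_le_mul_of_nonneg_left r1 (by positivity)
-- END cub

-- BEGIN block
/-- A6. `nn (κ + M i) t = t - (4 M³ i³ + 12 M² κ i² + 12 M κ² i + 4 κ³)`; triangle inequality over `t ∈ S ⊆ Icc (-N) N`, `|gg| ≤ 1`, `cub` with `a = 4 M³`, `C = 3`, `ε / 16`, `N = ⌈15 Y³⌉₊ ≤ 16 Y³`;
`24 M² Y`, `48 M Y² ≤ η N` for large `Y`, `|4 κ³| ≤ 32 Y³ ≤ 3 N`. -/
theorem block (M u v : ℕ) (hM : 0 < M) (hu : 0 < u) (hv : 0 < v) (t₀ n₀ : ℤ) (ε : ℝ) (hε : 0 < ε) :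
    ∃ H₀ : ℕ, ∀ H : ℕ, H₀ ≤ H → ∃ Y₀ : ℝ, ∀ Y : ℝ, Y₀ ≤ Y → ∀ κ : ℤ, |(κ : ℝ)| ≤ 2 * Y →
      ∀ S : Finset ℤ, (∀ t ∈ S, |(t : ℝ)| ≤ 15 * Y ^ 3) →
      |∑ t ∈ S, gg M u t₀ t * ∑ i ∈ range H, gg M v n₀ (nn (κ + M * (i : ℤ)) t)| ≤ ε * H * Y ^ 3 := by
  obtain ⟨H₀, hH₀⟩ := cub M v (4 * M ^ 3) hM hv (by positivity) n₀ 3 (by norm_num) (ε / 16)
    (by positivity)
  refine ⟨H₀, fun H hH => ?_⟩
  obtain ⟨η, hη, N₀, hN₀⟩ := hH₀ H hH
  refine ⟨1 + N₀ + 4 * (M : ℝ) ^ 2 / η, fun Y hY κ hκ S hS => ?_⟩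
  have hM1 : (1 : ℝ) ≤ M := by exact_mod_cast hM
  have hMM : (M : ℝ) ≤ (M : ℝ) ^ 2 := by nlinarith
  have hMη : 0 ≤ 4 * (M : ℝ) ^ 2 / η := by positivity
  have hN₀R : (0 : ℝ) ≤ N₀ := Nat.cast_nonneg N₀
  have hY1 : 1 ≤ Y := by linarith
  have hY0 : 0 ≤ Y := by linarith
  have hηY : 4 * (M : ℝ) ^ 2 ≤ η * Y := by
    have h1 : 4 * (M : ℝ) ^ 2 / η ≤ Y := by linarith
    rw [div_le_iff₀ hη] at h1
    linarith
  have hY2 : Y ≤ Y ^ 2 := by nlinarith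
  have hY3 : Y ^ 2 ≤ Y ^ 3 := by
    have h1 : Y ^ 3 = Y * Y ^ 2 := by ring
    rw [h1]
    exact le_mul_of_one_le_left (sq_nonneg Y) hY1
  set N : ℕ := ⌈15 * Y ^ 3⌉₊ with hN
  have hN1 : 15 * Y ^ 3 ≤ N := Nat.le_ceil _
  have hN2 : (N : ℝ) ≤ 16 * Y ^ 3 := by
    have h1 : (N : ℝ) < 15 * Y ^ 3 + 1 := Nat.ceil_lt_add_one (by positivity)
    linarith
  have hNN₀ : N₀ ≤ N := by
    have h1 : (N₀ : ℝ) ≤ N := by
      have h2 : (N₀ : ℝ) ≤ Y := by linarith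
      have h3 : 0 ≤ Y ^ 3 := by positivity
      linarith
    exact_mod_cast h1
  have hb : |((12 * (M : ℤ) ^ 2 * κ : ℤ) : ℝ)| ≤ η * N := by
    push_cast
    rw [abs_mul, abs_of_nonneg (by positivity)]
    have h1 : 12 * (M : ℝ) ^ 2 * |(κ : ℝ)| ≤ 12 * (M : ℝ) ^ 2 * (2 * Y) :=
      mul_le_mul_of_nonneg_left hκ (by positivity)
    have h2 : 4 * (M : ℝ) ^ 2 * Y ≤ η * Y * Y := mul_le_mul_of_nonneg_right hηY hY0
    have h3 : η * Y ^ 2 ≤ η * Y ^ 3 := mul_le_mul_of_nonneg_left hY3 hη.le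
    have h4 : η * (15 * Y ^ 3) ≤ η * N := mul_le_mul_of_nonneg_left hN1 hη.le
    have h5 : 0 ≤ (M : ℝ) ^ 2 * Y := by positivity
    have h6 : 0 ≤ η * Y ^ 3 := by positivity
    nlinarith
  have hc : |((12 * (M : ℤ) * κ ^ 2 : ℤ) : ℝ)| ≤ η * N := by
    push_cast
    rw [abs_mul, abs_of_nonneg (by positivity), abs_pow]
    have h1 : |(κ : ℝ)| ^ 2 ≤ (2 * Y) ^ 2 := pow_le_pow_left₀ (abs_nonneg _) hκ 2
    have h2 : 12 * (M : ℝ) * |(κ : ℝ)| ^ 2 ≤ 12 * (M : ℝ) * (2 * Y) ^ 2 :=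
      mul_le_mul_of_nonneg_left h1 (by positivity)
    have h3 : 4 * (M : ℝ) ^ 2 * Y ^ 2 ≤ η * Y * Y ^ 2 :=
      mul_le_mul_of_nonneg_right hηY (sq_nonneg Y)
    have h4 : η * (15 * Y ^ 3) ≤ η * N := mul_le_mul_of_nonneg_left hN1 hη.le
    have h5 : (M : ℝ) * Y ^ 2 ≤ (M : ℝ) ^ 2 * Y ^ 2 := mul_le_mul_of_nonneg_right hMM (sq_nonneg Y)
    have h6 : 0 ≤ η * Y ^ 3 := by positivity
    have h7 : 0 ≤ (M : ℝ) * Y ^ 2 := by positivity
    have h8 : η * Y * Y ^ 2 = η * Y ^ 3 := by ring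
    have h9 : 12 * (M : ℝ) * (2 * Y) ^ 2 = 48 * ((M : ℝ) * Y ^ 2) := by ring
    rw [h9] at h2
    rw [h8] at h3
    linarith
  have he : |((4 * κ ^ 3 : ℤ) : ℝ)| ≤ 3 * N := by
    push_cast
    rw [abs_mul, abs_of_nonneg (by norm_num : (0 : ℝ) ≤ 4), abs_pow]
    have h1 : |(κ : ℝ)| ^ 3 ≤ (2 * Y) ^ 3 := pow_le_pow_left₀ (abs_nonneg _) hκ 3
    have h2 : (2 * Y) ^ 3 = 8 * Y ^ 3 := by ring
    have h3 : 0 ≤ Y ^ 3 := by positivity
    rw [h2] at h1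
    linarith
  have hmain := hN₀ N hNN₀ (12 * (M : ℤ) ^ 2 * κ) (12 * (M : ℤ) * κ ^ 2) (4 * κ ^ 3) hb hc he
  have hnn : ∀ (t : ℤ) (i : ℕ), nn (κ + M * (i : ℤ)) t =
      t - (((4 * M ^ 3 : ℕ) : ℤ) * (i : ℤ) ^ 3 + 12 * (M : ℤ) ^ 2 * κ * i ^ 2 +
        12 * (M : ℤ) * κ ^ 2 * i + 4 * κ ^ 3) := by
    intro t i
    unfold nn
    push_cast
    ring
  have hsub : S ⊆ Icc (-(N : ℤ)) N := by
    intro t ht
    have h1 : |(t : ℝ)| ≤ N := le_trans (hS t ht) hN1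
    rw [abs_le] at h1
    rw [Finset.mem_Icc]
    constructor
    · have h2 : ((-(N : ℤ) : ℤ) : ℝ) ≤ t := by
        push_cast
        exact h1.1
      exact_mod_cast h2
    · exact_mod_cast h1.2
  calc |∑ t ∈ S, gg M u t₀ t * ∑ i ∈ range H, gg M v n₀ (nn (κ + M * (i : ℤ)) t)|
      ≤ ∑ t ∈ S, |gg M u t₀ t * ∑ i ∈ range H, gg M v n₀ (nn (κ + M * (i : ℤ)) t)| :=
        Finset.abs_sum_le_sum_abs _ _
    _ ≤ ∑ t ∈ S, |∑ i ∈ range H, gg M v n₀ (nn (κ + M * (i : ℤ)) t)| := by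
        refine Finset.sum_le_sum (fun t _ => ?_)
        rw [abs_mul]
        exact mul_le_of_le_one_left (abs_nonneg _) (gg_le M u t₀ t)
    _ ≤ ∑ t ∈ Icc (-(N : ℤ)) N, |∑ i ∈ range H, gg M v n₀ (nn (κ + M * (i : ℤ)) t)| :=
        Finset.sum_le_sum_of_subset_of_nonneg hsub (fun t _ _ => abs_nonneg _)
    _ = ∑ t ∈ Icc (-(N : ℤ)) N, |∑ i ∈ range H, gg M v n₀
        (t - (((4 * M ^ 3 : ℕ) : ℤ) * (i : ℤ) ^ 3 + 12 * (M : ℤ) ^ 2 * κ * i ^ 2 +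
        12 * (M : ℤ) * κ ^ 2 * i + 4 * κ ^ 3))| := by
        refine Finset.sum_congr rfl (fun t _ => ?_)
        congr 1
        exact Finset.sum_congr rfl (fun i _ => by rw [hnn])
    _ ≤ ε / 16 * N * H := hmain
    _ ≤ ε / 16 * (16 * Y ^ 3) * H := by
        refine mul_le_mul_of_nonneg_right ?_ (Nat.cast_nonneg H)
        exact mul_le_mul_of_nonneg_left hN2 (by positivity)
    _ = ε * H * Y ^ 3 := by ring
-- END block

end Rn3
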