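import Pool.Agent.Rn3.Defs
import Pool.Agent.Rnt.Loc

/-!
# Rn3 LOC: the root number is a periodic function times two Moebius functions
-/

set_option autoImplicit false

namespace Rn3

open Finset Filter Topology Rnt

-- BEGIN wp_t
/-- L1. `p ∣ t`: `A = -27k⁴` (`p ∤ A`), `6B = (18k³)²` mod `p`. -/
theorem wp_t (k t : ℤ) (p : ℕ) (hp : p.Prime) (h5 : 5 ≤ p) (h : (p : ℤ) ∣ t) (hk : ¬ (p : ℤ) ∣ k) :
    wp (AA k t) (B3 k t) p = -1 := by
  have hpZ : Prime (p : ℤ) := Nat.prime_iff_prime_int.mp hp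
  have hdisc : (p : ℤ) ∣ disc (AA k t) (B3 k t) := by
    rw [disc_eq]
    exact Dvd.dvd.mul_right (Dvd.dvd.mul_left (dvd_pow h (by norm_num)) _) _
  have h2 : ¬ (p : ℤ) ∣ 2 := by
    intro h'
    have := Int.le_of_dvd (by norm_num) h'
    omega
  have h3 : ¬ (p : ℤ) ∣ 3 := by
    intro h'
    have := Int.le_of_dvd (by norm_num) h'
    omega
  have hA : ¬ (p : ℤ) ∣ AA k t := by
    intro h'
    have h4 : (p : ℤ) ∣ 3 * (3 * (3 * k ^ 4)) := by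
      have e : 3 * (3 * (3 * k ^ 4)) = 6 * k * t - AA k t := by unfold AA; ring
      rw [e]
      exact dvd_sub (Dvd.dvd.mul_left h _) h'
    rcases hpZ.dvd_or_dvd h4 with h' | h'
    · exact h3 h'
    rcases hpZ.dvd_or_dvd h' with h' | h'
    · exact h3 h'
    rcases hpZ.dvd_or_dvd h' with h' | h'
    · exact h3 h'
    exact hk (hpZ.dvd_of_dvd_pow h')
  have hu : ¬ (p : ℤ) ∣ 18 * k ^ 3 := by
    intro h'
    have e : (18 : ℤ) * k ^ 3 = 2 * (3 * (3 * k ^ 3)) := by ring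
    rw [e] at h'
    rcases hpZ.dvd_or_dvd h' with h' | h'
    · exact h2 h'
    rcases hpZ.dvd_or_dvd h' with h' | h'
    · exact h3 h'
    rcases hpZ.dvd_or_dvd h' with h' | h'
    · exact h3 h'
    exact hk (hpZ.dvd_of_dvd_pow h')
  have gu : (18 * k ^ 3).gcd p = 1 := by
    rw [Int.gcd_comm]
    exact Int.isCoprime_iff_gcd_eq_one.mp ((Prime.coprime_iff_not_dvd hpZ).mpr hu)
  have key : jacobiSym (6 * B3 k t) p = 1 := by
    rw [← jacobiSym.sq_one' gu]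
    apply jacobiSym.mod_left'
    rw [Int.emod_eq_emod_iff_emod_sub_eq_zero]
    apply Int.emod_eq_zero_of_dvd
    have e : 6 * B3 k t - (18 * k ^ 3) ^ 2 = (6 * t - 108 * k ^ 3) * t := by
      unfold B3; ring
    rw [e]
    exact Dvd.dvd.mul_left h _
  unfold wp
  rw [if_neg (not_not.mpr hdisc), if_pos hA, key]
-- END wp_t

-- BEGIN wp_n
/-- L2. `p ∣ n`: `t = 4k³`, `A = -3k⁴` (`p ∤ A`), `B = -2k⁶`, `6B = -3(2k³)²` mod `p`. -/
theorem wp_n (k t : ℤ) (p : ℕ) (hp : p.Prime) (h5 : 5 ≤ p) (h : (p : ℤ) ∣ nn k t) (hk : ¬ (p : ℤ) ∣ k) :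
    wp (AA k t) (B3 k t) p = - jacobiSym (-3) p := by
  have hpZ : Prime (p : ℤ) := Nat.prime_iff_prime_int.mp hp
  have hdisc : (p : ℤ) ∣ disc (AA k t) (B3 k t) := by
    rw [disc_eq]
    exact Dvd.dvd.mul_left h _
  have h2 : ¬ (p : ℤ) ∣ 2 := by
    intro h'
    have := Int.le_of_dvd (by norm_num) h'
    omega
  have h3 : ¬ (p : ℤ) ∣ 3 := by
    intro h'
    have := Int.le_of_dvd (by norm_num) h'
    omega
  have hA : ¬ (p : ℤ) ∣ AA k t := by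
    intro h'
    have h4 : (p : ℤ) ∣ 3 * k ^ 4 := by
      have e : 3 * k ^ 4 = 6 * k * nn k t - AA k t := by unfold AA nn; ring
      rw [e]
      exact dvd_sub (Dvd.dvd.mul_left h _) h'
    rcases hpZ.dvd_or_dvd h4 with h' | h'
    · exact h3 h'
    exact hk (hpZ.dvd_of_dvd_pow h')
  have hu : ¬ (p : ℤ) ∣ 2 * k ^ 3 := by
    intro h'
    rcases hpZ.dvd_or_dvd h' with h' | h'
    · exact h2 h'
    exact hk (hpZ.dvd_of_dvd_pow h')
  have gu : (2 * k ^ 3).gcd p = 1 := by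
    rw [Int.gcd_comm]
    exact Int.isCoprime_iff_gcd_eq_one.mp ((Prime.coprime_iff_not_dvd hpZ).mpr hu)
  have key : jacobiSym (6 * B3 k t) p = jacobiSym (-3) p := by
    have e2 : jacobiSym ((2 * k ^ 3) ^ 2 * (-3)) p = jacobiSym (-3) p := by
      rw [jacobiSym.mul_left, jacobiSym.sq_one' gu, one_mul]
    rw [← e2]
    apply jacobiSym.mod_left'
    rw [Int.emod_eq_emod_iff_emod_sub_eq_zero]
    apply Int.emod_eq_zero_of_dvd
    have e : 6 * B3 k t - (2 * k ^ 3) ^ 2 * (-3) = (6 * (t - 14 * k ^ 3)) * nn k t := by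
      unfold B3 nn; ring
    rw [e]
    exact Dvd.dvd.mul_left h _
  unfold wp
  rw [if_neg (not_not.mpr hdisc), if_pos hA, key]
-- END wp_n

-- BEGIN prod_big
private theorem prod_big_aux (a : ℤ) (n : ℕ) : Squarefree n →
    ∏ p ∈ n.primeFactors, (-jacobiSym a p) = ArithmeticFunction.moebius n * jacobiSym a n := by
  induction n using induction_on_primes with
  | zero => intro h; exact absurd h not_squarefree_zero
  | one => intro _; simp
  | prime_mul p m hp ih =>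
    intro h
    have hco : Nat.Coprime p m := Nat.coprime_of_squarefree_mul h
    have hm : Squarefree m := h.of_mul_right
    have hm0 : m ≠ 0 := hm.ne_zero
    rw [hco.primeFactors_mul, prod_union hco.disjoint_primeFactors, ih hm, hp.primeFactors,
      prod_singleton, ArithmeticFunction.isMultiplicative_moebius.map_mul_of_coprime hco,
      ArithmeticFunction.moebius_apply_prime hp, jacobiSym.mul_right' a hp.ne_zero hm0]
    ring

/-- L3. Copy of `Rnt.prod_big` (helper11), with `wp_t`, `wp_n`. A prime `p > T` dividing `disc = 27t³n` divides exactly one of `t`, `n` and not `k` (`p ∣ t`, `p ∣ k` excluded by `¬ Exc3`; `p ∣ n`, `p ∣ k`: `p ∣ t`;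
`p ∣ t`, `p ∣ n`: `p ∣ 4k³`). The product over the primes of `t' = (t / sm T t).natAbs` (squarefree, `sm_sqf`, `sm_prime`) of `-1` is `μ(t')`, the product over the primes of `n'` of `-(-3/p)` is `μ(n') (-3/n')`. -/
theorem prod_big (T j : ℕ) (hT : 5 ≤ T) (k t : ℤ) (h : ¬ Exc3 T j k t) :
    ∏ p ∈ (disc (AA k t) (B3 k t)).natAbs.primeFactors with T < p, wp (AA k t) (B3 k t) p =
      ArithmeticFunction.moebius (t / sm T t).natAbs * ArithmeticFunction.moebius (nn k t / sm T (nn k t)).natAbs *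
      jacobiSym (-3) (nn k t / sm T (nn k t)).natAbs := by
  unfold Exc3 at h
  push Not at h
  obtain ⟨hb0, hc0, hbig, hsmall⟩ := h
  have hbT : ∀ p : ℕ, p.Prime → T < p → ¬ (p : ℤ) ^ 2 ∣ t := fun p hp hTp => (hbig p hp hTp).2.1
  have hcT : ∀ p : ℕ, p.Prime → T < p → ¬ (p : ℤ) ^ 2 ∣ nn k t := fun p hp hTp => (hbig p hp hTp).2.2
  have hbA : ∀ p : ℕ, p.Prime → T < p → (p : ℤ) ∣ t → ¬ (p : ℤ) ∣ k := fun p hp hTp hd hk =>
    (hbig p hp hTp).1 hk hd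
  have hcA : ∀ p : ℕ, p.Prime → T < p → (p : ℤ) ∣ nn k t → ¬ (p : ℤ) ∣ k := by
    intro p hp hTp hd hk
    refine hbA p hp hTp ?_ hk
    have h1 : t = nn k t + 4 * k ^ 3 := by unfold nn; ring
    rw [h1]
    exact dvd_add hd ((hk.trans (dvd_pow_self k (by norm_num))).mul_left 4)
  have hbc : ∀ p : ℕ, p.Prime → T < p → (p : ℤ) ∣ t → ¬ (p : ℤ) ∣ nn k t := by
    intro p hp hTp hd hc
    refine hbA p hp hTp hd ?_
    have hpp : Prime (p : ℤ) := Nat.prime_iff_prime_int.1 hp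
    have h1 : (p : ℤ) ∣ 4 * k ^ 3 := by
      have h2 : 4 * k ^ 3 = t - nn k t := by unfold nn; ring
      rw [h2]
      exact dvd_sub hd hc
    rcases hpp.dvd_or_dvd h1 with h3 | h2
    · exfalso
      have h4 := Int.le_of_dvd (by norm_num) h3
      omega
    · exact hpp.dvd_of_dvd_pow h2
  set b' : ℕ := (t / sm T t).natAbs with hb'
  set c' : ℕ := (nn k t / sm T (nn k t)).natAbs with hc'
  have hsb : Squarefree b' := sm_sqf T _ hb0 hbT
  have hsc : Squarefree c' := sm_sqf T _ hc0 hcT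
  have hpb : ∀ p : ℕ, p.Prime → (p ∣ b' ↔ T < p ∧ (p : ℤ) ∣ t) := by
    intro p hp
    constructor
    · intro hd
      have hTp : T < p := by
        by_contra hle
        exact (sm_basic T t hb0).2.2 p hp (by omega) (Int.natCast_dvd.2 hd)
      exact ⟨hTp, (sm_prime T t hb0 p hp hTp).2 hd⟩
    · rintro ⟨hTp, hd⟩
      exact (sm_prime T t hb0 p hp hTp).1 hd
  have hpc : ∀ p : ℕ, p.Prime → (p ∣ c' ↔ T < p ∧ (p : ℤ) ∣ nn k t) := by
    intro p hp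
    constructor
    · intro hd
      have hTp : T < p := by
        by_contra hle
        exact (sm_basic T (nn k t) hc0).2.2 p hp (by omega) (Int.natCast_dvd.2 hd)
      exact ⟨hTp, (sm_prime T (nn k t) hc0 p hp hTp).2 hd⟩
    · rintro ⟨hTp, hd⟩
      exact (sm_prime T (nn k t) hc0 p hp hTp).1 hd
  have hd0 : disc (AA k t) (B3 k t) ≠ 0 := by
    rw [disc_eq]
    exact mul_ne_zero (mul_ne_zero (by norm_num) (pow_ne_zero 3 hb0)) hc0
  have hset : (disc (AA k t) (B3 k t)).natAbs.primeFactors.filter (fun p => T < p) =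
      b'.primeFactors ∪ c'.primeFactors := by
    ext p
    simp only [mem_filter, mem_union, Nat.mem_primeFactors]
    constructor
    · rintro ⟨⟨hp, hd, _⟩, hTp⟩
      have hpp : Prime (p : ℤ) := Nat.prime_iff_prime_int.1 hp
      rw [← Int.natCast_dvd, disc_eq] at hd
      rcases hpp.dvd_or_dvd hd with h1 | h1
      · rcases hpp.dvd_or_dvd h1 with h2 | h2
        · exfalso
          have h27 : (p : ℤ) ∣ 3 ^ 3 := by norm_num; exact h2
          have h3 := Int.le_of_dvd (by norm_num) (hpp.dvd_of_dvd_pow h27)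
          omega
        · exact Or.inl ⟨hp, (hpb p hp).2 ⟨hTp, hpp.dvd_of_dvd_pow h2⟩, hsb.ne_zero⟩
      · exact Or.inr ⟨hp, (hpc p hp).2 ⟨hTp, h1⟩, hsc.ne_zero⟩
    · rintro (⟨hp, hd, _⟩ | ⟨hp, hd, _⟩)
      · obtain ⟨hTp, h1⟩ := (hpb p hp).1 hd
        refine ⟨⟨hp, ?_, Int.natAbs_ne_zero.2 hd0⟩, hTp⟩
        rw [← Int.natCast_dvd, disc_eq]
        exact ((h1.trans (dvd_pow_self _ three_ne_zero)).mul_left 27).mul_right _
      · obtain ⟨hTp, h1⟩ := (hpc p hp).1 hd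
        refine ⟨⟨hp, ?_, Int.natAbs_ne_zero.2 hd0⟩, hTp⟩
        rw [← Int.natCast_dvd, disc_eq]
        exact h1.mul_left _
  have hdis : Disjoint b'.primeFactors c'.primeFactors := by
    rw [disjoint_left]
    intro p h1 h2
    rw [Nat.mem_primeFactors] at h1 h2
    obtain ⟨hTp, h3⟩ := (hpb p h1.1).1 h1.2.1
    exact hbc p h1.1 hTp h3 ((hpc p h1.1).1 h2.2.1).2
  have e1 : ∏ p ∈ b'.primeFactors, wp (AA k t) (B3 k t) p = ∏ p ∈ b'.primeFactors, (-jacobiSym 1 p) := by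
    refine prod_congr rfl (fun p hp => ?_)
    rw [Nat.mem_primeFactors] at hp
    obtain ⟨hTp, h3⟩ := (hpb p hp.1).1 hp.2.1
    rw [jacobiSym.one_left]
    exact wp_t k t p hp.1 (by omega) h3 (hbA p hp.1 hTp h3)
  have e2 : ∏ p ∈ c'.primeFactors, wp (AA k t) (B3 k t) p = ∏ p ∈ c'.primeFactors, (-jacobiSym (-3) p) := by
    refine prod_congr rfl (fun p hp => ?_)
    rw [Nat.mem_primeFactors] at hp
    obtain ⟨hTp, h3⟩ := (hpc p hp.1).1 hp.2.1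
    exact wp_n k t p hp.1 (by omega) h3 (hcA p hp.1 hTp h3)
  rw [hset, prod_union hdis, e1, e2, prod_big_aux _ _ hsb, prod_big_aux _ _ hsc, jacobiSym.one_left]
  ring
-- END prod_big

-- BEGIN jac3
private theorem jac3_big (T : ℕ) (n : ℤ) (hn : n ≠ 0) (q : ℕ) (hq : q.Prime)
    (h : q ∣ (n / sm T n).natAbs) : T < q := by
  obtain ⟨h0, h1, h2⟩ := sm_basic T n hn
  have h' : (q : ℤ) ∣ n / sm T n := Int.natCast_dvd.mpr h
  by_contra hc
  exact h2 q hq (not_lt.mp hc) h'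

private theorem jac3_odd (T : ℕ) (hT : 5 ≤ T) (n : ℤ) (hn : n ≠ 0) : Odd (n / sm T n).natAbs := by
  rw [← Nat.not_even_iff_odd, even_iff_two_dvd]
  intro h
  have := jac3_big T n hn 2 Nat.prime_two h
  omega

private theorem jac3_pow_dvd (T k p : ℕ) (hp : p.Prime) (hpT : p ≤ T) : p ^ k ∣ PP T k := by
  unfold PP
  exact Finset.dvd_prod_of_mem (fun p => p ^ k) (mem_filter.mpr ⟨mem_range.mpr (by omega), hp⟩)

private theorem jac3_12 (T : ℕ) (hT : 5 ≤ T) : 12 ∣ PP T 2 := by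
  have h1 : 2 ^ 2 ∣ PP T 2 := jac3_pow_dvd T 2 2 Nat.prime_two (by omega)
  have h2 : 3 ^ 2 ∣ PP T 2 := jac3_pow_dvd T 2 3 Nat.prime_three (by omega)
  have h3 : 2 ^ 2 * 3 ^ 2 ∣ PP T 2 := Nat.Coprime.mul_dvd_of_dvd_of_dvd (by norm_num) h1 h2
  exact Dvd.dvd.trans (by norm_num) h3

/-- L4. `rough_congr` for `nn k t`, `nn k' t'` with `i = 2`: `n'` mod `PP T 2`, and `12 ∣ PP T 2` as `T ≥ 5`; both rough parts are odd (`sm_basic`); `jac_mod` with `a = -3`. -/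
theorem jac3 (T j : ℕ) (hT : 5 ≤ T) (k t k' t' : ℤ) (h : ¬ Exc3 T j k t) (h' : ¬ Exc3 T j k' t')
    (h1 : ((PP T (j + 2) : ℕ) : ℤ) ∣ k - k') (h2 : ((PP T (j + 2) : ℕ) : ℤ) ∣ t - t') (s : (nn k t).sign = (nn k' t').sign) :
    jacobiSym (-3) (nn k t / sm T (nn k t)).natAbs = jacobiSym (-3) (nn k' t' / sm T (nn k' t')).natAbs := by
  unfold Exc3 at h h'
  push Not at h h'
  obtain ⟨-, hn0, -, hsm⟩ := h
  obtain ⟨-, hn0', -, -⟩ := h'
  have hn : ((PP T (j + 2) : ℕ) : ℤ) ∣ nn k t - nn k' t' := by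
    have e : nn k t - nn k' t' = (t - t') - (4 * (k ^ 2 + k * k' + k' ^ 2)) * (k - k') := by
      unfold nn; ring
    rw [e]
    exact dvd_sub h2 (Dvd.dvd.mul_left h1 _)
  have cn : (nn k t / sm T (nn k t)).natAbs ≡ (nn k' t' / sm T (nn k' t')).natAbs [MOD PP T 2] :=
    rough_congr T j 2 _ _ hn0 hn0' s hn (fun p hp hpT => (hsm p hp hpT).2)
  apply jac_mod _ _ _ (jac3_odd T hT _ hn0) (jac3_odd T hT _ hn0')
  exact Nat.ModEq.of_dvd (jac3_12 T hT) cn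
-- END jac3

-- BEGIN disc_pow
/-- L5. `v_p(27 t³ n) ≤ 3 + 3(j-1) + (j-1) = 4j - 1`. -/
theorem disc_pow (T j : ℕ) (hj : 1 ≤ j) (k t : ℤ) (h : ¬ Exc3 T j k t) (p : ℕ) (hp : p.Prime) (hpT : p ≤ T) :
    ¬ (p : ℤ) ^ (4 * j) ∣ disc (AA k t) (B3 k t) := by
  have : Fact p.Prime := ⟨hp⟩
  unfold Exc3 at h
  push Not at h
  obtain ⟨ht, hn, _, h5⟩ := h
  obtain ⟨h6, h7⟩ := h5 p hp hpT
  have h27 : ¬ (p : ℤ) ^ 4 ∣ 27 := by
    intro hd
    have hd' : p ^ 4 ∣ 27 := by exact_mod_cast hd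
    have hle := Nat.le_of_dvd (by norm_num) hd'
    have hp2 := hp.two_le
    have hp3 : p < 3 := by
      by_contra hc
      have h81 : 3 ^ 4 ≤ p ^ 4 := Nat.pow_le_pow_left (by omega) 4
      omega
    have hp' : p = 2 := by omega
    subst hp'
    revert hd'
    decide
  rw [disc_eq]
  intro hd
  rw [padicValInt_dvd_iff] at h6 h7 hd h27
  push Not at h6 h7 h27
  have ht3 : t ^ 3 ≠ 0 := pow_ne_zero 3 ht
  have h0 : (27 : ℤ) * t ^ 3 ≠ 0 := mul_ne_zero (by norm_num) ht3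
  rcases hd with hd | hd
  · exact mul_ne_zero h0 hn hd
  · have e : t ^ 3 = t * t * t := by ring
    rw [padicValInt.mul h0 hn, padicValInt.mul (by norm_num) ht3, e, padicValInt.mul (mul_ne_zero ht ht) ht,
      padicValInt.mul ht ht] at hd
    have h8 := h6.2
    have h9 := h7.2
    have h10 := h27.2
    omega
-- END disc_pow

-- BEGIN min_iff
private theorem min_iff_k (k t : ℤ) (p : ℕ) (hp : p.Prime) (hA : (p : ℤ) ^ 4 ∣ AA k t) (hB : (p : ℤ) ^ 6 ∣ B3 k t) :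
    (p : ℤ) ∣ k := by
  have hpp : Prime (p : ℤ) := Nat.prime_iff_prime_int.1 hp
  unfold AA at hA
  unfold B3 at hB
  by_cases h2 : p = 2
  · subst h2
    have hB' : (2 : ℤ) ^ 6 ∣ t ^ 2 - 18 * k ^ 3 * t + 54 * k ^ 6 := by exact_mod_cast hB
    have h1 : (2 : ℤ) ∣ t ^ 2 := by
      have e : t ^ 2 = (t ^ 2 - 18 * k ^ 3 * t + 54 * k ^ 6) + 2 * (9 * k ^ 3 * t - 27 * k ^ 6) := by ring
      rw [e]
      exact dvd_add ((by norm_num : (2 : ℤ) ∣ 2 ^ 6).trans hB') (dvd_mul_right _ _)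
    obtain ⟨s, hs⟩ := Int.prime_two.dvd_of_dvd_pow h1
    have h3 : (4 : ℤ) ∣ 54 * k ^ 6 := by
      have e : 54 * k ^ 6 = (t ^ 2 - 18 * k ^ 3 * t + 54 * k ^ 6) + 4 * (9 * k ^ 3 * s - s ^ 2) := by
        rw [hs]
        ring
      rw [e]
      exact dvd_add ((by norm_num : (4 : ℤ) ∣ 2 ^ 6).trans hB') (dvd_mul_right _ _)
    have h4 : (2 : ℤ) ∣ k ^ 6 := by omega
    exact_mod_cast Int.prime_two.dvd_of_dvd_pow h4
  by_cases h3 : p = 3
  · subst h3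
    have hB' : (3 : ℤ) ^ 6 ∣ t ^ 2 - 18 * k ^ 3 * t + 54 * k ^ 6 := by exact_mod_cast hB
    have h1 : (3 : ℤ) ∣ t ^ 2 := by
      have e : t ^ 2 = (t ^ 2 - 18 * k ^ 3 * t + 54 * k ^ 6) + 3 * (6 * k ^ 3 * t - 18 * k ^ 6) := by ring
      rw [e]
      exact dvd_add ((by norm_num : (3 : ℤ) ∣ 3 ^ 6).trans hB') (dvd_mul_right _ _)
    obtain ⟨s, hs⟩ := Int.prime_three.dvd_of_dvd_pow h1
    have h4 : (27 : ℤ) ∣ 9 * s ^ 2 := by
      have e : 9 * s ^ 2 = (t ^ 2 - 18 * k ^ 3 * t + 54 * k ^ 6) + 27 * (2 * k ^ 3 * s - 2 * k ^ 6) := by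
        rw [hs]
        ring
      rw [e]
      exact dvd_add ((by norm_num : (27 : ℤ) ∣ 3 ^ 6).trans hB') (dvd_mul_right _ _)
    have h5 : (3 : ℤ) ∣ s ^ 2 := by omega
    obtain ⟨w, hw⟩ := Int.prime_three.dvd_of_dvd_pow h5
    have h6 : (81 : ℤ) ∣ 54 * k ^ 6 := by
      have e : 54 * k ^ 6 = (t ^ 2 - 18 * k ^ 3 * t + 54 * k ^ 6) + 81 * (2 * k ^ 3 * w - w ^ 2) := by
        rw [hs, hw]
        ring
      rw [e]
      exact dvd_add ((by norm_num : (81 : ℤ) ∣ 3 ^ 6).trans hB') (dvd_mul_right _ _)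
    have h7 : (3 : ℤ) ∣ k ^ 6 := by omega
    exact_mod_cast Int.prime_three.dvd_of_dvd_pow h7
  have h2' : ¬ (p : ℤ) ∣ 2 := fun h => h2 ((Nat.prime_dvd_prime_iff_eq hp Nat.prime_two).1 (by exact_mod_cast h))
  have h3' : ¬ (p : ℤ) ∣ 3 := fun h => h3 ((Nat.prime_dvd_prime_iff_eq hp Nat.prime_three).1 (by exact_mod_cast h))
  by_contra hk
  have hA1 : (p : ℤ) ∣ 3 * (k * (2 * t - 9 * k ^ 3)) := by
    have e : 3 * (k * (2 * t - 9 * k ^ 3)) = 6 * k * t - 27 * k ^ 4 := by ring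
    rw [e]
    exact (dvd_pow_self _ (by norm_num)).trans hA
  have hA2 : (p : ℤ) ∣ 2 * t - 9 * k ^ 3 :=
    (hpp.dvd_or_dvd ((hpp.dvd_or_dvd hA1).resolve_left h3')).resolve_left hk
  have hB1 : (p : ℤ) ∣ 3 ^ 3 * k ^ 6 := by
    have e : 3 ^ 3 * k ^ 6 = (2 * t - 9 * k ^ 3) * ((2 * t - 9 * k ^ 3) - 18 * k ^ 3) -
        4 * (t ^ 2 - 18 * k ^ 3 * t + 54 * k ^ 6) := by ring
    rw [e]
    exact dvd_sub (hA2.mul_right _) (((dvd_pow_self _ (by norm_num)).trans hB).mul_left 4)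
  rcases hpp.dvd_or_dvd hB1 with h | h
  · exact h3' (hpp.dvd_of_dvd_pow h)
  · exact hk (hpp.dvd_of_dvd_pow h)

/-- L6. `←` of the negations: `p ∣ k`, `p³ ∣ t` give `p⁴ ∣ A`, `p⁶ ∣ B`. `→`: let `p⁴ ∣ A`, `p⁶ ∣ B`. If `p ∤ k`: `p ≥ 5`: `p ∣ 2t - 9k³`, `4B = (2t)² - 36k³(2t) + 216k⁶ = -27k⁶` mod `p`; `p = 3`: `3 ∣ t`, and
`B = t² + 54k⁶` mod `54` has `v_3(B) = 2` or `3` (`v(t) = 1`: `v(B) = 2`; `v(t) ≥ 2`: `v(B) = 3`); `p = 2`: `2 ∣ t`, `B = 2` mod `4`. So `p ∣ k`, `p⁶ ∣ t (t - 18k³)`; if `v(t) ≤ 2 < 3 ≤ v(18k³)` then `v(t (t - 18k³)) = 2v(t) ≤ 4`. -/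
theorem min_iff (k t : ℤ) : Minimal (AA k t) (B3 k t) ↔ ∀ p : ℕ, p.Prime → ¬ ((p : ℤ) ∣ k ∧ (p : ℤ) ^ 3 ∣ t) := by
  unfold Rnt.Minimal
  refine forall_congr' fun p => forall_congr' fun hp => not_congr ⟨?_, ?_⟩
  · rintro ⟨hA, hB⟩
    have hpp : Prime (p : ℤ) := Nat.prime_iff_prime_int.1 hp
    have hp0 : (p : ℤ) ≠ 0 := hpp.ne_zero
    have hk := min_iff_k k t p hp hA hB
    refine ⟨hk, ?_⟩
    obtain ⟨m, hm⟩ := hk
    unfold B3 at hB
    have h1 : (p : ℤ) ^ 3 ∣ t ^ 2 := by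
      have e : t ^ 2 = (t ^ 2 - 18 * k ^ 3 * t + 54 * k ^ 6) + (p : ℤ) ^ 3 * (18 * m ^ 3 * t - 54 * m ^ 6 * (p : ℤ) ^ 3) := by
        rw [hm]
        ring
      rw [e]
      exact dvd_add ((pow_dvd_pow _ (by norm_num)).trans hB) (dvd_mul_right _ _)
    obtain ⟨a, ha⟩ := hpp.dvd_of_dvd_pow ((dvd_pow_self _ (by norm_num)).trans h1)
    have h2 : (p : ℤ) ∣ a ^ 2 := by
      have e : t ^ 2 = (p : ℤ) ^ 2 * a ^ 2 := by rw [ha]; ring
      rw [e, pow_succ (p : ℤ) 2] at h1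
      exact (mul_dvd_mul_iff_left (pow_ne_zero 2 hp0)).1 h1
    obtain ⟨s, hs⟩ := hpp.dvd_of_dvd_pow h2
    have h3 : (p : ℤ) ∣ s ^ 2 := by
      have e : t ^ 2 - 18 * k ^ 3 * t + 54 * k ^ 6 = (p : ℤ) ^ 4 * (s ^ 2 - (p : ℤ) * (18 * m ^ 3 * s - 54 * m ^ 6 * (p : ℤ))) := by
        rw [hm, ha, hs]
        ring
      have e2 : (p : ℤ) ^ 6 = (p : ℤ) ^ 4 * (p : ℤ) ^ 2 := by ring
      rw [e, e2] at hB
      have h4 := (mul_dvd_mul_iff_left (pow_ne_zero 4 hp0)).1 hB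
      have e3 : s ^ 2 = (s ^ 2 - (p : ℤ) * (18 * m ^ 3 * s - 54 * m ^ 6 * (p : ℤ))) +
          (p : ℤ) * (18 * m ^ 3 * s - 54 * m ^ 6 * (p : ℤ)) := by ring
      rw [e3]
      exact dvd_add ((dvd_pow_self _ (by norm_num)).trans h4) (dvd_mul_right _ _)
    obtain ⟨w, hw⟩ := hpp.dvd_of_dvd_pow h3
    exact ⟨w, by rw [ha, hs, hw]; ring⟩
  · rintro ⟨⟨m, hm⟩, ⟨s, hs⟩⟩
    refine ⟨⟨6 * m * s - 27 * m ^ 4, ?_⟩, ⟨s ^ 2 - 18 * m ^ 3 * s + 54 * m ^ 6, ?_⟩⟩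
    · unfold AA
      rw [hm, hs]
      ring
    · unfold B3
      rw [hm, hs]
      ring
-- END min_iff

-- BEGIN min_congr
private theorem min_congr_dvd (T : ℕ) (p : ℕ) (hp : p.Prime) (hpT : p ≤ T) :
    (p : ℤ) ^ 3 ∣ ((PP T 3 : ℕ) : ℤ) := by
  have h : p ^ 3 ∣ PP T 3 := by
    unfold PP
    exact Finset.dvd_prod_of_mem (fun q => q ^ 3)
      (Finset.mem_filter.2 ⟨Finset.mem_range.2 (by omega), hp⟩)
  exact_mod_cast Int.natCast_dvd_natCast.2 h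

private theorem min_congr_aux (T j : ℕ) (k t k' t' : ℤ) (h' : ¬ Exc3 T j k' t')
    (h1 : ((PP T 3 : ℕ) : ℤ) ∣ k - k') (h2 : ((PP T 3 : ℕ) : ℤ) ∣ t - t')
    (hm : ∀ p : ℕ, p.Prime → ¬ ((p : ℤ) ∣ k ∧ (p : ℤ) ^ 3 ∣ t)) :
    ∀ p : ℕ, p.Prime → ¬ ((p : ℤ) ∣ k' ∧ (p : ℤ) ^ 3 ∣ t') := by
  rintro p hp ⟨hk, ht⟩
  rcases le_or_gt p T with hpT | hpT
  · have hd := min_congr_dvd T p hp hpT
    refine hm p hp ⟨?_, ?_⟩
    · exact (dvd_iff_dvd_of_dvd_sub (((dvd_pow_self (p : ℤ) (by norm_num)).trans hd).trans h1)).2 hk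
    · exact (dvd_iff_dvd_of_dvd_sub (hd.trans h2)).2 ht
  · refine h' (Or.inr (Or.inr (Or.inl ⟨p, hp, hpT, Or.inl ⟨hk, ?_⟩⟩)))
    exact (dvd_pow_self (p : ℤ) (by norm_num)).trans ht

/-- L7. `min_iff`; primes `> T` do not matter for non exceptional pairs. Copy of `Rnt.min_congr`. -/
theorem min_congr (T j : ℕ) (k t k' t' : ℤ) (h : ¬ Exc3 T j k t) (h' : ¬ Exc3 T j k' t')
    (h1 : ((PP T 3 : ℕ) : ℤ) ∣ k - k') (h2 : ((PP T 3 : ℕ) : ℤ) ∣ t - t') :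
    Minimal (AA k t) (B3 k t) ↔ Minimal (AA k' t') (B3 k' t') := by
  rw [min_iff, min_iff]
  refine ⟨min_congr_aux T j k t k' t' h' h1 h2, min_congr_aux T j k' t' k t h ?_ ?_⟩
  · rwa [dvd_sub_comm]
  · rwa [dvd_sub_comm]
-- END min_congr

-- BEGIN ident
private theorem ident_rn (w2 : ℤ_[2] × ℤ_[2] → ℤ) (w3 : ℤ_[3] × ℤ_[3] → ℤ) (T j : ℕ) (hT : 5 ≤ T) (k t : ℤ)
    (h : ¬ Exc3 T j k t) : rootNumber w2 w3 (AA k t) (B3 k t) =
      -(w2 ((AA k t : ℤ_[2]), (B3 k t : ℤ_[2])) * w3 ((AA k t : ℤ_[3]), (B3 k t : ℤ_[3])) *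
        ((∏ p ∈ (range (T + 1)).filter (fun p => p.Prime ∧ 5 ≤ p), wp (AA k t) (B3 k t) p) *
        (ArithmeticFunction.moebius (t / sm T t).natAbs *
      ArithmeticFunction.moebius (nn k t / sm T (nn k t)).natAbs *
      jacobiSym (-3) (nn k t / sm T (nn k t)).natAbs))) := by
  have hD : disc (AA k t) (B3 k t) ≠ 0 := by
    unfold Exc3 at h
    push Not at h
    obtain ⟨ht, hn, _, _⟩ := h
    rw [disc_eq]
    exact mul_ne_zero (mul_ne_zero (by norm_num) (pow_ne_zero 3 ht)) hn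
  unfold rootNumber
  rw [← prod_big T j hT k t h,
    ← Finset.prod_filter_mul_prod_filter_not ((disc (AA k t) (B3 k t)).natAbs.primeFactors.filter fun p => 5 ≤ p)
      (fun p => p ≤ T)]
  have e1 : ((disc (AA k t) (B3 k t)).natAbs.primeFactors.filter fun p => 5 ≤ p).filter (fun p => ¬ p ≤ T) =
      (disc (AA k t) (B3 k t)).natAbs.primeFactors.filter fun p => T < p := by
    ext p
    simp only [Finset.mem_filter, not_le]
    constructor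
    · rintro ⟨⟨h1, h2⟩, h3⟩
      exact ⟨h1, h3⟩
    · rintro ⟨h1, h3⟩
      exact ⟨⟨h1, by omega⟩, h3⟩
  have e2 : ∏ p ∈ ((disc (AA k t) (B3 k t)).natAbs.primeFactors.filter fun p => 5 ≤ p).filter (fun p => p ≤ T),
      wp (AA k t) (B3 k t) p =
      ∏ p ∈ (range (T + 1)).filter (fun p => p.Prime ∧ 5 ≤ p), wp (AA k t) (B3 k t) p := by
    refine Finset.prod_subset ?_ ?_
    · intro p hp
      obtain ⟨hp1, hp2⟩ := Finset.mem_filter.1 hp
      obtain ⟨hp3, hp4⟩ := Finset.mem_filter.1 hp1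
      exact Finset.mem_filter.2 ⟨Finset.mem_range.2 (by omega), Nat.prime_of_mem_primeFactors hp3, hp4⟩
    · intro p hp hp'
      obtain ⟨hp1, hp2, hp3⟩ := Finset.mem_filter.1 hp
      have hnd : ¬ (p : ℤ) ∣ disc (AA k t) (B3 k t) := by
        intro hd
        refine hp' (Finset.mem_filter.2 ⟨Finset.mem_filter.2 ⟨?_, hp3⟩, by have := Finset.mem_range.1 hp1; omega⟩)
        exact Nat.mem_primeFactors.2 ⟨hp2, Int.natCast_dvd.1 hd, Int.natAbs_ne_zero.2 hD⟩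
      unfold wp
      rw [if_pos hnd]
  rw [e1, e2]

/-- L8. MAIN IDENTITY, copy of `Rnt.ident`. `M = PP T (4 * j + 4 + K)` with `K` from `lc_unif` for `w2`, `w3` and exponent `4j`. `rootNumber` is `-(w2 w3 ∏_{5 ≤ p ≤ T})` (for `p ∤ disc` one has `wp = 1`, so the product may be
taken over all primes `5 ≤ p ≤ T`) times the product of `prod_big`; `disc_pow`, `wp_congr` with exponent `4j`; `jac3`; `min_congr`; `mob² = 1` (`sm_sqf`). `M ∣ AA - AA'`, `M ∣ B3 - B3'`: `sub_dvd`/`ring_nf`, or `Int.ModEq`. -/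
theorem ident (w2 : ℤ_[2] × ℤ_[2] → ℤ) (w3 : ℤ_[3] × ℤ_[3] → ℤ) (h2 : LocalSign 2 w2) (h3 : LocalSign 3 w3)
    (T j : ℕ) (hT : 5 ≤ T) (hj : 1 ≤ j) : ∃ M : ℕ, 0 < M ∧ PP T (4 * j + 4) ∣ M ∧ ∀ k t k' t' : ℤ, ¬ Exc3 T j k t → ¬ Exc3 T j k' t' →
      (M : ℤ) ∣ k - k' → (M : ℤ) ∣ t - t' → (nn k t).sign = (nn k' t').sign →
      (Minimal (AA k t) (B3 k t) ↔ Minimal (AA k' t') (B3 k' t')) ∧
        (rootNumber w2 w3 (AA k t) (B3 k t) : ℝ) * mob (t / sm T t) * mob (nn k t / sm T (nn k t)) =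
          rootNumber w2 w3 (AA k' t') (B3 k' t') * mob (t' / sm T t') * mob (nn k' t' / sm T (nn k' t')) ∧
        mob (t / sm T t) ^ 2 = 1 ∧ mob (nn k t / sm T (nn k t)) ^ 2 = 1 := by
  obtain ⟨K2, hK2⟩ := lc_unif 2 w2 h2 (4 * j)
  obtain ⟨K3, hK3⟩ := lc_unif 3 w3 h3 (4 * j)
  have hPP : ∀ m n, m ≤ n → PP T m ∣ PP T n := fun m n hmn =>
    Finset.prod_dvd_prod_of_dvd _ _ fun p _ => pow_dvd_pow p hmn
  have hpM : ∀ p : ℕ, p.Prime → p ≤ T → ∀ n, p ^ n ∣ PP T n := fun p hp hpT n =>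
    Finset.dvd_prod_of_mem (fun p => p ^ n) (Finset.mem_filter.2 ⟨Finset.mem_range.2 (by omega), hp⟩)
  refine ⟨PP T (4 * j + 4 + (K2 + K3)), ?_, hPP _ _ (by omega), ?_⟩
  · exact Finset.prod_pos fun p hp => pow_pos (Finset.mem_filter.1 hp).2.pos _
  intro k t k' t' h h' hk ht s
  obtain ⟨M, hM⟩ : ∃ M, M = PP T (4 * j + 4 + (K2 + K3)) := ⟨_, rfl⟩
  rw [← hM] at hk ht
  have hdM : ∀ n, n ≤ 4 * j + 4 + (K2 + K3) → ((PP T n : ℕ) : ℤ) ∣ (M : ℤ) := fun n hn => by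
    rw [hM]
    exact Int.natCast_dvd_natCast.2 (hPP _ _ hn)
  have hpd : ∀ p : ℕ, p.Prime → p ≤ T → ∀ n, n ≤ 4 * j + 4 + (K2 + K3) → (p : ℤ) ^ n ∣ (M : ℤ) := fun p hp hpT n hn => by
    refine dvd_trans ?_ (hdM n hn)
    exact_mod_cast hpM p hp hpT n
  have hA : (M : ℤ) ∣ AA k t - AA k' t' := by
    have e : AA k t - AA k' t' = (k - k') * (6 * t - 27 * (k + k') * (k ^ 2 + k' ^ 2)) + (t - t') * (6 * k') := by
      unfold AA
      ring
    rw [e]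
    exact dvd_add (hk.mul_right _) (ht.mul_right _)
  have hB : (M : ℤ) ∣ B3 k t - B3 k' t' := by
    have e : B3 k t - B3 k' t' = (t - t') * (t + t' - 18 * k ^ 3) +
        (k - k') * ((k ^ 2 + k * k' + k' ^ 2) * (54 * (k ^ 3 + k' ^ 3) - 18 * t')) := by
      unfold B3
      ring
    rw [e]
    exact dvd_add (ht.mul_right _) (hk.mul_right _)
  have hmin := min_congr T j k t k' t' h h' ((hdM 3 (by omega)).trans hk) ((hdM 3 (by omega)).trans ht)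
  have hJ := jac3 T j hT k t k' t' h h' ((hdM _ (by omega)).trans hk) ((hdM _ (by omega)).trans ht) s
  have e2 : w2 ((AA k t : ℤ_[2]), (B3 k t : ℤ_[2])) = w2 ((AA k' t' : ℤ_[2]), (B3 k' t' : ℤ_[2])) :=
    hK2 (AA k t) (B3 k t) (AA k' t') (B3 k' t') ((hpd 2 Nat.prime_two (by omega) K2 (by omega)).trans hA)
      ((hpd 2 Nat.prime_two (by omega) K2 (by omega)).trans hB) (disc_pow T j hj k t h 2 Nat.prime_two (by omega))
  have e3 : w3 ((AA k t : ℤ_[3]), (B3 k t : ℤ_[3])) = w3 ((AA k' t' : ℤ_[3]), (B3 k' t' : ℤ_[3])) :=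
    hK3 (AA k t) (B3 k t) (AA k' t') (B3 k' t') ((hpd 3 Nat.prime_three (by omega) K3 (by omega)).trans hA)
      ((hpd 3 Nat.prime_three (by omega) K3 (by omega)).trans hB) (disc_pow T j hj k t h 3 Nat.prime_three (by omega))
  have e4 : ∏ p ∈ (range (T + 1)).filter (fun p => p.Prime ∧ 5 ≤ p), wp (AA k t) (B3 k t) p =
      ∏ p ∈ (range (T + 1)).filter (fun p => p.Prime ∧ 5 ≤ p), wp (AA k' t') (B3 k' t') p := by
    refine Finset.prod_congr rfl fun p hp => ?_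
    obtain ⟨hp1, hp2, hp3⟩ := Finset.mem_filter.1 hp
    have hpT : p ≤ T := by
      have := Finset.mem_range.1 hp1
      omega
    exact wp_congr (AA k t) (B3 k t) (AA k' t') (B3 k' t') p (4 * j) hp2 hp3 ((hpd p hp2 hpT _ (by omega)).trans hA)
      ((hpd p hp2 hpT _ (by omega)).trans hB) (disc_pow T j hj k t h p hp2 hpT)
  have hsq : ∀ k t : ℤ, ¬ Exc3 T j k t → mob (t / sm T t) ^ 2 = 1 ∧ mob (nn k t / sm T (nn k t)) ^ 2 = 1 := by
    intro k t h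
    unfold Exc3 at h
    push Not at h
    obtain ⟨ht, hn, h4, _⟩ := h
    have key : ∀ n : ℤ, n ≠ 0 → (∀ p : ℕ, p.Prime → T < p → ¬ (p : ℤ) ^ 2 ∣ n) → mob (n / sm T n) ^ 2 = 1 := by
      intro n hn hn'
      have h5 := ArithmeticFunction.moebius_sq_eq_one_of_squarefree (sm_sqf T n hn hn')
      unfold mob
      exact_mod_cast h5
    exact ⟨key _ ht fun p hp hpT => (h4 p hp hpT).2.1, key _ hn fun p hp hpT => (h4 p hp hpT).2.2⟩
  refine ⟨hmin, ?_, hsq k t h⟩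
  rw [ident_rn w2 w3 T j hT k t h, ident_rn w2 w3 T j hT k' t' h', e2, e3, e4, hJ]
  obtain ⟨q1, q2⟩ := hsq k t h
  obtain ⟨q3, q4⟩ := hsq k' t' h'
  push_cast
  have m1 : (((ArithmeticFunction.moebius (t / sm T t).natAbs : ℤ)) : ℝ) = mob (t / sm T t) := rfl
  have m2 : (((ArithmeticFunction.moebius (nn k t / sm T (nn k t)).natAbs : ℤ)) : ℝ) = mob (nn k t / sm T (nn k t)) := rfl
  have m3 : (((ArithmeticFunction.moebius (t' / sm T t').natAbs : ℤ)) : ℝ) = mob (t' / sm T t') := rfl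
  have m4 : (((ArithmeticFunction.moebius (nn k' t' / sm T (nn k' t')).natAbs : ℤ)) : ℝ) = mob (nn k' t' / sm T (nn k' t')) := rfl
  rw [m1, m2, m3, m4]
  generalize mob (t / sm T t) = x1 at *
  generalize mob (nn k t / sm T (nn k t)) = x2 at *
  generalize mob (t' / sm T t') = x3 at *
  generalize mob (nn k' t' / sm T (nn k' t')) = x4 at *
  have f1 : ∀ W P J : ℝ, -(W * (P * (x1 * x2 * J))) * x1 * x2 = -(W * P * J) := by
    intro W P J
    calc -(W * (P * (x1 * x2 * J))) * x1 * x2 = -(W * P * J) * (x1 ^ 2 * x2 ^ 2) := by ring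
      _ = -(W * P * J) := by rw [q1, q2]; ring
  have f2 : ∀ W P J : ℝ, -(W * (P * (x3 * x4 * J))) * x3 * x4 = -(W * P * J) := by
    intro W P J
    calc -(W * (P * (x3 * x4 * J))) * x3 * x4 = -(W * P * J) * (x3 ^ 2 * x4 ^ 2) := by ring
      _ = -(W * P * J) := by rw [q3, q4]; ring
  rw [f1, f2]
-- END ident

end Rn3
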