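import Pool.Agent.Rn3.Reg
import Pool.Agent.Rn3.Loc

/-!
# Rn3 CNT: counting, and the parametrisation of the family
-/

set_option autoImplicit false

namespace Rn3

open Finset Filter Topology Rnt

open scoped Classical

-- BEGIN exc_a
/-- C1. Copy of `Rnt.exc_a`. Union over `n ∈ (T, Y]` (`k ≠ 0`, so `p ≤ |k| ≤ Y`): `mult_card` for `k`, `ap_card` for `t`: `(2Y/n)(30Y³/n + 1) ≤ (2Y/n)(31Y³/n)`; `inv_sq`. -/
theorem exc_a (Y : ℝ) (hY : 1 ≤ Y) (T : ℕ) (hT : 1 ≤ T) :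
    (((Box3 Y).filter (fun x => x.1 ≠ 0 ∧ ∃ p : ℕ, p.Prime ∧ T < p ∧ (p : ℤ) ∣ x.1 ∧ (p : ℤ) ∣ x.2)).card : ℝ) ≤ 62 * Y ^ 4 / T := by
  have hY0 : 0 < Y := by linarith
  have hsub : (Box3 Y).filter (fun x => x.1 ≠ 0 ∧ ∃ p : ℕ, p.Prime ∧ T < p ∧ (p : ℤ) ∣ x.1 ∧ (p : ℤ) ∣ x.2) ⊆
      (Ioc T ⌊Y⌋₊).biUnion (fun n : ℕ => ((Icc (-⌊Y⌋) ⌊Y⌋).filter (fun a => a ≠ 0 ∧ (n : ℤ) ∣ a)) ×ˢ
        ((Icc (-⌊15 * Y ^ 3⌋) ⌊15 * Y ^ 3⌋).filter (fun a => (n : ℤ) ∣ a - 0))) := by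
    intro x hx
    rw [mem_filter] at hx
    obtain ⟨hB, h0, p, hp, hTp, h1, h2⟩ := hx
    unfold Box3 at hB
    rw [mem_product] at hB
    rw [mem_biUnion]
    refine ⟨p, ?_, ?_⟩
    · rw [mem_Ioc]
      refine ⟨hTp, ?_⟩
      have e1 : (p : ℤ) ≤ |x.1| := Int.le_of_dvd (abs_pos.mpr h0) ((dvd_abs _ _).mpr h1)
      have e2 : |x.1| ≤ ⌊Y⌋ := abs_le.mpr (mem_Icc.mp hB.1)
      have e3 : ((p : ℤ) : ℝ) ≤ ((⌊Y⌋ : ℤ) : ℝ) := by exact_mod_cast le_trans e1 e2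
      apply Nat.le_floor
      have e4 := Int.floor_le Y
      push_cast at e3
      linarith
    · rw [mem_product]
      refine ⟨mem_filter.mpr ⟨hB.1, h0, h1⟩, mem_filter.mpr ⟨hB.2, ?_⟩⟩
      rw [sub_zero]
      exact h2
  have hcard := Finset.card_le_card hsub
  have hcard2 := le_trans hcard Finset.card_biUnion_le
  have hcard3 : (((Box3 Y).filter (fun x => x.1 ≠ 0 ∧ ∃ p : ℕ, p.Prime ∧ T < p ∧ (p : ℤ) ∣ x.1 ∧ (p : ℤ) ∣ x.2)).card : ℝ) ≤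
      ∑ n ∈ Ioc T ⌊Y⌋₊, ((((Icc (-⌊Y⌋) ⌊Y⌋).filter (fun a => a ≠ 0 ∧ (n : ℤ) ∣ a)) ×ˢ
        ((Icc (-⌊15 * Y ^ 3⌋) ⌊15 * Y ^ 3⌋).filter (fun a => (n : ℤ) ∣ a - 0))).card : ℝ) := by
    exact_mod_cast hcard2
  refine le_trans hcard3 ?_
  have hterm : ∀ n ∈ Ioc T ⌊Y⌋₊, ((((Icc (-⌊Y⌋) ⌊Y⌋).filter (fun a => a ≠ 0 ∧ (n : ℤ) ∣ a)) ×ˢ
        ((Icc (-⌊15 * Y ^ 3⌋) ⌊15 * Y ^ 3⌋).filter (fun a => (n : ℤ) ∣ a - 0))).card : ℝ) ≤ 62 * Y ^ 4 * (1 / (n : ℝ) ^ 2) := by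
    intro n hn
    rw [mem_Ioc] at hn
    have hn0 : 0 < n := by omega
    have hnR : (0 : ℝ) < n := by exact_mod_cast hn0
    have hnY : (n : ℝ) ≤ Y := le_trans (by exact_mod_cast hn.2) (Nat.floor_le hY0.le)
    rw [Finset.card_product]
    push_cast
    have a1 := ap_card (15 * Y ^ 3) (by positivity) n hn0 0
    have a2 := mult_card Y hY0.le n hn0
    have hY3 : Y ≤ Y ^ 3 := by nlinarith [mul_nonneg hY0.le (sub_nonneg.2 hY), sq_nonneg (Y - 1)]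
    have a3 : 2 * (15 * Y ^ 3) / n + 1 ≤ 31 * Y ^ 3 / n := by
      rw [← sub_nonneg]
      have e : 31 * Y ^ 3 / n - (2 * (15 * Y ^ 3) / n + 1) = (Y ^ 3 - n) / n := by
        field_simp
        ring
      rw [e]
      apply div_nonneg _ hnR.le
      linarith
    have a4 : (0 : ℝ) ≤ 2 * Y / n := by positivity
    calc _ ≤ (2 * Y / n) * (31 * Y ^ 3 / n) := by
          apply mul_le_mul a2 (le_trans a1 a3) (by positivity) (by positivity)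
      _ = 62 * Y ^ 4 * (1 / (n : ℝ) ^ 2) := by
          field_simp
          ring
  refine le_trans (Finset.sum_le_sum hterm) ?_
  rw [← Finset.mul_sum]
  have h1 := inv_sq T ⌊Y⌋₊ hT
  calc 62 * Y ^ 4 * ∑ n ∈ Ioc T ⌊Y⌋₊, 1 / (n : ℝ) ^ 2 ≤ 62 * Y ^ 4 * (1 / (T : ℝ)) :=
        mul_le_mul_of_nonneg_left h1 (by positivity)
    _ = 62 * Y ^ 4 / T := by ring
-- END exc_a

-- BEGIN exc_t
private theorem exc_t_width (Y : ℝ) (hY : 1 ≤ Y) : ((Icc (-⌊Y⌋) ⌊Y⌋).card : ℝ) ≤ 3 * Y := by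
  have hf : (0 : ℤ) ≤ ⌊Y⌋ := Int.floor_nonneg.2 (by linarith)
  rw [Int.card_Icc]
  have e : ((⌊Y⌋ + 1 - -⌊Y⌋).toNat : ℝ) = 2 * (⌊Y⌋ : ℝ) + 1 := by
    have h1 : (((⌊Y⌋ + 1 - -⌊Y⌋).toNat : ℤ) : ℝ) = ((⌊Y⌋ + 1 - -⌊Y⌋ : ℤ) : ℝ) := by
      rw [Int.toNat_of_nonneg (by omega)]
    have h2 : (((⌊Y⌋ + 1 - -⌊Y⌋).toNat : ℤ) : ℝ) = ((⌊Y⌋ + 1 - -⌊Y⌋).toNat : ℝ) := Int.cast_natCast _
    rw [← h2, h1]
    push_cast
    ring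
  rw [e]
  have := Int.floor_le Y
  linarith

private theorem exc_t_aux (Y a : ℝ) (hY : 1 ≤ Y) (ha : 0 ≤ a) (haY : a ≤ (5 * Y ^ 2) ^ 2) (T : ℕ) (hT : 1 ≤ T) :
    ((((Icc (-⌊Y⌋) ⌊Y⌋) ×ˢ (Icc (-⌊a⌋) ⌊a⌋)).filter
      (fun x : ℤ × ℤ => x.2 ≠ 0 ∧ ∃ p : ℕ, p.Prime ∧ T < p ∧ (p : ℤ) ^ 2 ∣ x.2)).card : ℝ) ≤ 3 * Y * (2 * a) / T := by
  have hY0 : 0 < Y := by linarith
  have hsub : ((Icc (-⌊Y⌋) ⌊Y⌋) ×ˢ (Icc (-⌊a⌋) ⌊a⌋)).filter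
      (fun x : ℤ × ℤ => x.2 ≠ 0 ∧ ∃ p : ℕ, p.Prime ∧ T < p ∧ (p : ℤ) ^ 2 ∣ x.2) ⊆
      (Ioc T ⌊5 * Y ^ 2⌋₊).biUnion (fun n : ℕ => (Icc (-⌊Y⌋) ⌊Y⌋) ×ˢ
        ((Icc (-⌊a⌋) ⌊a⌋).filter (fun b => b ≠ 0 ∧ ((n ^ 2 : ℕ) : ℤ) ∣ b))) := by
    intro x hx
    rw [mem_filter] at hx
    obtain ⟨hB, h0, p, hp, hTp, h1⟩ := hx
    rw [mem_product] at hB
    rw [mem_biUnion]
    refine ⟨p, ?_, ?_⟩
    · rw [mem_Ioc]
      refine ⟨hTp, ?_⟩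
      have e1 : (p : ℤ) ^ 2 ≤ |x.2| := Int.le_of_dvd (abs_pos.mpr h0) ((dvd_abs _ _).mpr h1)
      have e2 : |x.2| ≤ ⌊a⌋ := abs_le.mpr (mem_Icc.mp hB.2)
      have e3 : (((p : ℤ) ^ 2 : ℤ) : ℝ) ≤ ((⌊a⌋ : ℤ) : ℝ) := by exact_mod_cast le_trans e1 e2
      apply Nat.le_floor
      have e4 := Int.floor_le a
      push_cast at e3
      have e5 : (p : ℝ) ^ 2 ≤ (5 * Y ^ 2) ^ 2 := by linarith
      exact le_of_sq_le_sq e5 (by positivity)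
    · rw [mem_product]
      refine ⟨hB.1, mem_filter.mpr ⟨hB.2, h0, ?_⟩⟩
      push_cast
      exact h1
  have hcard2 := le_trans (Finset.card_le_card hsub) Finset.card_biUnion_le
  have hcard3 : ((((Icc (-⌊Y⌋) ⌊Y⌋) ×ˢ (Icc (-⌊a⌋) ⌊a⌋)).filter
      (fun x : ℤ × ℤ => x.2 ≠ 0 ∧ ∃ p : ℕ, p.Prime ∧ T < p ∧ (p : ℤ) ^ 2 ∣ x.2)).card : ℝ) ≤
      ∑ n ∈ Ioc T ⌊5 * Y ^ 2⌋₊, (((Icc (-⌊Y⌋) ⌊Y⌋) ×ˢ
        ((Icc (-⌊a⌋) ⌊a⌋).filter (fun b => b ≠ 0 ∧ ((n ^ 2 : ℕ) : ℤ) ∣ b))).card : ℝ) := by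
    exact_mod_cast hcard2
  refine le_trans hcard3 ?_
  have hterm : ∀ n ∈ Ioc T ⌊5 * Y ^ 2⌋₊, (((Icc (-⌊Y⌋) ⌊Y⌋) ×ˢ
        ((Icc (-⌊a⌋) ⌊a⌋).filter (fun b => b ≠ 0 ∧ ((n ^ 2 : ℕ) : ℤ) ∣ b))).card : ℝ) ≤
      3 * Y * (2 * a) * (1 / (n : ℝ) ^ 2) := by
    intro n hn
    rw [mem_Ioc] at hn
    have hn0 : 0 < n := by omega
    rw [Finset.card_product]
    push_cast
    have a1 := mult_card a ha (n ^ 2) (by positivity)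
    have a2 := exc_t_width Y hY
    push_cast at a1
    calc _ ≤ (3 * Y) * (2 * a / (n : ℝ) ^ 2) := by
          apply mul_le_mul a2 a1 (by positivity) (by positivity)
      _ = 3 * Y * (2 * a) * (1 / (n : ℝ) ^ 2) := by ring
  refine le_trans (Finset.sum_le_sum hterm) ?_
  rw [← Finset.mul_sum]
  have h1 := inv_sq T ⌊5 * Y ^ 2⌋₊ hT
  calc 3 * Y * (2 * a) * ∑ n ∈ Ioc T ⌊5 * Y ^ 2⌋₊, 1 / (n : ℝ) ^ 2 ≤ 3 * Y * (2 * a) * (1 / (T : ℝ)) :=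
        mul_le_mul_of_nonneg_left h1 (by positivity)
    _ = 3 * Y * (2 * a) / T := by ring

/-- C2. At most `3Y` values of `k`; for each `n ∈ (T, 4Y²]` (`t ≠ 0`, `p² ≤ |t| ≤ 15Y³ ≤ 16Y⁴`) at most `30Y³/n²` nonzero multiples of `n²` (`mult_card`); `inv_sq`. -/
theorem exc_t (Y : ℝ) (hY : 1 ≤ Y) (T : ℕ) (hT : 1 ≤ T) :
    (((Box3 Y).filter (fun x => x.2 ≠ 0 ∧ ∃ p : ℕ, p.Prime ∧ T < p ∧ (p : ℤ) ^ 2 ∣ x.2)).card : ℝ) ≤ 90 * Y ^ 4 / T := by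
  have hY34 : Y ^ 3 ≤ Y ^ 4 := pow_le_pow_right₀ hY (by norm_num)
  have hY3 : (0 : ℝ) ≤ Y ^ 3 := by positivity
  have h := exc_t_aux Y (15 * Y ^ 3) hY (by positivity) (by nlinarith) T hT
  have e : 3 * Y * (2 * (15 * Y ^ 3)) / (T : ℝ) = 90 * Y ^ 4 / T := by ring
  rw [e] at h
  exact h
-- END exc_t

-- BEGIN exc_n
private theorem exc_n_width (Y : ℝ) (hY : 1 ≤ Y) : ((Icc (-⌊Y⌋) ⌊Y⌋).card : ℝ) ≤ 3 * Y := by
  have hf : (0 : ℤ) ≤ ⌊Y⌋ := Int.floor_nonneg.2 (by linarith)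
  rw [Int.card_Icc]
  have e : ((⌊Y⌋ + 1 - -⌊Y⌋).toNat : ℝ) = 2 * (⌊Y⌋ : ℝ) + 1 := by
    have h1 : (((⌊Y⌋ + 1 - -⌊Y⌋).toNat : ℤ) : ℝ) = ((⌊Y⌋ + 1 - -⌊Y⌋ : ℤ) : ℝ) := by
      rw [Int.toNat_of_nonneg (by omega)]
    have h2 : (((⌊Y⌋ + 1 - -⌊Y⌋).toNat : ℤ) : ℝ) = ((⌊Y⌋ + 1 - -⌊Y⌋).toNat : ℝ) := Int.cast_natCast _
    rw [← h2, h1]
    push_cast
    ring
  rw [e]
  have := Int.floor_le Y
  linarith

private theorem exc_n_aux (Y a : ℝ) (hY : 1 ≤ Y) (ha : 0 ≤ a) (haY : a ≤ (5 * Y ^ 2) ^ 2) (T : ℕ) (hT : 1 ≤ T) :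
    ((((Icc (-⌊Y⌋) ⌊Y⌋) ×ˢ (Icc (-⌊a⌋) ⌊a⌋)).filter
      (fun x : ℤ × ℤ => x.2 ≠ 0 ∧ ∃ p : ℕ, p.Prime ∧ T < p ∧ (p : ℤ) ^ 2 ∣ x.2)).card : ℝ) ≤ 3 * Y * (2 * a) / T := by
  have hY0 : 0 < Y := by linarith
  have hsub : ((Icc (-⌊Y⌋) ⌊Y⌋) ×ˢ (Icc (-⌊a⌋) ⌊a⌋)).filter
      (fun x : ℤ × ℤ => x.2 ≠ 0 ∧ ∃ p : ℕ, p.Prime ∧ T < p ∧ (p : ℤ) ^ 2 ∣ x.2) ⊆
      (Ioc T ⌊5 * Y ^ 2⌋₊).biUnion (fun n : ℕ => (Icc (-⌊Y⌋) ⌊Y⌋) ×ˢ
        ((Icc (-⌊a⌋) ⌊a⌋).filter (fun b => b ≠ 0 ∧ ((n ^ 2 : ℕ) : ℤ) ∣ b))) := by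
    intro x hx
    rw [mem_filter] at hx
    obtain ⟨hB, h0, p, hp, hTp, h1⟩ := hx
    rw [mem_product] at hB
    rw [mem_biUnion]
    refine ⟨p, ?_, ?_⟩
    · rw [mem_Ioc]
      refine ⟨hTp, ?_⟩
      have e1 : (p : ℤ) ^ 2 ≤ |x.2| := Int.le_of_dvd (abs_pos.mpr h0) ((dvd_abs _ _).mpr h1)
      have e2 : |x.2| ≤ ⌊a⌋ := abs_le.mpr (mem_Icc.mp hB.2)
      have e3 : (((p : ℤ) ^ 2 : ℤ) : ℝ) ≤ ((⌊a⌋ : ℤ) : ℝ) := by exact_mod_cast le_trans e1 e2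
      apply Nat.le_floor
      have e4 := Int.floor_le a
      push_cast at e3
      have e5 : (p : ℝ) ^ 2 ≤ (5 * Y ^ 2) ^ 2 := by linarith
      exact le_of_sq_le_sq e5 (by positivity)
    · rw [mem_product]
      refine ⟨hB.1, mem_filter.mpr ⟨hB.2, h0, ?_⟩⟩
      push_cast
      exact h1
  have hcard2 := le_trans (Finset.card_le_card hsub) Finset.card_biUnion_le
  have hcard3 : ((((Icc (-⌊Y⌋) ⌊Y⌋) ×ˢ (Icc (-⌊a⌋) ⌊a⌋)).filter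
      (fun x : ℤ × ℤ => x.2 ≠ 0 ∧ ∃ p : ℕ, p.Prime ∧ T < p ∧ (p : ℤ) ^ 2 ∣ x.2)).card : ℝ) ≤
      ∑ n ∈ Ioc T ⌊5 * Y ^ 2⌋₊, (((Icc (-⌊Y⌋) ⌊Y⌋) ×ˢ
        ((Icc (-⌊a⌋) ⌊a⌋).filter (fun b => b ≠ 0 ∧ ((n ^ 2 : ℕ) : ℤ) ∣ b))).card : ℝ) := by
    exact_mod_cast hcard2
  refine le_trans hcard3 ?_
  have hterm : ∀ n ∈ Ioc T ⌊5 * Y ^ 2⌋₊, (((Icc (-⌊Y⌋) ⌊Y⌋) ×ˢ
        ((Icc (-⌊a⌋) ⌊a⌋).filter (fun b => b ≠ 0 ∧ ((n ^ 2 : ℕ) : ℤ) ∣ b))).card : ℝ) ≤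
      3 * Y * (2 * a) * (1 / (n : ℝ) ^ 2) := by
    intro n hn
    rw [mem_Ioc] at hn
    have hn0 : 0 < n := by omega
    rw [Finset.card_product]
    push_cast
    have a1 := mult_card a ha (n ^ 2) (by positivity)
    have a2 := exc_n_width Y hY
    push_cast at a1
    calc _ ≤ (3 * Y) * (2 * a / (n : ℝ) ^ 2) := by
          apply mul_le_mul a2 a1 (by positivity) (by positivity)
      _ = 3 * Y * (2 * a) * (1 / (n : ℝ) ^ 2) := by ring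
  refine le_trans (Finset.sum_le_sum hterm) ?_
  rw [← Finset.mul_sum]
  have h1 := inv_sq T ⌊5 * Y ^ 2⌋₊ hT
  calc 3 * Y * (2 * a) * ∑ n ∈ Ioc T ⌊5 * Y ^ 2⌋₊, 1 / (n : ℝ) ^ 2 ≤ 3 * Y * (2 * a) * (1 / (T : ℝ)) :=
        mul_le_mul_of_nonneg_left h1 (by positivity)
    _ = 3 * Y * (2 * a) / T := by ring

private theorem exc_n_map (Y : ℝ) (hY : 1 ≤ Y) (P : ℤ → Prop) :
    ((Box3 Y).filter (fun x => P (nn x.1 x.2))).card ≤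
      (((Icc (-⌊Y⌋) ⌊Y⌋) ×ˢ (Icc (-⌊19 * Y ^ 3⌋) ⌊19 * Y ^ 3⌋)).filter (fun x : ℤ × ℤ => P x.2)).card := by
  apply Finset.card_le_card_of_injOn (fun x => (x.1, nn x.1 x.2))
  · intro x hx
    have hx1 := Finset.mem_filter.1 (Finset.mem_coe.1 hx)
    obtain ⟨hB, hP⟩ := hx1
    unfold Box3 at hB
    rw [mem_product] at hB
    have hk := abs_le.mpr (mem_Icc.mp hB.1)
    have ht := abs_le.mpr (mem_Icc.mp hB.2)
    have hkR : |(x.1 : ℝ)| ≤ Y := by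
      have h1 : ((|x.1| : ℤ) : ℝ) ≤ ((⌊Y⌋ : ℤ) : ℝ) := by exact_mod_cast hk
      rw [Int.cast_abs] at h1
      exact h1.trans (Int.floor_le Y)
    have htR : |(x.2 : ℝ)| ≤ 15 * Y ^ 3 := by
      have h1 : ((|x.2| : ℤ) : ℝ) ≤ ((⌊15 * Y ^ 3⌋ : ℤ) : ℝ) := by exact_mod_cast ht
      rw [Int.cast_abs] at h1
      exact h1.trans (Int.floor_le _)
    have hnR : |((nn x.1 x.2 : ℤ) : ℝ)| ≤ 19 * Y ^ 3 := by
      unfold nn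
      push_cast
      have h3 : |(4 : ℝ) * (x.1 : ℝ) ^ 3| ≤ 4 * Y ^ 3 := by
        rw [abs_mul, abs_pow, abs_of_pos (by norm_num : (0 : ℝ) < 4)]
        exact mul_le_mul_of_nonneg_left (pow_le_pow_left₀ (abs_nonneg _) hkR 3) (by norm_num)
      have h4 := abs_sub (x.2 : ℝ) (4 * (x.1 : ℝ) ^ 3)
      linarith
    apply Finset.mem_coe.2
    rw [Finset.mem_filter, Finset.mem_product]
    refine ⟨⟨hB.1, ?_⟩, hP⟩
    rw [abs_le] at hnR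
    rw [mem_Icc]
    refine ⟨?_, Int.le_floor.2 hnR.2⟩
    have h5 : -(nn x.1 x.2) ≤ ⌊19 * Y ^ 3⌋ := Int.le_floor.2 (by push_cast; linarith [hnR.1])
    show -⌊19 * Y ^ 3⌋ ≤ nn x.1 x.2
    omega
  · intro x _ y _ hxy
    simp only [Prod.mk.injEq] at hxy
    obtain ⟨h1, h2⟩ := hxy
    unfold nn at h2
    rw [h1] at h2
    apply Prod.ext h1
    linarith

/-- C3. The same for `nn` in place of `t`: for fixed `k` the map `t ↦ nn k t` is injective, `|nn| ≤ 19 Y³`: at most `38Y³/n²` values of `t`. -/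
theorem exc_n (Y : ℝ) (hY : 1 ≤ Y) (T : ℕ) (hT : 1 ≤ T) :
    (((Box3 Y).filter (fun x => nn x.1 x.2 ≠ 0 ∧ ∃ p : ℕ, p.Prime ∧ T < p ∧ (p : ℤ) ^ 2 ∣ nn x.1 x.2)).card : ℝ) ≤ 114 * Y ^ 4 / T := by
  have hY34 : Y ^ 3 ≤ Y ^ 4 := pow_le_pow_right₀ hY (by norm_num)
  have hY3 : (0 : ℝ) ≤ Y ^ 3 := by positivity
  have h := exc_n_aux Y (19 * Y ^ 3) hY (by positivity) (by nlinarith) T hT
  have e : 3 * Y * (2 * (19 * Y ^ 3)) / (T : ℝ) = 114 * Y ^ 4 / T := by ring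
  rw [e] at h
  have h2 := exc_n_map Y hY (fun z => z ≠ 0 ∧ ∃ p : ℕ, p.Prime ∧ T < p ∧ (p : ℤ) ^ 2 ∣ z)
  have h3 : (((Box3 Y).filter (fun x => nn x.1 x.2 ≠ 0 ∧ ∃ p : ℕ, p.Prime ∧ T < p ∧ (p : ℤ) ^ 2 ∣ nn x.1 x.2)).card : ℝ) ≤
      ((((Icc (-⌊Y⌋) ⌊Y⌋) ×ˢ (Icc (-⌊19 * Y ^ 3⌋) ⌊19 * Y ^ 3⌋)).filter
      (fun x : ℤ × ℤ => x.2 ≠ 0 ∧ ∃ p : ℕ, p.Prime ∧ T < p ∧ (p : ℤ) ^ 2 ∣ x.2)).card : ℝ) := by
    exact_mod_cast h2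
  exact h3.trans h
-- END exc_n

-- BEGIN exc_p
private theorem exc_p_width (Y : ℝ) (hY : 1 ≤ Y) : ((Icc (-⌊Y⌋) ⌊Y⌋).card : ℝ) ≤ 3 * Y := by
  have hf : (0 : ℤ) ≤ ⌊Y⌋ := Int.floor_nonneg.2 (by linarith)
  rw [Int.card_Icc]
  have e : ((⌊Y⌋ + 1 - -⌊Y⌋).toNat : ℝ) = 2 * (⌊Y⌋ : ℝ) + 1 := by
    have h1 : (((⌊Y⌋ + 1 - -⌊Y⌋).toNat : ℤ) : ℝ) = ((⌊Y⌋ + 1 - -⌊Y⌋ : ℤ) : ℝ) := by
      rw [Int.toNat_of_nonneg (by omega)]
    have h2 : (((⌊Y⌋ + 1 - -⌊Y⌋).toNat : ℤ) : ℝ) = ((⌊Y⌋ + 1 - -⌊Y⌋).toNat : ℝ) := Int.cast_natCast _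
    rw [← h2, h1]
    push_cast
    ring
  rw [e]
  have := Int.floor_le Y
  linarith

private theorem exc_p_map (Y : ℝ) (hY : 1 ≤ Y) (P : ℤ → Prop) :
    ((Box3 Y).filter (fun x => P (nn x.1 x.2))).card ≤
      (((Icc (-⌊Y⌋) ⌊Y⌋) ×ˢ (Icc (-⌊19 * Y ^ 3⌋) ⌊19 * Y ^ 3⌋)).filter (fun x : ℤ × ℤ => P x.2)).card := by
  apply Finset.card_le_card_of_injOn (fun x => (x.1, nn x.1 x.2))
  · intro x hx
    have hx1 := Finset.mem_filter.1 (Finset.mem_coe.1 hx)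
    obtain ⟨hB, hP⟩ := hx1
    unfold Box3 at hB
    rw [mem_product] at hB
    have hk := abs_le.mpr (mem_Icc.mp hB.1)
    have ht := abs_le.mpr (mem_Icc.mp hB.2)
    have hkR : |(x.1 : ℝ)| ≤ Y := by
      have h1 : ((|x.1| : ℤ) : ℝ) ≤ ((⌊Y⌋ : ℤ) : ℝ) := by exact_mod_cast hk
      rw [Int.cast_abs] at h1
      exact h1.trans (Int.floor_le Y)
    have htR : |(x.2 : ℝ)| ≤ 15 * Y ^ 3 := by
      have h1 : ((|x.2| : ℤ) : ℝ) ≤ ((⌊15 * Y ^ 3⌋ : ℤ) : ℝ) := by exact_mod_cast ht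
      rw [Int.cast_abs] at h1
      exact h1.trans (Int.floor_le _)
    have hnR : |((nn x.1 x.2 : ℤ) : ℝ)| ≤ 19 * Y ^ 3 := by
      unfold nn
      push_cast
      have h3 : |(4 : ℝ) * (x.1 : ℝ) ^ 3| ≤ 4 * Y ^ 3 := by
        rw [abs_mul, abs_pow, abs_of_pos (by norm_num : (0 : ℝ) < 4)]
        exact mul_le_mul_of_nonneg_left (pow_le_pow_left₀ (abs_nonneg _) hkR 3) (by norm_num)
      have h4 := abs_sub (x.2 : ℝ) (4 * (x.1 : ℝ) ^ 3)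
      linarith
    apply Finset.mem_coe.2
    rw [Finset.mem_filter, Finset.mem_product]
    refine ⟨⟨hB.1, ?_⟩, hP⟩
    rw [abs_le] at hnR
    rw [mem_Icc]
    refine ⟨?_, Int.le_floor.2 hnR.2⟩
    have h5 : -(nn x.1 x.2) ≤ ⌊19 * Y ^ 3⌋ := Int.le_floor.2 (by push_cast; linarith [hnR.1])
    show -⌊19 * Y ^ 3⌋ ≤ nn x.1 x.2
    omega
  · intro x _ y _ hxy
    simp only [Prod.mk.injEq] at hxy
    obtain ⟨h1, h2⟩ := hxy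
    unfold nn at h2
    rw [h1] at h2
    apply Prod.ext h1
    linarith

private theorem exc_p_aux (Y a : ℝ) (hY : 1 ≤ Y) (ha : 0 ≤ a) (p j : ℕ) (hp : p.Prime) :
    ((((Icc (-⌊Y⌋) ⌊Y⌋) ×ˢ (Icc (-⌊a⌋) ⌊a⌋)).filter
      (fun x : ℤ × ℤ => x.2 ≠ 0 ∧ (p : ℤ) ^ j ∣ x.2)).card : ℝ) ≤ 3 * Y * (2 * a) / 2 ^ j := by
  have hsub : ((Icc (-⌊Y⌋) ⌊Y⌋) ×ˢ (Icc (-⌊a⌋) ⌊a⌋)).filter
      (fun x : ℤ × ℤ => x.2 ≠ 0 ∧ (p : ℤ) ^ j ∣ x.2) ⊆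
      (Icc (-⌊Y⌋) ⌊Y⌋) ×ˢ ((Icc (-⌊a⌋) ⌊a⌋).filter (fun b => b ≠ 0 ∧ ((p ^ j : ℕ) : ℤ) ∣ b)) := by
    intro x hx
    rw [mem_filter, mem_product] at hx
    obtain ⟨hB, h0, h1⟩ := hx
    rw [mem_product]
    refine ⟨hB.1, mem_filter.mpr ⟨hB.2, h0, ?_⟩⟩
    push_cast
    exact h1
  have h1 : ((((Icc (-⌊Y⌋) ⌊Y⌋) ×ˢ (Icc (-⌊a⌋) ⌊a⌋)).filter
      (fun x : ℤ × ℤ => x.2 ≠ 0 ∧ (p : ℤ) ^ j ∣ x.2)).card : ℝ) ≤
      (((Icc (-⌊Y⌋) ⌊Y⌋) ×ˢ ((Icc (-⌊a⌋) ⌊a⌋).filter (fun b => b ≠ 0 ∧ ((p ^ j : ℕ) : ℤ) ∣ b))).card : ℝ) := by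
    exact_mod_cast Finset.card_le_card hsub
  refine h1.trans ?_
  rw [Finset.card_product]
  push_cast
  have hpj : 0 < p ^ j := pow_pos hp.pos j
  have a1 := mult_card a ha (p ^ j) hpj
  have a2 := exc_p_width Y hY
  push_cast at a1
  have hp2 : (2 : ℝ) ^ j ≤ (p : ℝ) ^ j := pow_le_pow_left₀ (by norm_num) (by exact_mod_cast hp.two_le) j
  have a3 : 2 * a / (p : ℝ) ^ j ≤ 2 * a / 2 ^ j :=
    div_le_div_of_nonneg_left (by positivity) (by positivity) hp2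
  calc _ ≤ (3 * Y) * (2 * a / 2 ^ j) := by
        apply mul_le_mul a2 (a1.trans a3) (by positivity) (by positivity)
    _ = 3 * Y * (2 * a) / 2 ^ j := by ring

/-- C4. `mult_card` with `m = p^j ≥ 2^j`, for each of the at most `3Y` values of `k`: `3Y (30Y³ + 38Y³) / 2^j`. -/
theorem exc_p (Y : ℝ) (hY : 1 ≤ Y) (p j : ℕ) (hp : p.Prime) :
    (((Box3 Y).filter (fun x => (x.2 ≠ 0 ∧ (p : ℤ) ^ j ∣ x.2) ∨ (nn x.1 x.2 ≠ 0 ∧ (p : ℤ) ^ j ∣ nn x.1 x.2))).card : ℝ) ≤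
      204 * Y ^ 4 / 2 ^ j := by
  have hY3 : (0 : ℝ) ≤ Y ^ 3 := by positivity
  have h1 := exc_p_aux Y (15 * Y ^ 3) hY (by positivity) p j hp
  have h2 := exc_p_aux Y (19 * Y ^ 3) hY (by positivity) p j hp
  have h3 := exc_p_map Y hY (fun z => z ≠ 0 ∧ (p : ℤ) ^ j ∣ z)
  have h4 : ((Box3 Y).filter (fun x => (x.2 ≠ 0 ∧ (p : ℤ) ^ j ∣ x.2) ∨ (nn x.1 x.2 ≠ 0 ∧ (p : ℤ) ^ j ∣ nn x.1 x.2))).card ≤
      ((Box3 Y).filter (fun x => (x.2 ≠ 0 ∧ (p : ℤ) ^ j ∣ x.2))).card +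
      ((Box3 Y).filter (fun x => (nn x.1 x.2 ≠ 0 ∧ (p : ℤ) ^ j ∣ nn x.1 x.2))).card := by
    rw [Finset.filter_or]
    exact Finset.card_union_le _ _
  have h5 : (((Box3 Y).filter (fun x => (x.2 ≠ 0 ∧ (p : ℤ) ^ j ∣ x.2) ∨ (nn x.1 x.2 ≠ 0 ∧ (p : ℤ) ^ j ∣ nn x.1 x.2))).card : ℝ) ≤
      (((Box3 Y).filter (fun x => (x.2 ≠ 0 ∧ (p : ℤ) ^ j ∣ x.2))).card : ℝ) +
      (((Box3 Y).filter (fun x => (nn x.1 x.2 ≠ 0 ∧ (p : ℤ) ^ j ∣ nn x.1 x.2))).card : ℝ) := by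
    exact_mod_cast h4
  have h6 : (((Box3 Y).filter (fun x => (nn x.1 x.2 ≠ 0 ∧ (p : ℤ) ^ j ∣ nn x.1 x.2))).card : ℝ) ≤
      ((((Icc (-⌊Y⌋) ⌊Y⌋) ×ˢ (Icc (-⌊19 * Y ^ 3⌋) ⌊19 * Y ^ 3⌋)).filter
      (fun x : ℤ × ℤ => x.2 ≠ 0 ∧ (p : ℤ) ^ j ∣ x.2)).card : ℝ) := by
    exact_mod_cast h3
  have h7 : (((Box3 Y).filter (fun x => (x.2 ≠ 0 ∧ (p : ℤ) ^ j ∣ x.2))).card : ℝ) ≤
      3 * Y * (2 * (15 * Y ^ 3)) / 2 ^ j := h1
  have e : 3 * Y * (2 * (15 * Y ^ 3)) / 2 ^ j + 3 * Y * (2 * (19 * Y ^ 3)) / 2 ^ j =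
      204 * Y ^ 4 / 2 ^ j := by ring
  linarith
-- END exc_p

-- BEGIN exc_total
private theorem exc_total_icc (Y : ℝ) (hY : 0 ≤ Y) :
    ((Icc (-⌊Y⌋) ⌊Y⌋).card : ℝ) ≤ 2 * Y + 1 := by
  have h1 : 0 ≤ ⌊Y⌋ := Int.floor_nonneg.2 hY
  have h2 : (⌊Y⌋ : ℝ) ≤ Y := Int.floor_le Y
  rw [Int.card_Icc]
  have h3 : (((⌊Y⌋ + 1 - (-⌊Y⌋)).toNat : ℕ) : ℝ) = 2 * (⌊Y⌋ : ℝ) + 1 := by
    have h4 : (((⌊Y⌋ + 1 - (-⌊Y⌋)).toNat : ℕ) : ℤ) = ⌊Y⌋ + 1 - (-⌊Y⌋) := Int.toNat_of_nonneg (by omega)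
    have h5 : (((⌊Y⌋ + 1 - (-⌊Y⌋)).toNat : ℕ) : ℝ) = ((((⌊Y⌋ + 1 - (-⌊Y⌋)).toNat : ℕ) : ℤ) : ℝ) := by
      push_cast
      rfl
    rw [h5, h4]
    push_cast
    ring
  rw [h3]
  linarith

private theorem exc_total_zero (Y : ℝ) (hY : 1 ≤ Y) (g : ℤ → ℤ → ℤ)
    (hg : ∀ k t t' : ℤ, g k t = 0 → g k t' = 0 → t = t') :
    (((Box3 Y).filter (fun x => g x.1 x.2 = 0)).card : ℝ) ≤ 3 * Y := by
  have h0 := exc_total_icc Y (by linarith)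
  have h1 : ((Box3 Y).filter (fun x => g x.1 x.2 = 0)).card ≤ (Icc (-⌊Y⌋) ⌊Y⌋).card := by
    refine Finset.card_le_card_of_injOn (fun x => x.1) ?_ ?_
    · intro x hx
      have hx' := (Finset.mem_filter.1 (Finset.mem_coe.1 hx)).1
      unfold Box3 at hx'
      exact Finset.mem_coe.2 (Finset.mem_product.1 hx').1
    · intro x hx x' hx' h
      have h2 := (Finset.mem_filter.1 (Finset.mem_coe.1 hx)).2
      have h3 := (Finset.mem_filter.1 (Finset.mem_coe.1 hx')).2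
      have h4 : x.1 = x'.1 := h
      rw [← h4] at h3
      exact Prod.ext h4 (hg x.1 x.2 x'.2 h2 h3)
  have h2 : (((Box3 Y).filter (fun x => g x.1 x.2 = 0)).card : ℝ) ≤ ((Icc (-⌊Y⌋) ⌊Y⌋).card : ℝ) := by
    exact_mod_cast h1
  linarith

private theorem exc_total_k (Y : ℝ) (hY : 1 ≤ Y) :
    (((Box3 Y).filter (fun x => x.1 = 0)).card : ℝ) ≤ 31 * Y ^ 3 := by
  have hY3 : (1 : ℝ) ≤ Y ^ 3 := one_le_pow₀ hY
  have h0 := exc_total_icc (15 * Y ^ 3) (by linarith)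
  have h1 : ((Box3 Y).filter (fun x => x.1 = 0)).card ≤ (Icc (-⌊15 * Y ^ 3⌋) ⌊15 * Y ^ 3⌋).card := by
    refine Finset.card_le_card_of_injOn (fun x => x.2) ?_ ?_
    · intro x hx
      have hx' := (Finset.mem_filter.1 (Finset.mem_coe.1 hx)).1
      unfold Box3 at hx'
      exact Finset.mem_coe.2 (Finset.mem_product.1 hx').2
    · intro x hx x' hx' h
      have h2 := (Finset.mem_filter.1 (Finset.mem_coe.1 hx)).2
      have h3 := (Finset.mem_filter.1 (Finset.mem_coe.1 hx')).2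
      exact Prod.ext (by rw [h2, h3]) h
  have h2 : (((Box3 Y).filter (fun x => x.1 = 0)).card : ℝ) ≤
      ((Icc (-⌊15 * Y ^ 3⌋) ⌊15 * Y ^ 3⌋).card : ℝ) := by
    exact_mod_cast h1
  linarith

/-- C5. `t = 0`, `nn = 0`: at most `3Y` each; `k = 0`: at most `31Y³`; the rest from `exc_a` .. `exc_p`, at most `T` primes `p ≤ T`. -/
theorem exc_total (Y : ℝ) (hY : 1 ≤ Y) (T j : ℕ) (hT : 1 ≤ T) :
    (((Box3 Y).filter (fun x => Exc3 T j x.1 x.2)).card : ℝ) ≤ (266 / T + 204 * T / 2 ^ j) * Y ^ 4 + 40 * Y ^ 3 := by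
  set S1 := (Box3 Y).filter (fun x => x.1 = 0) with hS1
  set S2 := (Box3 Y).filter (fun x => x.2 = 0) with hS2
  set S3 := (Box3 Y).filter (fun x => nn x.1 x.2 = 0) with hS3
  set Sa := (Box3 Y).filter (fun x => x.1 ≠ 0 ∧ ∃ p : ℕ, p.Prime ∧ T < p ∧ (p : ℤ) ∣ x.1 ∧ (p : ℤ) ∣ x.2)
    with hSa
  set Sb := (Box3 Y).filter (fun x => x.2 ≠ 0 ∧ ∃ p : ℕ, p.Prime ∧ T < p ∧ (p : ℤ) ^ 2 ∣ x.2)
    with hSb
  set Sc := (Box3 Y).filter (fun x => nn x.1 x.2 ≠ 0 ∧ ∃ p : ℕ, p.Prime ∧ T < p ∧ (p : ℤ) ^ 2 ∣ nn x.1 x.2)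
    with hSc
  set Sd : ℕ → Finset (ℤ × ℤ) := fun p => (Box3 Y).filter (fun x => (x.2 ≠ 0 ∧ (p : ℤ) ^ j ∣ x.2) ∨
    (nn x.1 x.2 ≠ 0 ∧ (p : ℤ) ^ j ∣ nn x.1 x.2)) with hSd
  set Q := (range (T + 1)).filter Nat.Prime with hQ
  have hsub : (Box3 Y).filter (fun x => Exc3 T j x.1 x.2) ⊆
      S1 ∪ (S2 ∪ (S3 ∪ (Sa ∪ (Sb ∪ (Sc ∪ Q.biUnion Sd))))) := by
    intro x hx
    obtain ⟨hxB, hxE⟩ := Finset.mem_filter.1 hx
    simp only [Finset.mem_union, Finset.mem_biUnion]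
    by_cases h0 : x.1 = 0
    · exact Or.inl (Finset.mem_filter.2 ⟨hxB, h0⟩)
    right
    by_cases hb0 : x.2 = 0
    · exact Or.inl (Finset.mem_filter.2 ⟨hxB, hb0⟩)
    right
    by_cases hc0 : nn x.1 x.2 = 0
    · exact Or.inl (Finset.mem_filter.2 ⟨hxB, hc0⟩)
    right
    unfold Exc3 at hxE
    rcases hxE with h | h | ⟨p, hp, hpT, h | h | h⟩ | ⟨p, hp, hpT, h⟩
    · exact absurd h hb0
    · exact absurd h hc0
    · exact Or.inl (Finset.mem_filter.2 ⟨hxB, h0, p, hp, hpT, h.1, h.2⟩)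
    · exact Or.inr (Or.inl (Finset.mem_filter.2 ⟨hxB, hb0, p, hp, hpT, h⟩))
    · exact Or.inr (Or.inr (Or.inl (Finset.mem_filter.2 ⟨hxB, hc0, p, hp, hpT, h⟩)))
    · refine Or.inr (Or.inr (Or.inr ⟨p, Finset.mem_filter.2 ⟨Finset.mem_range.2 (by omega), hp⟩, ?_⟩))
      refine Finset.mem_filter.2 ⟨hxB, ?_⟩
      rcases h with h | h
      · exact Or.inl ⟨hb0, h⟩
      · exact Or.inr ⟨hc0, h⟩
  have h1 : (S1.card : ℝ) ≤ 31 * Y ^ 3 := exc_total_k Y hY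
  have h2 : (S2.card : ℝ) ≤ 3 * Y := exc_total_zero Y hY (fun _ t => t) (by
    intro k t t' h h'
    exact h.trans h'.symm)
  have h3 : (S3.card : ℝ) ≤ 3 * Y := exc_total_zero Y hY nn (by
    intro k t t' h h'
    unfold nn at h h'
    omega)
  have ha : (Sa.card : ℝ) ≤ 62 * Y ^ 4 / T := exc_a Y hY T hT
  have hb : (Sb.card : ℝ) ≤ 90 * Y ^ 4 / T := exc_t Y hY T hT
  have hc : (Sc.card : ℝ) ≤ 114 * Y ^ 4 / T := exc_n Y hY T hT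
  have hQc : (Q.card : ℝ) ≤ T := by
    have h4 : Q ⊆ Finset.Icc 1 T := by
      intro p hp
      obtain ⟨h5, h6⟩ := Finset.mem_filter.1 hp
      rw [Finset.mem_range] at h5
      exact Finset.mem_Icc.2 ⟨h6.one_lt.le, by omega⟩
    have h5 := Finset.card_le_card h4
    rw [Nat.card_Icc, Nat.add_sub_cancel] at h5
    exact_mod_cast h5
  have hd : ((Q.biUnion Sd).card : ℝ) ≤ T * (204 * Y ^ 4 / 2 ^ j) := by
    have h4 : ((Q.biUnion Sd).card : ℝ) ≤ ∑ p ∈ Q, ((Sd p).card : ℝ) := by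
      exact_mod_cast Finset.card_biUnion_le
    have h5 : ∑ p ∈ Q, ((Sd p).card : ℝ) ≤ ∑ p ∈ Q, (204 * Y ^ 4 / 2 ^ j) :=
      Finset.sum_le_sum (fun p hp => exc_p Y hY p j (Finset.mem_filter.1 hp).2)
    rw [Finset.sum_const, nsmul_eq_mul] at h5
    have h6 : (0 : ℝ) ≤ 204 * Y ^ 4 / 2 ^ j := by positivity
    have h7 := mul_le_mul_of_nonneg_right hQc h6
    linarith
  have hu : (((Box3 Y).filter (fun x => Exc3 T j x.1 x.2)).card : ℝ) ≤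
      S1.card + (S2.card + (S3.card + (Sa.card + (Sb.card + (Sc.card + (Q.biUnion Sd).card))))) := by
    have h4 := Finset.card_le_card hsub
    have h5 := Finset.card_union_le S1 (S2 ∪ (S3 ∪ (Sa ∪ (Sb ∪ (Sc ∪ Q.biUnion Sd)))))
    have h6 := Finset.card_union_le S2 (S3 ∪ (Sa ∪ (Sb ∪ (Sc ∪ Q.biUnion Sd))))
    have h7 := Finset.card_union_le S3 (Sa ∪ (Sb ∪ (Sc ∪ Q.biUnion Sd)))
    have h8 := Finset.card_union_le Sa (Sb ∪ (Sc ∪ Q.biUnion Sd))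
    have h9 := Finset.card_union_le Sb (Sc ∪ Q.biUnion Sd)
    have h10 := Finset.card_union_le Sc (Q.biUnion Sd)
    have h11 : ((Box3 Y).filter (fun x => Exc3 T j x.1 x.2)).card ≤
        S1.card + (S2.card + (S3.card + (Sa.card + (Sb.card + (Sc.card + (Q.biUnion Sd).card))))) := by
      omega
    exact_mod_cast h11
  have hYY : Y ≤ Y ^ 3 := by
    have h4 : (1 : ℝ) ≤ Y ^ 2 := one_le_pow₀ hY
    nlinarith
  have hT0 : (0 : ℝ) < T := by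
    have : 0 < T := by omega
    exact_mod_cast this
  have e1 : (266 / (T : ℝ) + 204 * T / 2 ^ j) * Y ^ 4 + 40 * Y ^ 3 =
      62 * Y ^ 4 / T + 90 * Y ^ 4 / T + 114 * Y ^ 4 / T + T * (204 * Y ^ 4 / 2 ^ j) + 40 * Y ^ 3 := by
    field_simp
    ring
  rw [e1]
  linarith
-- END exc_total

-- BEGIN low
private theorem low_free3 (M : ℕ) :
    1 / 2 * (M : ℝ) ≤ (((Ioc 0 M).filter (fun a : ℕ => ∀ n : ℕ, 2 ≤ n → ¬ n ^ 3 ∣ a)).card : ℝ) := by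
  have h1 : ((Ioc 0 M).filter (fun a : ℕ => ¬ ∀ n : ℕ, 2 ≤ n → ¬ n ^ 3 ∣ a)).card ≤
      ∑ n ∈ Ioc 1 M, M / n ^ 3 := by
    have hsub : (Ioc 0 M).filter (fun a : ℕ => ¬ ∀ n : ℕ, 2 ≤ n → ¬ n ^ 3 ∣ a) ⊆
        (Ioc 1 M).biUnion (fun n => (Ioc 0 M).filter (fun a => n ^ 3 ∣ a)) := by
      intro a ha
      obtain ⟨h1, h2⟩ := Finset.mem_filter.1 ha
      push Not at h2
      obtain ⟨n, h3, h4⟩ := h2
      have h5 := Finset.mem_Ioc.1 h1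
      have h6 : n ^ 3 ≤ a := Nat.le_of_dvd h5.1 h4
      have h7 : n ≤ n ^ 3 := Nat.le_self_pow (by norm_num) n
      exact Finset.mem_biUnion.2 ⟨n, Finset.mem_Ioc.2 ⟨by omega, by omega⟩,
        Finset.mem_filter.2 ⟨h1, h4⟩⟩
    refine le_trans (Finset.card_le_card hsub) (le_trans Finset.card_biUnion_le ?_)
    refine Finset.sum_le_sum (fun n _ => ?_)
    exact (Nat.Ioc_filter_dvd_card_eq_div M (n ^ 3)).le
  have h2 : ((∑ n ∈ Ioc 1 M, M / n ^ 3 : ℕ) : ℝ) ≤ M / 2 := by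
    rw [Nat.cast_sum]
    calc ∑ n ∈ Ioc 1 M, ((M / n ^ 3 : ℕ) : ℝ) ≤ ∑ n ∈ Ioc 1 M, (M / 2 : ℝ) * (1 / (n : ℝ) ^ 2) := by
          refine Finset.sum_le_sum (fun n hn => ?_)
          have hn2 : 2 ≤ n := by
            have := (Finset.mem_Ioc.1 hn).1
            omega
          have hnR : (2 : ℝ) ≤ n := by exact_mod_cast hn2
          have hpos : (0 : ℝ) < (n : ℝ) ^ 2 := by positivity
          refine le_trans Nat.cast_div_le ?_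
          rw [Nat.cast_pow]
          have h3 : (n : ℝ) ^ 3 = (n : ℝ) * (n : ℝ) ^ 2 := by ring
          rw [h3, div_mul_div_comm, mul_one]
          refine div_le_div_of_nonneg_left (Nat.cast_nonneg M) (by positivity) ?_
          exact mul_le_mul_of_nonneg_right hnR hpos.le
      _ = (M / 2 : ℝ) * ∑ n ∈ Ioc 1 M, 1 / (n : ℝ) ^ 2 := by rw [Finset.mul_sum]
      _ ≤ (M / 2 : ℝ) * (1 / ((1 : ℕ) : ℝ)) :=
          mul_le_mul_of_nonneg_left (inv_sq 1 M le_rfl) (by positivity)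
      _ = M / 2 := by simp
  have h3 := Finset.card_filter_add_card_filter_not (s := Ioc 0 M)
    (fun a : ℕ => ∀ n : ℕ, 2 ≤ n → ¬ n ^ 3 ∣ a)
  rw [Nat.card_Ioc] at h3
  have h4 : (((Ioc 0 M).filter (fun a : ℕ => ∀ n : ℕ, 2 ≤ n → ¬ n ^ 3 ∣ a)).card : ℝ) +
      (((Ioc 0 M).filter (fun a : ℕ => ¬ ∀ n : ℕ, 2 ≤ n → ¬ n ^ 3 ∣ a)).card : ℝ) = M := by
    exact_mod_cast h3
  have h5 : (((Ioc 0 M).filter (fun a : ℕ => ¬ ∀ n : ℕ, 2 ≤ n → ¬ n ^ 3 ∣ a)).card : ℝ) ≤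
      ((∑ n ∈ Ioc 1 M, M / n ^ 3 : ℕ) : ℝ) := by exact_mod_cast h1
  linarith

/-- C6. Copy of `Rnt.low`. `1 ≤ k ≤ Y/4`, `1 ≤ t ≤ Y³/4` are in `Reg3 Y` (`mem_Reg3`; `|A| ≤ max (6kt) (27k⁴) ≤ 0.38 Y⁴`, `-18k³t ≤ B ≤ t² + 54k⁶`, `|B| ≤ 0.08 Y⁶`): about `Y⁴/16` pairs. Not minimal (`Loc.min_iff`): `p ∣ k`, `p³ ∣ t`, at most
`∑_{n≥2} (Y/(4n)) (Y³/(4n³)) ≤ Y⁴/64` (`1/n⁴ ≤ 1/(4n²)`, `inv_sq`). `disc = 27t³n = 0`: `t = 4k³`, at most `Y/4`. -/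
theorem low : ∃ Y₀ : ℝ, ∀ Y : ℝ, Y₀ ≤ Y → Y ^ 4 / 32 ≤ ((PR3 Y).card : ℝ) := by
  refine ⟨1000, fun Y hY => ?_⟩
  have hY0 : (0 : ℝ) ≤ Y := by linarith
  set T : ℕ := ⌊Y ^ 3 / 3⌋₊ with hT
  set K : ℕ := ⌊Y / 4⌋₊ with hK
  set FT := (Ioc 0 T).filter (fun a : ℕ => ∀ n : ℕ, 2 ≤ n → ¬ n ^ 3 ∣ a) with hFT
  have hT1 : (T : ℝ) ≤ Y ^ 3 / 3 := Nat.floor_le (by positivity)
  have hT2 : Y ^ 3 / 3 < T + 1 := Nat.lt_floor_add_one _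
  have hK1 : (K : ℝ) ≤ Y / 4 := Nat.floor_le (by linarith)
  have hK2 : Y / 4 < K + 1 := Nat.lt_floor_add_one _
  have hinj : Function.Injective (fun x : ℕ × ℕ => ((x.1 : ℤ), (x.2 : ℤ))) := by
    intro x y hxy
    have h1 := congrArg Prod.fst hxy
    have h2 := congrArg Prod.snd hxy
    simp only [Nat.cast_inj] at h1 h2
    exact Prod.ext h1 h2
  have hsub : (Ioc 1 K ×ˢ FT).image (fun x : ℕ × ℕ => ((x.1 : ℤ), (x.2 : ℤ))) ⊆ PR3 Y := by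
    intro y hy
    obtain ⟨⟨k, t⟩, hx, rfl⟩ := Finset.mem_image.1 hy
    obtain ⟨hk, ht⟩ := Finset.mem_product.1 hx
    simp only at hk ht ⊢
    obtain ⟨ht1, ht2⟩ := Finset.mem_filter.1 ht
    have ht3 := Finset.mem_Ioc.1 ht1
    have hk3 := Finset.mem_Ioc.1 hk
    have htR : (t : ℝ) ≤ Y ^ 3 / 3 := le_trans (by exact_mod_cast ht3.2) hT1
    have hkR : (k : ℝ) ≤ Y / 4 := le_trans (by exact_mod_cast hk3.2) hK1
    have ht0 : (0 : ℝ) ≤ t := Nat.cast_nonneg t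
    have hk0 : (0 : ℝ) ≤ k := Nat.cast_nonneg k
    have hkt : (k : ℝ) * t ≤ (Y / 4) * (Y ^ 3 / 3) := mul_le_mul hkR htR ht0 (by positivity)
    have hk3R : (k : ℝ) ^ 3 ≤ (Y / 4) ^ 3 := pow_le_pow_left₀ hk0 hkR 3
    have hk4 : (k : ℝ) ^ 4 ≤ (Y / 4) ^ 4 := pow_le_pow_left₀ hk0 hkR 4
    have hk6 : (k : ℝ) ^ 6 ≤ (Y / 4) ^ 6 := pow_le_pow_left₀ hk0 hkR 6
    have htt : (t : ℝ) ^ 2 ≤ (Y ^ 3 / 3) ^ 2 := pow_le_pow_left₀ ht0 htR 2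
    have hk3t : (k : ℝ) ^ 3 * t ≤ (Y / 4) ^ 3 * (Y ^ 3 / 3) :=
      mul_le_mul hk3R htR ht0 (by positivity)
    have hY4 : (0 : ℝ) ≤ Y ^ 4 := by positivity
    have hY6 : (0 : ℝ) ≤ Y ^ 6 := by positivity
    have hY12 : (0 : ℝ) ≤ Y ^ 12 := by positivity
    rw [PR3, Finset.mem_filter]
    refine ⟨(mem_Reg3 Y hY0 _ _).2 ⟨?_, ?_⟩, ?_, ?_⟩
    · have h1 : ((AA (k : ℤ) (t : ℤ) : ℤ) : ℝ) = 6 * ((k : ℝ) * t) - 27 * (k : ℝ) ^ 4 := by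
        unfold AA
        push_cast
        ring
      have h2 : |((AA (k : ℤ) (t : ℤ) : ℤ) : ℝ)| ≤ Y ^ 4 / 2 := by
        rw [h1, abs_le]
        have h3 : (0 : ℝ) ≤ (k : ℝ) ^ 4 := by positivity
        have h4 : (0 : ℝ) ≤ (k : ℝ) * t := by positivity
        have h5 : (Y / 4) * (Y ^ 3 / 3) = Y ^ 4 / 12 := by ring
        have h6 : (Y / 4) ^ 4 = Y ^ 4 / 256 := by ring
        rw [h5] at hkt
        rw [h6] at hk4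
        constructor
        · linarith
        · linarith
      have h3 : |((AA (k : ℤ) (t : ℤ) : ℤ) : ℝ)| ^ 3 ≤ (Y ^ 4 / 2) ^ 3 :=
        pow_le_pow_left₀ (abs_nonneg _) h2 3
      calc 4 * |((AA (k : ℤ) (t : ℤ) : ℤ) : ℝ)| ^ 3 ≤ 4 * (Y ^ 4 / 2) ^ 3 := by linarith
        _ = Y ^ 12 / 2 := by ring
        _ ≤ Y ^ 12 := by linarith
    · have h1 : ((B3 (k : ℤ) (t : ℤ) : ℤ) : ℝ) =
          (t : ℝ) ^ 2 - 18 * ((k : ℝ) ^ 3 * t) + 54 * (k : ℝ) ^ 6 := by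
        unfold B3
        push_cast
        ring
      have h2 : |((B3 (k : ℤ) (t : ℤ) : ℤ) : ℝ)| ≤ Y ^ 6 / 6 := by
        rw [h1, abs_le]
        have h3 : (0 : ℝ) ≤ (k : ℝ) ^ 6 := by positivity
        have h4 : (0 : ℝ) ≤ (k : ℝ) ^ 3 * t := by positivity
        have h7 : (0 : ℝ) ≤ (t : ℝ) ^ 2 := by positivity
        have h5 : (Y / 4) ^ 3 * (Y ^ 3 / 3) = Y ^ 6 / 192 := by ring
        have h6 : (Y / 4) ^ 6 = Y ^ 6 / 4096 := by ring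
        have h8 : (Y ^ 3 / 3) ^ 2 = Y ^ 6 / 9 := by ring
        rw [h5] at hk3t
        rw [h6] at hk6
        rw [h8] at htt
        constructor
        · linarith
        · linarith
      have h3 : ((B3 (k : ℤ) (t : ℤ) : ℤ) : ℝ) ^ 2 ≤ (Y ^ 6 / 6) ^ 2 := by
        rw [← sq_abs]
        exact pow_le_pow_left₀ (abs_nonneg _) h2 2
      calc 27 * ((B3 (k : ℤ) (t : ℤ) : ℤ) : ℝ) ^ 2 ≤ 27 * (Y ^ 6 / 6) ^ 2 := by linarith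
        _ = 3 / 4 * Y ^ 12 := by ring
        _ ≤ Y ^ 12 := by linarith
    · rw [min_iff]
      intro p hp h1
      have h2 : ((p ^ 3 : ℕ) : ℤ) ∣ (t : ℤ) := by
        rw [Nat.cast_pow]
        exact h1.2
      exact ht2 p hp.two_le (Int.natCast_dvd_natCast.1 h2)
    · rw [disc_eq]
      have h1 : (t : ℤ) ≠ 0 := by
        have : 0 < (t : ℤ) := by exact_mod_cast ht3.1
        exact this.ne'
      have h2 : nn (k : ℤ) (t : ℤ) ≠ 0 := by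
        intro h3
        unfold nn at h3
        have h4 : (t : ℤ) = ((4 * k ^ 3 : ℕ) : ℤ) := by
          push_cast
          linarith
        have h5 : t = 4 * k ^ 3 := by exact_mod_cast h4
        exact ht2 k (by omega) ⟨4, by rw [h5]; ring⟩
      exact mul_ne_zero (mul_ne_zero (by norm_num) (pow_ne_zero 3 h1)) h2
  have hcard := Finset.card_le_card hsub
  rw [Finset.card_image_of_injective _ hinj, Finset.card_product, Nat.card_Ioc] at hcard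
  have hcR : ((K - 1 : ℕ) : ℝ) * (FT.card : ℝ) ≤ ((PR3 Y).card : ℝ) := by exact_mod_cast hcard
  have hfree := low_free3 T
  rw [← hFT] at hfree
  have h1 : 1 / 2 * (Y ^ 3 / 3 - 1) ≤ (FT.card : ℝ) := by linarith
  have hK3 : 1 ≤ K := by
    have h2 : (0 : ℝ) < K := by linarith
    have h3 : 0 < K := by exact_mod_cast h2
    omega
  have h2 : Y / 4 - 2 ≤ ((K - 1 : ℕ) : ℝ) := by
    rw [Nat.cast_sub hK3]
    push_cast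
    linarith
  have hY3 : (1000 : ℝ) ^ 3 ≤ Y ^ 3 := pow_le_pow_left₀ (by norm_num) hY 3
  have h3 : (Y / 4 - 2) * (1 / 2 * (Y ^ 3 / 3 - 1)) ≤ ((K - 1 : ℕ) : ℝ) * (FT.card : ℝ) := by
    refine mul_le_mul h2 h1 ?_ (Nat.cast_nonneg _)
    norm_num at hY3 ⊢
    linarith
  have h4 : Y ^ 4 / 32 ≤ (Y / 4 - 2) * (1 / 2 * (Y ^ 3 / 3 - 1)) := by
    have h5 : 0 ≤ (Y - 1000) * Y ^ 3 := mul_nonneg (by linarith) (by positivity)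
    have h6 : (Y / 4 - 2) * (1 / 2 * (Y ^ 3 / 3 - 1)) =
        Y ^ 4 / 24 - Y ^ 3 / 3 - Y / 8 + 1 := by ring
    have h7 : (Y - 1000) * Y ^ 3 = Y ^ 4 - 1000 * Y ^ 3 := by ring
    have h8 : Y ≤ Y ^ 3 := by nlinarith [sq_nonneg Y]
    rw [h6]
    rw [h7] at h5
    linarith
  linarith
-- END low

-- BEGIN flex
/-- C7. Part 1 of `exist`, rational numbers only. `y ≠ 0`: otherwise `12x(x³+Ax+B) - (3x²+A)² = 0` gives `3x²+A = 0`, and then `disc = 0`. `m = (3x²+A)/(2y)`: `m² = (3x²+A)²/(4y²) = 12xy²/(4y²) = 3x`;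
`A = 3x² - 2m²x + 2my`, `B = y² - x³ - Ax`. -/
theorem flex (A B x y : ℚ) (hd : 4 * A ^ 3 + 27 * B ^ 2 ≠ 0) (h1 : y ^ 2 = x ^ 3 + A * x + B)
    (h2 : 3 * x ^ 4 + 6 * A * x ^ 2 + 12 * B * x - A ^ 2 = 0) :
    ∃ m : ℚ, 3 * x = m ^ 2 ∧ 3 * A = - m ^ 4 + 6 * m * y ∧ 27 * y ^ 2 = m ^ 6 + 9 * A * m ^ 2 + 27 * B ∧
      (m ^ 2) ^ 4 + 18 * A * (m ^ 2) ^ 2 + 108 * B * m ^ 2 - 27 * A ^ 2 = 0 := by
  have h3 : (3 * x ^ 2 + A) ^ 2 = 12 * x * y ^ 2 := by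
    rw [h1]
    linear_combination (-1) * h2
  have hy : y ≠ 0 := by
    intro hy
    apply hd
    rw [hy] at h3 h1
    have h4 : 3 * x ^ 2 + A = 0 := by
      have h5 : (3 * x ^ 2 + A) ^ 2 = 0 := by rw [h3]; ring
      exact pow_eq_zero_iff (two_ne_zero) |>.1 h5
    have h5 : A = -3 * x ^ 2 := by linarith
    have h6 : B = 2 * x ^ 3 := by
      rw [h5] at h1
      linarith
    rw [h5, h6]
    ring
  have hm : 3 * x = ((3 * x ^ 2 + A) / (2 * y)) ^ 2 := by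
    rw [div_pow, h3]
    field_simp
    ring
  obtain ⟨m, hm2⟩ : ∃ m : ℚ, m = (3 * x ^ 2 + A) / (2 * y) := ⟨_, rfl⟩
  rw [← hm2] at hm
  have hmy : 2 * m * y = 3 * x ^ 2 + A := by
    rw [hm2]
    field_simp
  refine ⟨m, hm, ?_, ?_, ?_⟩
  · have h4 : m ^ 4 = 9 * x ^ 2 := by
      have : m ^ 4 = (m ^ 2) ^ 2 := by ring
      rw [this, ← hm]
      ring
    rw [h4]
    linear_combination (-3) * hmy
  · have h4 : m ^ 6 = 27 * x ^ 3 := by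
      have : m ^ 6 = (m ^ 2) ^ 3 := by ring
      rw [this, ← hm]
      ring
    rw [h4, ← hm, h1]
    ring
  · rw [← hm]
    linear_combination 27 * h2
-- END flex

-- BEGIN exist
private theorem exist_int {q : ℚ} {n : ℤ} (h : q ^ 2 = n) : ∃ z : ℤ, q = z := by
  have h1 : IsIntegral ℤ (q ^ 2) := by
    rw [h]
    exact isIntegral_algebraMap (R := ℤ) (A := ℚ) (x := n)
  have h2 : IsIntegral ℤ q := IsIntegral.of_pow (by norm_num) h1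
  obtain ⟨z, hz⟩ := IsIntegrallyClosed.isIntegral_iff.1 h2
  exact ⟨z, hz.symm⟩

/-- C8. `flex`; `m²` is a rational root of a monic integer polynomial, so an integer, so `m` is an integer. If `3 ∤ m` then `27y² = m⁶ + 9Am² + 27B` is an integer not divisible by `3`: `v_3` odd on the left, `0` on the right.
So `m = 3k`, `y² = 27k⁶ + 3Ak² + B` is an integer, `y = t` is an integer, `A = -27k⁴ + 6kt`, `B = t² - 27k⁶ - 3Ak²`. -/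
theorem exist (A B : ℤ) (hd : disc A B ≠ 0) (x y : ℚ) (h1 : y ^ 2 = x ^ 3 + A * x + B)
    (h2 : 3 * x ^ 4 + 6 * A * x ^ 2 + 12 * B * x - (A : ℚ) ^ 2 = 0) : ∃ k t : ℤ, A = AA k t ∧ B = B3 k t := by
  have hd' : 4 * (A : ℚ) ^ 3 + 27 * (B : ℚ) ^ 2 ≠ 0 := by
    intro h
    apply hd
    unfold disc
    exact_mod_cast h
  obtain ⟨m, hm1, hm2, hm3, hm4⟩ := flex (A : ℚ) B x y hd' h1 h2
  -- `m` is an integer
  have hmi : IsIntegral ℤ (m ^ 2) := by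
    refine ⟨Polynomial.X ^ 4 + Polynomial.C (18 * A) * Polynomial.X ^ 2 + Polynomial.C (108 * B) * Polynomial.X +
      Polynomial.C (-27 * A ^ 2), ?_, ?_⟩
    · monicity!
    · simp only [Polynomial.eval₂_add, Polynomial.eval₂_mul, Polynomial.eval₂_pow, Polynomial.eval₂_X,
        Polynomial.eval₂_C]
      simp only [algebraMap_int_eq, eq_intCast]
      push_cast
      linear_combination hm4
  have hmi2 : IsIntegral ℤ m := IsIntegral.of_pow (by norm_num) hmi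
  obtain ⟨z, hz⟩ := IsIntegrallyClosed.isIntegral_iff.1 hmi2
  have hz' : m = (z : ℚ) := hz.symm
  rw [hz'] at hm2 hm3
  -- `3 ∣ z`
  have h3z : (3 : ℤ) ∣ z := by
    obtain ⟨N, hN⟩ : ∃ N : ℤ, N = z ^ 6 + 9 * A * z ^ 2 + 27 * B := ⟨_, rfl⟩
    have h4 : (9 * y) ^ 2 = ((3 * N : ℤ) : ℚ) := by
      rw [hN]
      push_cast
      linear_combination 3 * hm3
    obtain ⟨w, hw⟩ := exist_int h4
    rw [hw] at h4
    have h5 : w ^ 2 = 3 * N := by exact_mod_cast h4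
    have hp : Prime (3 : ℤ) := Int.prime_three
    have h6 : (3 : ℤ) ∣ w := hp.dvd_of_dvd_pow (n := 2) (by rw [h5]; exact dvd_mul_right 3 N)
    obtain ⟨w', rfl⟩ := h6
    have h7 : (3 : ℤ) ∣ z ^ 6 := by
      refine ⟨w' ^ 2 - 3 * A * z ^ 2 - 9 * B, ?_⟩
      rw [hN] at h5
      linarith
    exact hp.dvd_of_dvd_pow h7
  obtain ⟨k, rfl⟩ := h3z
  have h5 : y ^ 2 = ((27 * k ^ 6 + 3 * A * k ^ 2 + B : ℤ) : ℚ) := by
    push_cast at hm3 ⊢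
    linarith
  obtain ⟨t, ht⟩ := exist_int h5
  rw [ht] at hm2 h5
  have hA : A = AA k t := by
    unfold AA
    have h6 : 3 * A = - (3 * k) ^ 4 + 6 * (3 * k) * t := by exact_mod_cast hm2
    linarith
  refine ⟨k, t, hA, ?_⟩
  have h6 : t ^ 2 = 27 * k ^ 6 + 3 * A * k ^ 2 + B := by exact_mod_cast h5
  have h7 : B = t ^ 2 - 27 * k ^ 6 - 3 * A * k ^ 2 := by linarith
  rw [h7, hA]
  unfold AA B3
  ring
-- END exist

-- BEGIN uniq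
/-- C9. `x = 3k²` and `x' = 3k'²` are roots of the `3`-division polynomial. If `k² ≠ k'²`: the difference of the two equations gives
`2 (t² + t'²) = 27 (k² + k'²) (k² - k'²)²`, and `2 (k t - k' t') = 9 (k² - k'²) (k² + k'²)` from `A`, so by the inequality of Cauchy `81 ≤ 54`. So `k' = ±k`, and then `t' = ±t` from `A` (`k ≠ 0`) or `B` (`k = 0`). -/
theorem uniq (k t k' t' : ℤ) (h1 : AA k t = AA k' t') (h2 : B3 k t = B3 k' t') :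
    (k' = k ∧ t' = t) ∨ (k' = -k ∧ t' = -t) := by
  unfold AA at h1
  unfold B3 at h2
  by_cases hk : k' ^ 2 = k ^ 2
  · rcases sq_eq_sq_iff_eq_or_eq_neg.1 hk with h | h
    · subst h
      by_cases h0 : k' = 0
      · subst h0
        have h3 : t' ^ 2 = t ^ 2 := by linarith
        rcases sq_eq_sq_iff_eq_or_eq_neg.1 h3 with h | h
        · exact Or.inl ⟨rfl, h⟩
        · exact Or.inr ⟨by ring, h⟩
      · left
        refine ⟨rfl, ?_⟩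
        have h3 : k' * (t' - t) = 0 := by linarith
        rcases mul_eq_zero.1 h3 with h | h
        · exact absurd h h0
        · omega
    · subst h
      by_cases h0 : k = 0
      · subst h0
        have h3 : t' ^ 2 = t ^ 2 := by linarith
        rcases sq_eq_sq_iff_eq_or_eq_neg.1 h3 with h | h
        · exact Or.inl ⟨by ring, h⟩
        · exact Or.inr ⟨rfl, h⟩
      · right
        refine ⟨rfl, ?_⟩
        have h3 : k * (t' + t) = 0 := by linarith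
        rcases mul_eq_zero.1 h3 with h | h
        · exact absurd h h0
        · omega
  · exfalso
    have hne : k ^ 2 - k' ^ 2 ≠ 0 := fun h => hk (by linarith)
    have e1 : 2 * (k * t - k' * t') = 9 * (k ^ 2 - k' ^ 2) * (k ^ 2 + k' ^ 2) := by linarith
    have e2' : 9 * ((k ^ 2 - k' ^ 2) * (2 * (t ^ 2 + t' ^ 2) - 27 * (k ^ 2 + k' ^ 2) * (k ^ 2 - k' ^ 2) ^ 2)) = 0 := by
      linear_combination (-(54 * k' ^ 4 - (6 * k * t - 27 * k ^ 4) - (6 * k' * t' - 27 * k' ^ 4)) -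
        54 * (k ^ 2 - k' ^ 2) * k' ^ 2) * h1 + (-36 * k' ^ 2 - 18 * (k ^ 2 - k' ^ 2)) * h2
    have e2 : (k ^ 2 - k' ^ 2) * (2 * (t ^ 2 + t' ^ 2) - 27 * (k ^ 2 + k' ^ 2) * (k ^ 2 - k' ^ 2) ^ 2) = 0 := by
      rcases mul_eq_zero.1 e2' with h | h
      · norm_num at h
      · exact h
    have e3 : 2 * (t ^ 2 + t' ^ 2) = 27 * (k ^ 2 + k' ^ 2) * (k ^ 2 - k' ^ 2) ^ 2 := by
      rcases mul_eq_zero.1 e2 with h | h
      · exact absurd h hne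
      · linarith
    have h3 : (2 * (k * t - k' * t')) ^ 2 ≤ 4 * (k ^ 2 + k' ^ 2) * (t ^ 2 + t' ^ 2) := by
      nlinarith [sq_nonneg (k * t' + k' * t)]
    rw [e1] at h3
    have h4 : 4 * (k ^ 2 + k' ^ 2) * (t ^ 2 + t' ^ 2) = 54 * (k ^ 2 + k' ^ 2) ^ 2 * (k ^ 2 - k' ^ 2) ^ 2 := by
      linear_combination 2 * (k ^ 2 + k' ^ 2) * e3
    rw [h4] at h3
    have h5 : 0 < (k ^ 2 - k' ^ 2) ^ 2 := by positivity
    have h6 : 0 < k ^ 2 + k' ^ 2 := by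
      rcases eq_or_ne k 0 with h | h
      · subst h
        have : k' ≠ 0 := by
          intro h'
          subst h'
          exact hk rfl
        positivity
      · positivity
    nlinarith [mul_pos (pow_pos h6 2) h5]
-- END uniq

-- BEGIN fam_sum
private theorem fam_sum_pt (k t : ℤ) :
    ((t : ℚ)) ^ 2 = (3 * (k : ℚ) ^ 2) ^ 3 + ((AA k t : ℤ) : ℚ) * (3 * (k : ℚ) ^ 2) + ((B3 k t : ℤ) : ℚ) ∧
      3 * (3 * (k : ℚ) ^ 2) ^ 4 + 6 * ((AA k t : ℤ) : ℚ) * (3 * (k : ℚ) ^ 2) ^ 2 +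
        12 * ((B3 k t : ℤ) : ℚ) * (3 * (k : ℚ) ^ 2) - ((AA k t : ℤ) : ℚ) ^ 2 = 0 := by
  unfold AA B3
  push_cast
  constructor
  · ring
  · ring

private theorem fam_sum_neg (k t : ℤ) : AA (-k) (-t) = AA k t ∧ B3 (-k) (-t) = B3 k t := by
  unfold AA B3
  constructor
  · ring
  · ring

private theorem fam_sum_mem (Y : ℝ) (hY : 0 ≤ Y) (x : ℤ × ℤ) : x ∈ PR3 Y ↔
    (4 * |((AA x.1 x.2 : ℤ) : ℝ)| ^ 3 ≤ Y ^ 12 ∧ 27 * ((B3 x.1 x.2 : ℤ) : ℝ) ^ 2 ≤ Y ^ 12) ∧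
      Minimal (AA x.1 x.2) (B3 x.1 x.2) ∧ disc (AA x.1 x.2) (B3 x.1 x.2) ≠ 0 := by
  obtain ⟨k, t⟩ := x
  unfold PR3
  rw [Finset.mem_filter, mem_Reg3 Y hY]

/-- C10. `F` is the image of `PR3 Y` under `(k, t) ↦ (AA k t, B3 k t)` (`mem_Reg3`, `exist`; the point `(3k², t)`). Each fibre is `{(k, t), (-k, -t)}` with `t ≠ 0` (`uniq`, `disc_eq`). -/
theorem fam_sum (Y : ℝ) (hY : 0 ≤ Y) : ∃ F : Finset (ℤ × ℤ), (F : Set (ℤ × ℤ)) = Fam3 (Y ^ 12) ∧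
    ∀ f : ℤ × ℤ → ℝ, ∑ E ∈ F, f E = (∑ x ∈ PR3 Y, f (AA x.1 x.2, B3 x.1 x.2)) / 2 := by
  set g : ℤ × ℤ → ℤ × ℤ := fun x => (AA x.1 x.2, B3 x.1 x.2) with hg
  refine ⟨(PR3 Y).image g, ?_, ?_⟩
  · ext E
    obtain ⟨A, B⟩ := E
    rw [Finset.coe_image, Set.mem_image]
    constructor
    · rintro ⟨⟨k, t⟩, hx, hE⟩
      rw [Finset.mem_coe, fam_sum_mem Y hY] at hx
      obtain ⟨⟨h1, h2⟩, h3, h4⟩ := hx
      have e1 : AA k t = A := congrArg Prod.fst hE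
      have e2 : B3 k t = B := congrArg Prod.snd hE
      subst e1
      subst e2
      exact ⟨h3, h4, ⟨3 * (k : ℚ) ^ 2, (t : ℚ), (fam_sum_pt k t).1, (fam_sum_pt k t).2⟩, h1, h2⟩
    · rintro ⟨h1, h2, ⟨x, y, hxy, hpsi⟩, h3, h4⟩
      obtain ⟨k, t, hA, hB⟩ := exist A B h2 x y hxy hpsi
      refine ⟨(k, t), ?_, ?_⟩
      · rw [Finset.mem_coe, fam_sum_mem Y hY]
        show (4 * |((AA k t : ℤ) : ℝ)| ^ 3 ≤ Y ^ 12 ∧ 27 * ((B3 k t : ℤ) : ℝ) ^ 2 ≤ Y ^ 12) ∧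
          Minimal (AA k t) (B3 k t) ∧ disc (AA k t) (B3 k t) ≠ 0
        rw [← hA, ← hB]
        exact ⟨⟨h3, h4⟩, h1, h2⟩
      · show (AA k t, B3 k t) = (A, B)
        rw [← hA, ← hB]
  · intro f
    have h0 : ∑ x ∈ PR3 Y, f (g x) = ∑ b ∈ (PR3 Y).image g, ((PR3 Y).filter (fun a => g a = b)).card • f b :=
      Finset.sum_comp f g
    have h1 : ∀ b ∈ (PR3 Y).image g, ((PR3 Y).filter (fun a => g a = b)).card • f b = 2 * f b := by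
      intro b hb
      obtain ⟨x, hx, hxb⟩ := Finset.mem_image.1 hb
      obtain ⟨k, t⟩ := x
      have hx' := (fam_sum_mem Y hY (k, t)).1 hx
      have ht : t ≠ 0 := by
        intro h
        apply hx'.2.2
        show disc (AA k t) (B3 k t) = 0
        rw [disc_eq, h]
        ring
      have hfib : (PR3 Y).filter (fun a => g a = b) = {(k, t), (-k, -t)} := by
        ext z
        obtain ⟨k', t'⟩ := z
        rw [Finset.mem_filter, Finset.mem_insert, Finset.mem_singleton]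
        constructor
        · rintro ⟨-, hz⟩
          rw [← hxb] at hz
          have e1 : AA k' t' = AA k t := congrArg Prod.fst hz
          have e2 : B3 k' t' = B3 k t := congrArg Prod.snd hz
          rcases uniq k t k' t' e1.symm e2.symm with h | h
          · left
            exact Prod.ext h.1 h.2
          · right
            exact Prod.ext h.1 h.2
        · rintro (h | h)
          · rw [h]
            exact ⟨hx, hxb⟩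
          · rw [h]
            obtain ⟨e1, e2⟩ := fam_sum_neg k t
            refine ⟨?_, ?_⟩
            · rw [fam_sum_mem Y hY]
              show (4 * |((AA (-k) (-t) : ℤ) : ℝ)| ^ 3 ≤ Y ^ 12 ∧ 27 * ((B3 (-k) (-t) : ℤ) : ℝ) ^ 2 ≤ Y ^ 12) ∧
                Minimal (AA (-k) (-t)) (B3 (-k) (-t)) ∧ disc (AA (-k) (-t)) (B3 (-k) (-t)) ≠ 0
              rw [e1, e2]
              exact hx'
            · show (AA (-k) (-t), B3 (-k) (-t)) = b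
              rw [e1, e2]
              exact hxb
      have hne : ((k, t) : ℤ × ℤ) ≠ (-k, -t) := by
        intro h
        have : t = -t := congrArg Prod.snd h
        omega
      rw [hfib, Finset.card_pair hne, nsmul_eq_mul]
      norm_num
    have h2 : ∑ x ∈ PR3 Y, f (AA x.1 x.2, B3 x.1 x.2) = 2 * ∑ E ∈ (PR3 Y).image g, f E := by
      rw [Finset.mul_sum]
      exact h0.trans (Finset.sum_congr rfl h1)
    rw [h2]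
    ring
-- END fam_sum

end Rn3
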