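import Pool.Agent.Rn3.Ana
import Pool.Agent.Rn3.Cnt

/-!
# Rn3 ASM: assembly
-/

set_option autoImplicit false

namespace Rn3

open Finset Filter Topology Rnt

open scoped Classical

-- BEGIN cell_sum
/-- the terms of the sums of `cell_sum` -/
noncomputable def cell_sum_F (M u v : ℕ) (k₀ t₀ : ℤ) (k t : ℤ) : ℝ :=
  if (M : ℤ) ∣ k - k₀ then gg M u t₀ t * gg M v (nn k₀ t₀) (nn k t) else 0

theorem cell_sum_F_le (M u v : ℕ) (k₀ t₀ : ℤ) (k t : ℤ) : |cell_sum_F M u v k₀ t₀ k t| ≤ 1 := by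
  unfold cell_sum_F
  split_ifs with h
  · rw [abs_mul]
    have h1 := gg_le M u t₀ t
    have h2 := gg_le M v (nn k₀ t₀) (nn k t)
    calc _ ≤ 1 * 1 := mul_le_mul h1 h2 (abs_nonneg _) zero_le_one
      _ = 1 := one_mul 1
  · simp

theorem cell_sum_eq (M u v : ℕ) (huM : u ∣ M) (hvM : v ∣ M) (k₀ t₀ : ℤ)
    (hut : (u : ℤ) ∣ t₀) (hvn : (v : ℤ) ∣ nn k₀ t₀) (σ : Bool) (Y : ℝ) (hY : 0 ≤ Y) :
    ∑ x ∈ Cell3 M k₀ t₀ σ Y, mob (x.2 / u) * mob (nn x.1 x.2 / v) =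
      ∑ k ∈ Icc (-⌊Y⌋) ⌊Y⌋, ∑ t ∈ (Icc (-⌊15 * Y ^ 3⌋) ⌊15 * Y ^ 3⌋).filter (fun t => InR σ Y k t), cell_sum_F M u v k₀ t₀ k t := by
  have hR : ∑ k ∈ Icc (-⌊Y⌋) ⌊Y⌋, ∑ t ∈ (Icc (-⌊15 * Y ^ 3⌋) ⌊15 * Y ^ 3⌋).filter (fun t => InR σ Y k t),
      cell_sum_F M u v k₀ t₀ k t = ∑ x ∈ (Box3 Y).filter (fun x => InR σ Y x.1 x.2), cell_sum_F M u v k₀ t₀ x.1 x.2 := by
    rw [Finset.sum_filter, Box3, Finset.sum_product]
    refine Finset.sum_congr rfl fun k _ => ?_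
    rw [Finset.sum_filter]
  rw [hR]
  have hsub : Cell3 M k₀ t₀ σ Y ⊆ (Box3 Y).filter (fun x => InR σ Y x.1 x.2) := by
    intro x hx
    simp only [Cell3, Reg3, Finset.mem_filter] at hx ⊢
    refine ⟨hx.1.1, ?_, hx.1.2.1, hx.1.2.2, hx.2.1⟩
    have h1 := hx.1.1
    simp only [Box3, Finset.mem_product, Finset.mem_Icc] at h1
    have h2 := Int.floor_le (15 * Y ^ 3)
    have h3 : (x.2 : ℝ) ≤ (⌊15 * Y ^ 3⌋ : ℤ) := by exact_mod_cast h1.2.2
    have h4 : ((-⌊15 * Y ^ 3⌋ : ℤ) : ℝ) ≤ x.2 := by exact_mod_cast h1.2.1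
    push_cast at h4
    rw [abs_le]
    constructor <;> linarith
  rw [← Finset.sum_subset hsub (f := fun x => cell_sum_F M u v k₀ t₀ x.1 x.2)]
  · refine Finset.sum_congr rfl fun x hx => ?_
    simp only [Cell3, Finset.mem_filter] at hx
    obtain ⟨_, _, hk, ht⟩ := hx
    have hMn : (M : ℤ) ∣ nn x.1 x.2 - nn k₀ t₀ := by
      have h1 : (M : ℤ) ∣ x.1 ^ 3 - k₀ ^ 3 := hk.trans (sub_dvd_pow_sub_pow x.1 k₀ 3)
      have h2 : nn x.1 x.2 - nn k₀ t₀ = (x.2 - t₀) - 4 * (x.1 ^ 3 - k₀ ^ 3) := by unfold nn; ring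
      rw [h2]
      exact dvd_sub ht (Dvd.dvd.mul_left h1 4)
    have huM' : (u : ℤ) ∣ (M : ℤ) := by exact_mod_cast huM
    have hvM' : (v : ℤ) ∣ (M : ℤ) := by exact_mod_cast hvM
    have hu' : (u : ℤ) ∣ x.2 := by
      have h3 : (u : ℤ) ∣ (x.2 - t₀) + t₀ := dvd_add (huM'.trans ht) hut
      simpa using h3
    have hv' : (v : ℤ) ∣ nn x.1 x.2 := by
      have h3 : (v : ℤ) ∣ (nn x.1 x.2 - nn k₀ t₀) + nn k₀ t₀ := dvd_add (hvM'.trans hMn) hvn
      simpa using h3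
    simp only [cell_sum_F, gg]
    rw [if_pos hk, if_pos ⟨hu', ht⟩, if_pos ⟨hv', hMn⟩]
  · intro x hx hx'
    simp only [Cell3, Reg3, Finset.mem_filter, not_and] at hx hx'
    simp only [cell_sum_F]
    split_ifs with hk
    · have : ¬ (M : ℤ) ∣ x.2 - t₀ := hx' ⟨hx.1, hx.2.2.1, hx.2.2.2.1⟩ hx.2.2.2.2 hk
      have h0 : gg M u t₀ x.2 = 0 := by
        unfold gg
        rw [if_neg]
        rintro ⟨_, h⟩
        exact this h
      rw [h0, zero_mul]
    · rfl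

/-- T1. -/
theorem cell_sum (M u v : ℕ) (hM : 0 < M) (hu : 0 < u) (hv : 0 < v) (huM : u ∣ M) (hvM : v ∣ M) (k₀ t₀ : ℤ)
    (hut : (u : ℤ) ∣ t₀) (hvn : (v : ℤ) ∣ nn k₀ t₀) (ε : ℝ) (hε : 0 < ε) (σ : Bool) :
    ∃ Y₀ : ℝ, ∀ Y : ℝ, Y₀ ≤ Y →
      |∑ x ∈ Cell3 M k₀ t₀ σ Y, mob (x.2 / u) * mob (nn x.1 x.2 / v)| ≤ ε * Y ^ 4 := by
  set η : ℝ := min 1 ((ε / 800) ^ 2) with hηdef
  have hη : 0 < η := lt_min one_pos (by positivity)
  have hη1 : η ≤ 1 := min_le_left _ _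
  have hsq : Real.sqrt η ≤ ε / 800 := by
    calc Real.sqrt η ≤ Real.sqrt ((ε / 800) ^ 2) := Real.sqrt_le_sqrt (min_le_right _ _)
      _ = ε / 800 := Real.sqrt_sq (by positivity)
  obtain ⟨H₀, hH₀⟩ := block M u v hM hu hv t₀ (nn k₀ t₀) (ε / 16) (by positivity)
  obtain ⟨Y₁, hY₁⟩ := hH₀ (H₀ + 1) (Nat.le_succ _)
  set H : ℕ := H₀ + 1 with hH
  have hHpos : 0 < H := Nat.succ_pos _
  have hHR : (0 : ℝ) < H := by exact_mod_cast hHpos
  obtain ⟨Y₂, hY₂⟩ := near_diff ((M : ℝ) * H) η (by positivity) hη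
  refine ⟨max (max Y₁ Y₂) (max (max 1 ((M : ℝ) * H)) (800 / ε)), fun Y hY => ?_⟩
  have hYY₁ : Y₁ ≤ Y := le_trans (le_trans (le_max_left _ _) (le_max_left _ _)) hY
  have hYY₂ : Y₂ ≤ Y := le_trans (le_trans (le_max_right _ _) (le_max_left _ _)) hY
  have hY1 : 1 ≤ Y := le_trans (le_trans (le_trans (le_max_left _ _) (le_max_left _ _)) (le_max_right _ _)) hY
  have hYM : (M : ℝ) * H ≤ Y := le_trans (le_trans (le_trans (le_max_right _ _) (le_max_left _ _)) (le_max_right _ _)) hY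
  have hYε : 800 / ε ≤ Y := le_trans (le_trans (le_max_right _ _) (le_max_right _ _)) hY
  have hY0 : 0 ≤ Y := by linarith
  rw [cell_sum_eq M u v huM hvM k₀ t₀ hut hvn σ Y hY0]
  set L : ℤ := ⌊Y⌋ with hL
  have hL0 : 0 ≤ L := Int.floor_nonneg.mpr hY0
  have hLY : (L : ℝ) ≤ Y := Int.floor_le Y
  have key := avg_bound M H hHpos L hL0 (fun k t => InR σ Y k t) (Icc (-⌊15 * Y ^ 3⌋) ⌊15 * Y ^ 3⌋)
    (by
      intro k t hkt
      have h1 : (k, t) ∈ Reg3 Y := (mem_Reg3 Y hY0 k t).2 ⟨hkt.2.1, hkt.2.2.1⟩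
      simp only [Reg3, Box3, Finset.mem_filter, Finset.mem_product, Finset.mem_Icc] at h1
      rw [abs_le]
      exact h1.1.1)
    (cell_sum_F M u v k₀ t₀) (cell_sum_F_le M u v k₀ t₀) (Near η Y)
    (by
      intro κ hκ i hi t ht
      rw [Finset.mem_Icc] at hκ ht
      have hκ1 : ((-L - M * H : ℤ) : ℝ) ≤ κ := by exact_mod_cast hκ.1
      have hκ2 : (κ : ℝ) ≤ L := by exact_mod_cast hκ.2
      push_cast at hκ1
      have hi' : (i : ℝ) ≤ H := by exact_mod_cast hi.le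
      have hMi : (M : ℝ) * i ≤ M * H := mul_le_mul_of_nonneg_left hi' (Nat.cast_nonneg M)
      have hMi0 : (0 : ℝ) ≤ (M : ℝ) * i := by positivity
      refine hY₂ Y hYY₂ σ (κ + M * (i : ℤ)) κ t ?_ ?_ ?_ ?_
      · push_cast
        rw [abs_le]
        constructor <;> linarith
      · rw [abs_le]
        constructor <;> linarith
      · push_cast
        rw [add_sub_cancel_left, abs_of_nonneg hMi0]
        exact hMi
      · have h2 := Int.floor_le (15 * Y ^ 3)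
        have h3 : (t : ℝ) ≤ (⌊15 * Y ^ 3⌋ : ℤ) := by exact_mod_cast ht.2
        have h4 : ((-⌊15 * Y ^ 3⌋ : ℤ) : ℝ) ≤ t := by exact_mod_cast ht.1
        push_cast at h4
        rw [abs_le]
        constructor <;> linarith)
    (ε / 16 * H * Y ^ 3)
    (by
      intro κ hκ
      rw [Finset.mem_Icc] at hκ
      have hκ1 : ((-L - M * H : ℤ) : ℝ) ≤ κ := by exact_mod_cast hκ.1
      have hκ2 : (κ : ℝ) ≤ L := by exact_mod_cast hκ.2
      push_cast at hκ1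
      by_cases hd : (M : ℤ) ∣ κ - k₀
      · have hb := hY₁ Y hYY₁ κ (by rw [abs_le]; constructor <;> linarith)
          ((Icc (-⌊15 * Y ^ 3⌋) ⌊15 * Y ^ 3⌋).filter (fun t => InR σ Y κ t))
          (by
            intro t ht
            rw [Finset.mem_filter] at ht
            exact ht.2.1)
        have he : ∑ t ∈ (Icc (-⌊15 * Y ^ 3⌋) ⌊15 * Y ^ 3⌋).filter (fun t => InR σ Y κ t), ∑ i ∈ range H, cell_sum_F M u v k₀ t₀ (κ + M * (i : ℤ)) t =
            ∑ t ∈ (Icc (-⌊15 * Y ^ 3⌋) ⌊15 * Y ^ 3⌋).filter (fun t => InR σ Y κ t), gg M u t₀ t * ∑ i ∈ range H, gg M v (nn k₀ t₀) (nn (κ + M * (i : ℤ)) t) := by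
          refine Finset.sum_congr rfl fun t _ => ?_
          rw [Finset.mul_sum]
          refine Finset.sum_congr rfl fun i _ => ?_
          unfold cell_sum_F
          rw [if_pos]
          have h5 : κ + M * (i : ℤ) - k₀ = (κ - k₀) + M * (i : ℤ) := by ring
          rw [h5]
          exact dvd_add hd (Dvd.intro _ rfl)
        rw [he]
        exact hb
      · have he : ∑ t ∈ (Icc (-⌊15 * Y ^ 3⌋) ⌊15 * Y ^ 3⌋).filter (fun t => InR σ Y κ t), ∑ i ∈ range H, cell_sum_F M u v k₀ t₀ (κ + M * (i : ℤ)) t = 0 := by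
          refine Finset.sum_eq_zero fun t _ => Finset.sum_eq_zero fun i _ => ?_
          unfold cell_sum_F
          rw [if_neg]
          intro h6
          apply hd
          have h5 : κ - k₀ = (κ + M * (i : ℤ) - k₀) - M * (i : ℤ) := by ring
          rw [h5]
          exact dvd_sub h6 (Dvd.intro _ rfl)
        rw [he, abs_zero]
        positivity)
  have hn := near_card η hη hη1 Y hY1
  set Sm : ℝ := |∑ k ∈ Icc (-L) L, ∑ t ∈ (Icc (-⌊15 * Y ^ 3⌋) ⌊15 * Y ^ 3⌋).filter (fun t => InR σ Y k t), cell_sum_F M u v k₀ t₀ k t| with hSm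
  have h1 : (2 * (L : ℝ) + M * H + 1) * (ε / 16 * H * Y ^ 3) ≤ (4 * Y) * (ε / 16 * H * Y ^ 3) := by
    apply mul_le_mul_of_nonneg_right _ (by positivity)
    linarith
  have h2 : (H : ℝ) * Sm ≤ H * (4 * Y * (ε / 16 * Y ^ 3) + (Near η Y).card) := by
    calc (H : ℝ) * Sm ≤ (2 * (L : ℝ) + M * H + 1) * (ε / 16 * H * Y ^ 3) + H * (Near η Y).card := key
      _ ≤ (4 * Y) * (ε / 16 * H * Y ^ 3) + H * (Near η Y).card := by linarith
      _ = _ := by ring
  have h3 : Sm ≤ 4 * Y * (ε / 16 * Y ^ 3) + (Near η Y).card := le_of_mul_le_mul_left h2 hHR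
  have h4 : 200 * Real.sqrt η * Y ^ 4 ≤ ε / 4 * Y ^ 4 := by
    apply mul_le_mul_of_nonneg_right _ (by positivity)
    linarith
  have h5 : 200 * Y ^ 3 ≤ ε / 4 * Y ^ 4 := by
    have h6 : 800 ≤ ε * Y := by
      rw [div_le_iff₀ hε] at hYε
      linarith
    have h7 : 200 * Y ^ 3 ≤ (ε * Y / 4) * Y ^ 3 := by
      apply mul_le_mul_of_nonneg_right _ (by positivity)
      linarith
    calc _ ≤ (ε * Y / 4) * Y ^ 3 := h7
      _ = _ := by ring
  have h8 : 4 * Y * (ε / 16 * Y ^ 3) = ε / 4 * Y ^ 4 := by ring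
  have h9 : 0 ≤ ε / 4 * Y ^ 4 := by positivity
  have h10 : ε * Y ^ 4 = ε / 4 * Y ^ 4 + ε / 4 * Y ^ 4 + ε / 4 * Y ^ 4 + ε / 4 * Y ^ 4 := by ring
  linarith
-- END cell_sum

variable (w2 : ℤ_[2] × ℤ_[2] → ℤ) (w3 : ℤ_[3] × ℤ_[3] → ℤ)

/-- the root number of minimal non singular pairs, else `0` -/
noncomputable def wm (x : ℤ × ℤ) : ℝ :=
  if Minimal (AA x.1 x.2) (B3 x.1 x.2) ∧ disc (AA x.1 x.2) (B3 x.1 x.2) ≠ 0 then (rootNumber w2 w3 (AA x.1 x.2) (B3 x.1 x.2) : ℝ) else 0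

-- BEGIN cell_bound
private theorem cell_bound3_wm (w2 : ℤ_[2] × ℤ_[2] → ℤ) (w3 : ℤ_[3] × ℤ_[3] → ℤ) (h2 : LocalSign 2 w2) (h3 : LocalSign 3 w3)
    (x : ℤ × ℤ) : |wm w2 w3 x| ≤ 1 := by
  unfold wm
  split_ifs
  · rcases rn_pm w2 w3 h2 h3 (AA x.1 x.2) (B3 x.1 x.2) with h | h <;> rw [h] <;> norm_num
  · simp

private theorem cell_bound3_mob (n : ℤ) : |mob n| ≤ 1 := by
  unfold mob
  have h := ArithmeticFunction.abs_moebius_le_one (n := n.natAbs)
  exact_mod_cast h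

private theorem cell_bound3_sg (σ : Bool) (k t k' t' : ℤ) (h : sg σ k t) (h' : sg σ k' t') :
    (nn k t).sign = (nn k' t').sign := by
  cases σ with
  | true =>
    simp only [sg, if_true] at h h'
    rw [Int.sign_eq_one_of_pos h, Int.sign_eq_one_of_pos h']
  | false =>
    simp only [sg, Bool.false_eq_true, if_false] at h h'
    rw [Int.sign_eq_neg_one_of_neg h, Int.sign_eq_neg_one_of_neg h']

/-- T2. Copy of `Rnt.cell_bound`. `M` from `ident`. If no pair of sign `σ` and class `(k₀, t₀)` is non exceptional, the sum is over exceptional pairs. Otherwise take such a pair `x*` (not depending on `Y`):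
`u = sm T t* = sm T t`, `v = sm T n* = sm T n` for all non exceptional `x` of the cell (`sm_congr` with `p^j ∣ PP T (4j+4) ∣ M`), `u, v ∣ M` (`sm_div`), `u ∣ t₀`, `v ∣ nn k₀ t₀`; by `ident` `wm x = Φ mob (t / u) mob (n / v)` for
the non exceptional `x` of the cell, with a constant `|Φ| ≤ 1`; `cell_sum`; `|wm| ≤ 1`, `|mob| ≤ 1` for the exceptional ones. -/
theorem cell_bound (h2 : LocalSign 2 w2) (h3 : LocalSign 3 w3) (T j : ℕ) (hT : 5 ≤ T) (hj : 1 ≤ j) :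
    ∃ M : ℕ, 0 < M ∧ ∀ (k₀ t₀ : ℤ), ∀ ε : ℝ, 0 < ε → ∀ (σ : Bool),
      ∃ Y₀ : ℝ, ∀ Y : ℝ, Y₀ ≤ Y →
        |∑ x ∈ Cell3 M k₀ t₀ σ Y, wm w2 w3 x| ≤
          ε * Y ^ 4 + 2 * (((Cell3 M k₀ t₀ σ Y).filter (fun x => Exc3 T j x.1 x.2)).card : ℝ) := by
  obtain ⟨M, hM, hPM, hid⟩ := ident w2 w3 h2 h3 T j hT hj
  refine ⟨M, hM, ?_⟩
  intro k₀ t₀ ε hε σ
  have hwm := cell_bound3_wm w2 w3 h2 h3
  by_cases hx : ∃ k t : ℤ, ¬ Exc3 T j k t ∧ (M : ℤ) ∣ k - k₀ ∧ (M : ℤ) ∣ t - t₀ ∧ sg σ k t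
  · obtain ⟨k, t, hE, hk, ht, hs⟩ := hx
    -- the primes at most `T`
    have hpow : ∀ p : ℕ, p.Prime → p ≤ T → p ^ j ∣ M := by
      intro p hp hpT
      refine dvd_trans ?_ hPM
      unfold PP
      refine dvd_trans (pow_dvd_pow p (show j ≤ 4 * j + 4 by omega)) ?_
      exact Finset.dvd_prod_of_mem (fun p => p ^ (4 * j + 4))
        (Finset.mem_filter.2 ⟨Finset.mem_range.2 (by omega), hp⟩)
    have hPP : PP T j ∣ M := by
      refine dvd_trans ?_ hPM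
      unfold PP
      exact Finset.prod_dvd_prod_of_dvd _ _ (fun p _ => pow_dvd_pow p (by omega))
    have ht0 : t ≠ 0 := fun h => hE (Or.inl h)
    have hn0 : nn k t ≠ 0 := fun h => hE (Or.inr (Or.inl h))
    have hEt : ∀ k t : ℤ, ¬ Exc3 T j k t → ∀ p : ℕ, p.Prime → p ≤ T → ¬ (p : ℤ) ^ j ∣ t := by
      intro k t hE p hp hpT h
      exact hE (Or.inr (Or.inr (Or.inr ⟨p, hp, hpT, Or.inl h⟩)))
    have hEn : ∀ k t : ℤ, ¬ Exc3 T j k t → ∀ p : ℕ, p.Prime → p ≤ T → ¬ (p : ℤ) ^ j ∣ nn k t := by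
      intro k t hE p hp hpT h
      exact hE (Or.inr (Or.inr (Or.inr ⟨p, hp, hpT, Or.inr h⟩)))
    have hcongn : ∀ k' t' : ℤ, (M : ℤ) ∣ k' - k → (M : ℤ) ∣ t' - t → (M : ℤ) ∣ nn k' t' - nn k t := by
      intro k' t' h h'
      have : nn k' t' - nn k t = (t' - t) + (k' - k) * (-4 * (k' ^ 2 + k' * k + k ^ 2)) := by
        unfold nn
        ring
      rw [this]
      exact dvd_add h' (Dvd.dvd.mul_right h _)
    have huM : sm T t ∣ M := (sm_div T j t ht0 (hEt k t hE)).trans hPP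
    have hvM : sm T (nn k t) ∣ M := (sm_div T j (nn k t) hn0 (hEn k t hE)).trans hPP
    have huM' : ((sm T t : ℕ) : ℤ) ∣ M := by exact_mod_cast huM
    have hvM' : ((sm T (nn k t) : ℕ) : ℤ) ∣ M := by exact_mod_cast hvM
    have hk' : (M : ℤ) ∣ k₀ - k := by
      have := (dvd_neg (α := ℤ)).2 hk
      rwa [neg_sub] at this
    have ht' : (M : ℤ) ∣ t₀ - t := by
      have := (dvd_neg (α := ℤ)).2 ht
      rwa [neg_sub] at this
    have hut : ((sm T t : ℕ) : ℤ) ∣ t₀ := by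
      have := dvd_add (huM'.trans ht') (sm_basic T t ht0).2.1
      rwa [sub_add_cancel] at this
    have hvn : ((sm T (nn k t) : ℕ) : ℤ) ∣ nn k₀ t₀ := by
      have := dvd_add (hvM'.trans (hcongn k₀ t₀ hk' ht')) (sm_basic T (nn k t) hn0).2.1
      rwa [sub_add_cancel] at this
    obtain ⟨Y₀, hY₀⟩ := cell_sum M (sm T t) (sm T (nn k t)) hM (sm_basic T t ht0).1
      (sm_basic T (nn k t) hn0).1 huM hvM k₀ t₀ hut hvn ε hε σ
    refine ⟨max Y₀ 1, fun Y hY => ?_⟩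
    have hY0 : Y₀ ≤ Y := le_trans (le_max_left _ _) hY
    have hY1 : 1 ≤ Y := le_trans (le_max_right _ _) hY
    have hsum := hY₀ Y hY0
    -- the constant
    obtain ⟨Φ, hΦ, hval⟩ : ∃ Φ : ℝ, |Φ| ≤ 1 ∧ ∀ x ∈ Cell3 M k₀ t₀ σ Y, ¬ Exc3 T j x.1 x.2 →
        wm w2 w3 x = Φ * (mob (x.2 / sm T t) * mob (nn x.1 x.2 / sm T (nn k t))) := by
      refine ⟨if Minimal (AA k t) (B3 k t) then (rootNumber w2 w3 (AA k t) (B3 k t) : ℝ) *
        mob (t / sm T t) * mob (nn k t / sm T (nn k t)) else 0, ?_, ?_⟩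
      · split_ifs
        · rw [abs_mul, abs_mul]
          have e1 : |(rootNumber w2 w3 (AA k t) (B3 k t) : ℝ)| = 1 := by
            rcases rn_pm w2 w3 h2 h3 (AA k t) (B3 k t) with h | h <;> rw [h] <;> norm_num
          rw [e1, one_mul]
          exact mul_le_one₀ (cell_bound3_mob _) (abs_nonneg _) (cell_bound3_mob _)
        · simp
      · intro x hxC hxE
        unfold Cell3 at hxC
        rw [Finset.mem_filter] at hxC
        obtain ⟨_, hx3, hx4, hx5⟩ := hxC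
        have hxk : (M : ℤ) ∣ x.1 - k := by
          have := dvd_sub hx4 hk
          rwa [sub_sub_sub_cancel_right] at this
        have hxt : (M : ℤ) ∣ x.2 - t := by
          have := dvd_sub hx5 ht
          rwa [sub_sub_sub_cancel_right] at this
        have hsn := cell_bound3_sg σ x.1 x.2 k t hx3 hs
        obtain ⟨k1, k2, k3, k4⟩ := hid x.1 x.2 k t hxE hE hxk hxt hsn
        have et : sm T x.2 = sm T t :=
          sm_congr T j M (fun p hp hpT => by exact_mod_cast hpow p hp hpT) _ _ hxt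
            (hEt x.1 x.2 hxE)
        have en : sm T (nn x.1 x.2) = sm T (nn k t) :=
          sm_congr T j M (fun p hp hpT => by exact_mod_cast hpow p hp hpT) _ _ (hcongn x.1 x.2 hxk hxt)
            (hEn x.1 x.2 hxE)
        rw [et, en] at k2
        rw [et] at k3
        rw [en] at k4
        have hd : disc (AA x.1 x.2) (B3 x.1 x.2) ≠ 0 := by
          rw [disc_eq]
          exact mul_ne_zero (mul_ne_zero (by norm_num) (pow_ne_zero 3 (fun h => hxE (Or.inl h))))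
            (fun h => hxE (Or.inr (Or.inl h)))
        unfold wm
        by_cases hmin : Minimal (AA x.1 x.2) (B3 x.1 x.2)
        · rw [if_pos ⟨hmin, hd⟩, if_pos (k1.1 hmin), ← k2]
          have : (rootNumber w2 w3 (AA x.1 x.2) (B3 x.1 x.2) : ℝ) * mob (x.2 / sm T t) *
              mob (nn x.1 x.2 / sm T (nn k t)) *
              (mob (x.2 / sm T t) * mob (nn x.1 x.2 / sm T (nn k t))) =
              (rootNumber w2 w3 (AA x.1 x.2) (B3 x.1 x.2) : ℝ) * (mob (x.2 / sm T t) ^ 2 *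
                mob (nn x.1 x.2 / sm T (nn k t)) ^ 2) := by ring
          rw [this, k3, k4, mul_one, mul_one]
        · rw [if_neg (fun h => hmin h.1), if_neg (fun h => hmin (k1.2 h)), zero_mul]
    -- the sum
    set g : ℤ × ℤ → ℝ := fun x => mob (x.2 / sm T t) * mob (nn x.1 x.2 / sm T (nn k t)) with hg
    have hg1 : ∀ x, |g x| ≤ 1 := by
      intro x
      rw [hg]
      simp only
      rw [abs_mul]
      exact mul_le_one₀ (cell_bound3_mob _) (abs_nonneg _) (cell_bound3_mob _)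
    have e1 : ∑ x ∈ Cell3 M k₀ t₀ σ Y, wm w2 w3 x =
        Φ * ∑ x ∈ Cell3 M k₀ t₀ σ Y, g x + ∑ x ∈ Cell3 M k₀ t₀ σ Y, (wm w2 w3 x - Φ * g x) := by
      rw [Finset.mul_sum, ← Finset.sum_add_distrib]
      exact Finset.sum_congr rfl (fun x _ => by ring)
    have e2 : ∑ x ∈ Cell3 M k₀ t₀ σ Y, (wm w2 w3 x - Φ * g x) =
        ∑ x ∈ (Cell3 M k₀ t₀ σ Y).filter (fun x => Exc3 T j x.1 x.2), (wm w2 w3 x - Φ * g x) := by
      rw [Finset.sum_filter_of_ne]
      intro x hx hne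
      by_contra hE'
      exact hne (by rw [hval x hx hE', sub_self])
    rw [e1, e2]
    have b1 : |Φ * ∑ x ∈ Cell3 M k₀ t₀ σ Y, g x| ≤ ε * Y ^ 4 := by
      rw [abs_mul]
      calc |Φ| * |∑ x ∈ Cell3 M k₀ t₀ σ Y, g x| ≤ 1 * |∑ x ∈ Cell3 M k₀ t₀ σ Y, g x| :=
            mul_le_mul_of_nonneg_right hΦ (abs_nonneg _)
        _ ≤ ε * Y ^ 4 := by rw [one_mul]; exact hsum
    have b2 : |∑ x ∈ (Cell3 M k₀ t₀ σ Y).filter (fun x => Exc3 T j x.1 x.2), (wm w2 w3 x - Φ * g x)| ≤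
        2 * (((Cell3 M k₀ t₀ σ Y).filter (fun x => Exc3 T j x.1 x.2)).card : ℝ) := by
      refine (Finset.abs_sum_le_sum_abs _ _).trans ?_
      have : ∀ x ∈ (Cell3 M k₀ t₀ σ Y).filter (fun x => Exc3 T j x.1 x.2), |wm w2 w3 x - Φ * g x| ≤ 2 := by
        intro x _
        have h1 := hwm x
        have h2' : |Φ * g x| ≤ 1 := by
          rw [abs_mul]
          exact mul_le_one₀ hΦ (abs_nonneg _) (hg1 x)
        have h3' := abs_sub (wm w2 w3 x) (Φ * g x)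
        linarith
      have h5 := Finset.sum_le_card_nsmul _ _ _ this
      rw [nsmul_eq_mul] at h5
      linarith
    exact (abs_add_le _ _).trans (add_le_add b1 b2)
  · refine ⟨1, fun Y hY => ?_⟩
    have hall : ∀ x ∈ Cell3 M k₀ t₀ σ Y, Exc3 T j x.1 x.2 := by
      intro x hxC
      by_contra hE
      unfold Cell3 at hxC
      rw [Finset.mem_filter] at hxC
      obtain ⟨_, hx3, hx4, hx5⟩ := hxC
      exact hx ⟨x.1, x.2, hE, hx4, hx5, hx3⟩
    rw [Finset.filter_true_of_mem hall]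
    refine (Finset.abs_sum_le_sum_abs _ _).trans ?_
    have h5 := Finset.sum_le_card_nsmul (Cell3 M k₀ t₀ σ Y) (fun x => |wm w2 w3 x|) 1 (fun x _ => hwm x)
    rw [nsmul_eq_mul, mul_one] at h5
    have h6 : 0 ≤ ε * Y ^ 4 := by positivity
    have h7 : (0 : ℝ) ≤ ((Cell3 M k₀ t₀ σ Y).card : ℝ) := Nat.cast_nonneg _
    linarith
-- END cell_bound

-- BEGIN split
private theorem split_res (M : ℕ) (hM : 0 < M) (z : ℤ) : ∃ a ∈ range M, (M : ℤ) ∣ z - (a : ℤ) ∧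
    ∀ a' ∈ range M, (M : ℤ) ∣ z - (a' : ℤ) → a' = a := by
  have hM' : (0 : ℤ) < M := by exact_mod_cast hM
  have h0 := Int.emod_nonneg z hM'.ne'
  have h1 := Int.emod_lt_of_pos z hM'
  have h2 : ((z % (M : ℤ)).toNat : ℤ) = z % M := Int.toNat_of_nonneg h0
  refine ⟨(z % (M : ℤ)).toNat, mem_range.2 (by omega), ?_, ?_⟩
  · rw [h2]
    exact ⟨z / M, by have := Int.emod_add_mul_ediv z M; linarith⟩
  · intro a' ha' hd
    have h3 := mem_range.1 ha'
    have h4 : ((a' : ℤ)) % M = z % M := by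
      apply Int.ModEq.symm
      exact (Int.modEq_iff_dvd.2 (by rw [← dvd_neg]; simpa using hd))
    have h5 : ((a' : ℤ)) % M = a' := Int.emod_eq_of_lt (by omega) (by omega)
    omega

private theorem split_sg (k t : ℤ) (h : disc (AA k t) (B3 k t) ≠ 0) :
    ∃ σ : Bool, sg σ k t ∧ ∀ σ' : Bool, sg σ' k t → σ' = σ := by
  have hn : nn k t ≠ 0 := by
    intro h0; apply h; rw [disc_eq, h0]; ring
  rcases lt_or_gt_of_ne hn with h1 | h1
  · refine ⟨false, ?_, ?_⟩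
    · simpa [sg] using h1
    · intro σ' h2
      cases σ'
      · rfl
      · have h3 : 0 < nn k t := by simpa [sg] using h2
        omega
  · refine ⟨true, ?_, ?_⟩
    · simpa [sg] using h1
    · intro σ' h2
      cases σ'
      · have h3 : nn k t < 0 := by simpa [sg] using h2
        omega
      · rfl

/-- T3. The pairs of `Reg3 Y` with `f ≠ 0` have `nn ≠ 0` (`disc_eq`) and are in exactly one cell with `0 ≤ k₀, t₀ < M`. -/
theorem split (M : ℕ) (hM : 0 < M) (Y : ℝ) (f : ℤ × ℤ → ℝ)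
    (hf : ∀ x : ℤ × ℤ, disc (AA x.1 x.2) (B3 x.1 x.2) = 0 → f x = 0) :
    ∑ x ∈ Reg3 Y, f x = ∑ a ∈ range M, ∑ c ∈ range M, ∑ σ : Bool, ∑ x ∈ Cell3 M a c σ Y, f x := by
  classical
  have key : ∀ x : ℤ × ℤ, f x = ∑ a ∈ range M, ∑ c ∈ range M, ∑ σ : Bool,
        (if sg σ x.1 x.2 ∧ (M : ℤ) ∣ x.1 - (a : ℤ) ∧ (M : ℤ) ∣ x.2 - (c : ℤ)
          then f x else 0) := by
    intro x
    by_cases hd : disc (AA x.1 x.2) (B3 x.1 x.2) = 0
    · simp [hf x hd]
    · obtain ⟨s0, hs0, hs1⟩ := split_sg x.1 x.2 hd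
      obtain ⟨a0, ha0, ha1, ha2⟩ := split_res M hM x.1
      obtain ⟨c0, hc0, hc1, hc2⟩ := split_res M hM x.2
      rw [Finset.sum_eq_single_of_mem a0 ha0, Finset.sum_eq_single_of_mem c0 hc0,
        Finset.sum_eq_single_of_mem s0 (mem_univ _), if_pos ⟨hs0, ha1, hc1⟩]
      · intro s _ hne
        exact if_neg (fun h => hne (hs1 s h.1))
      · intro c hc hne
        apply Finset.sum_eq_zero; intro s _
        exact if_neg (fun h => hne (hc2 c hc h.2.2))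
      · intro a ha hne
        apply Finset.sum_eq_zero; intro c _
        apply Finset.sum_eq_zero; intro s _
        exact if_neg (fun h => hne (ha2 a ha h.2.1))
  rw [Finset.sum_congr rfl (fun x _ => key x), Finset.sum_comm]
  apply Finset.sum_congr rfl; intro a _
  rw [Finset.sum_comm]
  apply Finset.sum_congr rfl; intro c _
  rw [Finset.sum_comm]
  apply Finset.sum_congr rfl; intro s _
  rw [Cell3, Finset.sum_filter]
-- END split

-- BEGIN main_sum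
private theorem main_sum_res (M : ℕ) (hM : 0 < M) (x : ℤ) (a : ℕ) (ha : a < M) (h : (M : ℤ) ∣ x - a) :
    (x % M).toNat = a := by
  have h1 : x % M = (a : ℤ) := by
    have h2 : x % M = (a : ℤ) % M := (Int.modEq_iff_dvd.2 h).symm
    rw [h2]
    exact Int.emod_eq_of_lt (by omega) (by omega)
  rw [h1]
  simp

private theorem main_sum_exc (M : ℕ) (hM : 0 < M) (Y : ℝ) (T j : ℕ) :
    ∑ a ∈ range M, ∑ c ∈ range M, ∑ σ : Bool,
      (((Cell3 M a c σ Y).filter (fun x => Exc3 T j x.1 x.2)).card : ℝ) ≤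
        (((Box3 Y).filter (fun x => Exc3 T j x.1 x.2)).card : ℝ) := by
  set S := (Box3 Y).filter (fun x => Exc3 T j x.1 x.2) with hS
  set i : ℤ × ℤ → ℕ × ℕ × Bool := fun x => ((x.1 % M).toNat, (x.2 % M).toNat, decide (0 < nn x.1 x.2)) with hi
  set Q : Finset (ℕ × ℕ × Bool) := range M ×ˢ (range M ×ˢ (Finset.univ : Finset Bool)) with hQ
  have hMZ : (0 : ℤ) < M := by exact_mod_cast hM
  have hlt : ∀ z : ℤ, (z % M).toNat < M := by
    intro z
    have h1 := Int.emod_lt_of_pos z hMZ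
    have h2 := Int.emod_nonneg z hMZ.ne'
    omega
  have hmap : Set.MapsTo i (S : Set (ℤ × ℤ)) (Q : Set (ℕ × ℕ × Bool)) := by
    intro x _
    rw [Finset.mem_coe, hQ, Finset.mem_product, Finset.mem_product]
    exact ⟨Finset.mem_range.2 (hlt _), Finset.mem_range.2 (hlt _), Finset.mem_univ _⟩
  have h1 := Finset.card_eq_sum_card_fiberwise hmap
  have h2 : ∑ a ∈ range M, ∑ c ∈ range M, ∑ σ : Bool,
      ((Cell3 M a c σ Y).filter (fun x => Exc3 T j x.1 x.2)).card =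
      ∑ b ∈ Q, ((Cell3 M b.1 b.2.1 b.2.2 Y).filter (fun x => Exc3 T j x.1 x.2)).card := by
    rw [hQ, Finset.sum_product]
    refine Finset.sum_congr rfl fun a _ => ?_
    rw [Finset.sum_product]
  have h3 : ∑ b ∈ Q, ((Cell3 M b.1 b.2.1 b.2.2 Y).filter (fun x => Exc3 T j x.1 x.2)).card ≤ S.card := by
    rw [h1]
    refine Finset.sum_le_sum fun b hb => Finset.card_le_card fun x hx => ?_
    obtain ⟨hx1, hx2⟩ := Finset.mem_filter.1 hx
    rw [hQ, Finset.mem_product, Finset.mem_product, Finset.mem_range, Finset.mem_range] at hb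
    unfold Cell3 at hx1
    obtain ⟨hx3, hx4, hx5, hx6⟩ := Finset.mem_filter.1 hx1
    refine Finset.mem_filter.2 ⟨Finset.mem_filter.2 ⟨?_, hx2⟩, ?_⟩
    · unfold Reg3 at hx3
      exact (Finset.mem_filter.1 hx3).1
    · rw [hi]
      refine Prod.ext (main_sum_res M hM _ _ hb.1 hx5) (Prod.ext (main_sum_res M hM _ _ hb.2.1 hx6) ?_)
      show decide (0 < nn x.1 x.2) = b.2.2
      unfold sg at hx4
      rcases h : b.2.2 with _ | _
      · rw [h] at hx4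
        simp only [Bool.false_eq_true, if_false] at hx4
        simp only [decide_eq_false_iff_not, not_lt]
        exact hx4.le
      · rw [h] at hx4
        simp only [if_true] at hx4
        simpa using hx4
  rw [← h2] at h3
  exact_mod_cast h3

private theorem main_sum_abs (h2 : LocalSign 2 w2) (h3 : LocalSign 3 w3) (x : ℤ × ℤ) : |wm w2 w3 x| ≤ 1 := by
  unfold wm
  split_ifs
  · rcases rn_pm w2 w3 h2 h3 (AA x.1 x.2) (B3 x.1 x.2) with h | h
    · rw [h]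
      norm_num
    · rw [h]
      norm_num
  · norm_num

/-- T4. Given `ε`: `T`, then `j` with `2 (266/T + 204T/2^j) ≤ ε/4`; `M` from `cell_bound`, applied with `ε / (16 M²)`; `split` with `f = wm`; the exceptional sets of the cells are disjoint subsets of the one of `exc_total`. -/
theorem main_sum (h2 : LocalSign 2 w2) (h3 : LocalSign 3 w3) (ε : ℝ) (hε : 0 < ε) :
    ∃ Y₀ : ℝ, ∀ Y : ℝ, Y₀ ≤ Y → |∑ x ∈ PR3 Y, (rootNumber w2 w3 (AA x.1 x.2) (B3 x.1 x.2) : ℝ)| ≤ ε * Y ^ 4 := by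
  obtain ⟨T₀, hT₀⟩ := exists_nat_ge (4256 / ε)
  set T : ℕ := T₀ + 5 with hT
  have hT5 : 5 ≤ T := by omega
  have hTpos : (0 : ℝ) < T := by
    have : 0 < T := by omega
    exact_mod_cast this
  have hTε : 2 * (266 / (T : ℝ)) ≤ ε / 8 := by
    have h4 : 4256 / ε ≤ (T : ℝ) := by
      rw [hT]
      push_cast
      linarith
    rw [div_le_iff₀ hε] at h4
    rw [mul_div_assoc', div_le_iff₀ hTpos]
    linarith
  obtain ⟨j₀, hj₀⟩ := pow_unbounded_of_one_lt (3264 * T / ε) (by norm_num : (1 : ℝ) < 2)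
  set j : ℕ := j₀ + 1 with hj
  have hjε : 2 * (204 * T / (2 : ℝ) ^ j) ≤ ε / 8 := by
    have h4 : (2 : ℝ) ^ j₀ ≤ 2 ^ j := pow_le_pow_right₀ (by norm_num) (by omega)
    have h5 : 3264 * T / ε ≤ (2 : ℝ) ^ j := by linarith
    rw [div_le_iff₀ hε] at h5
    rw [mul_div_assoc', div_le_iff₀ (by positivity)]
    linarith
  obtain ⟨M, hM, hcell⟩ := cell_bound w2 w3 h2 h3 T j hT5 (by omega)
  have hMR : (0 : ℝ) < M := by exact_mod_cast hM
  set e : ℝ := ε / (16 * M ^ 2) with he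
  have he0 : 0 < e := by positivity
  have hev : ∀ᶠ Y : ℝ in atTop, ∀ a ∈ range M, ∀ c ∈ range M, ∀ (σ : Bool),
      |∑ x ∈ Cell3 M a c σ Y, wm w2 w3 x| ≤
        e * Y ^ 4 + 2 * (((Cell3 M a c σ Y).filter (fun x => Exc3 T j x.1 x.2)).card : ℝ) := by
    refine (Filter.eventually_all_finset _).2 fun a _ => (Filter.eventually_all_finset _).2 fun c _ =>
      Filter.eventually_all.2 fun σ => ?_
    obtain ⟨Y₀, hY₀⟩ := hcell a c e he0 σ
    exact Filter.eventually_atTop.2 ⟨Y₀, hY₀⟩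
  obtain ⟨Y₁, hY₁⟩ := Filter.eventually_atTop.1 hev
  refine ⟨max Y₁ (max 1 (160 / ε)), fun Y hY => ?_⟩
  have hYY1 : Y₁ ≤ Y := (le_max_left _ _).trans hY
  have hY1 : 1 ≤ Y := ((le_max_left _ _).trans (le_max_right _ _)).trans hY
  have hY2 : 160 / ε ≤ Y := ((le_max_right _ _).trans (le_max_right _ _)).trans hY
  have hY0 : 0 < Y := by linarith
  have hb := hY₁ Y hYY1
  have hsum : ∑ x ∈ PR3 Y, (rootNumber w2 w3 (AA x.1 x.2) (B3 x.1 x.2) : ℝ) = ∑ x ∈ Reg3 Y, wm w2 w3 x := by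
    unfold PR3
    rw [Finset.sum_filter]
    rfl
  have hsp := split M hM Y (wm w2 w3) (by
    intro x hx
    unfold wm
    rw [if_neg]
    rintro ⟨-, h⟩
    exact h hx)
  rw [hsum, hsp]
  have hs2 : |∑ a ∈ range M, ∑ c ∈ range M, ∑ σ : Bool, ∑ x ∈ Cell3 M a c σ Y, wm w2 w3 x| ≤
      ∑ a ∈ range M, ∑ c ∈ range M, ∑ σ : Bool,
        (e * Y ^ 4 + 2 * (((Cell3 M a c σ Y).filter (fun x => Exc3 T j x.1 x.2)).card : ℝ)) := by
    refine (Finset.abs_sum_le_sum_abs _ _).trans (Finset.sum_le_sum fun a ha => ?_)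
    refine (Finset.abs_sum_le_sum_abs _ _).trans (Finset.sum_le_sum fun c hc => ?_)
    refine (Finset.abs_sum_le_sum_abs _ _).trans (Finset.sum_le_sum fun σ _ => ?_)
    exact hb a ha c hc σ
  have hs3 : ∑ a ∈ range M, ∑ c ∈ range M, ∑ σ : Bool,
        (e * Y ^ 4 + 2 * (((Cell3 M a c σ Y).filter (fun x => Exc3 T j x.1 x.2)).card : ℝ)) =
      2 * M ^ 2 * (e * Y ^ 4) + 2 * ∑ a ∈ range M, ∑ c ∈ range M, ∑ σ : Bool,
        (((Cell3 M a c σ Y).filter (fun x => Exc3 T j x.1 x.2)).card : ℝ) := by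
    simp only [Finset.sum_add_distrib, ← Finset.mul_sum, Finset.sum_const, Finset.card_univ, Fintype.card_bool,
      nsmul_eq_mul, Finset.card_range]
    push_cast
    ring
  have hs4 := main_sum_exc M hM Y T j
  have hs5 := exc_total Y hY1 T j (by omega)
  have hs6 : 2 * (M : ℝ) ^ 2 * (e * Y ^ 4) = ε / 8 * Y ^ 4 := by
    rw [he]
    field_simp
    ring
  have hY4 : 0 < Y ^ 4 := by positivity
  have hY3 : 0 < Y ^ 3 := by positivity
  have hs7 : 80 * Y ^ 3 ≤ ε / 2 * Y ^ 4 := by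
    rw [div_le_iff₀ hε] at hY2
    nlinarith
  have hs8 : 2 * ((266 / (T : ℝ) + 204 * T / 2 ^ j) * Y ^ 4) ≤ ε / 4 * Y ^ 4 := by
    nlinarith
  rw [hs3] at hs2
  rw [hs6] at hs2
  have hs9 : 0 ≤ ε / 8 * Y ^ 4 := by positivity
  linarith
-- END main_sum

-- BEGIN final
private theorem final_count (h2 : LocalSign 2 w2) (h3 : LocalSign 3 w3) (F : Finset (ℤ × ℤ)) :
    ∑ E ∈ F, (rootNumber w2 w3 E.1 E.2 : ℝ) =
      2 * ((F.filter (fun E => rootNumber w2 w3 E.1 E.2 = 1)).card : ℝ) - F.card := by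
  have h1 : ∀ E ∈ F, (rootNumber w2 w3 E.1 E.2 : ℝ) =
      2 * (if rootNumber w2 w3 E.1 E.2 = 1 then (1 : ℝ) else 0) - 1 := by
    intro E _
    rcases rn_pm w2 w3 h2 h3 E.1 E.2 with h | h
    · rw [if_pos h, h]
      norm_num
    · rw [if_neg (by rw [h]; norm_num), h]
      norm_num
  rw [Finset.sum_congr rfl h1, Finset.sum_sub_distrib, ← Finset.mul_sum, Finset.sum_boole,
    Finset.sum_const, nsmul_eq_mul, mul_one]

/-- T5. `Y = X^(1/12)`. `#{w = 1} = (#F + ∑ w)/2` (`Rnt.rn_pm`); `fam_sum` for `f = rootNumber` and `f = 1`; `main_sum`, `low`. -/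
theorem final (h2 : LocalSign 2 w2) (h3 : LocalSign 3 w3) :
    Tendsto (fun X : ℝ => ({E ∈ Fam3 X | rootNumber w2 w3 E.1 E.2 = 1}.ncard : ℝ) / (Fam3 X).ncard) atTop (𝓝 (1 / 2)) := by
  rw [Metric.tendsto_atTop]
  intro ε hε
  set e : ℝ := ε / 64 with he
  have hepos : 0 < e := by positivity
  obtain ⟨Y₁, hY₁⟩ := main_sum w2 w3 h2 h3 e hepos
  obtain ⟨Y₂, hY₂⟩ := low
  set Z : ℝ := max (max Y₁ Y₂) 1 with hZ
  have hZ1 : 1 ≤ Z := le_max_right _ _
  refine ⟨Z ^ 12, fun X hX => ?_⟩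
  have hZpos : (0 : ℝ) < Z := by linarith
  have hX0 : 0 < X := lt_of_lt_of_le (by positivity) hX
  set Y : ℝ := X ^ ((1 : ℝ) / 12) with hYdef
  have hYpos : 0 < Y := Real.rpow_pos_of_pos hX0 _
  have hY12 : Y ^ 12 = X := by
    rw [hYdef, ← Real.rpow_natCast, ← Real.rpow_mul hX0.le]
    norm_num
  have hZY : Z ≤ Y := by
    rw [← hY12] at hX
    exact le_of_pow_le_pow_left₀ (by norm_num) hYpos.le hX
  have hYZ1 : Y₁ ≤ Y := ((le_max_left _ _).trans (le_max_left _ _)).trans hZY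
  have hYZ2 : Y₂ ≤ Y := ((le_max_right _ _).trans (le_max_left _ _)).trans hZY
  obtain ⟨F, hF, hsum⟩ := fam_sum Y hYpos.le
  rw [hY12] at hF
  have hc1 : (Fam3 X).ncard = F.card := by
    rw [← hF, Set.ncard_coe_finset]
  have hc2 : {E ∈ Fam3 X | rootNumber w2 w3 E.1 E.2 = 1}.ncard =
      (F.filter (fun E => rootNumber w2 w3 E.1 E.2 = 1)).card := by
    rw [← Set.ncard_coe_finset]
    congr 1
    ext E
    rw [← hF]
    simp
  have hs1 := hsum (fun E => (rootNumber w2 w3 E.1 E.2 : ℝ))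
  have hs2 := hsum (fun _ => (1 : ℝ))
  have hs3 := hY₁ Y hYZ1
  have hs4 := hY₂ Y hYZ2
  rw [Finset.sum_const, Finset.sum_const, nsmul_eq_mul, nsmul_eq_mul, mul_one, mul_one] at hs2
  have hcnt := final_count w2 w3 h2 h3 F
  set P : ℝ := ∑ x ∈ PR3 Y, (rootNumber w2 w3 (AA x.1 x.2) (B3 x.1 x.2) : ℝ) with hP
  set S : ℝ := ∑ E ∈ F, (rootNumber w2 w3 E.1 E.2 : ℝ) with hS
  have hs1' : S = P / 2 := hs1
  have hFlow : Y ^ 4 / 64 ≤ (F.card : ℝ) := by
    rw [hs2]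
    linarith
  have hSle : |S| ≤ e * Y ^ 4 := by
    rw [hs1', abs_div, abs_of_pos (by norm_num : (0 : ℝ) < 2)]
    have : 0 ≤ e * Y ^ 4 := by positivity
    linarith
  have hY4 : 0 < Y ^ 4 := by positivity
  have hFpos : 0 < (F.card : ℝ) := lt_of_lt_of_le (by positivity) hFlow
  rw [hc1, hc2, Real.dist_eq]
  have hq : (((F.filter (fun E => rootNumber w2 w3 E.1 E.2 = 1)).card : ℝ)) / (F.card : ℝ) - 1 / 2 =
      S / (2 * F.card) := by
    rw [hcnt]
    field_simp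
  rw [hq, abs_div, abs_of_pos (by positivity : (0 : ℝ) < 2 * F.card), div_lt_iff₀ (by positivity)]
  have h9 : e * Y ^ 4 < ε * (2 * (Y ^ 4 / 64)) := by
    rw [he]
    nlinarith
  have h10 : ε * (2 * (Y ^ 4 / 64)) ≤ ε * (2 * F.card) := by
    apply mul_le_mul_of_nonneg_left _ hε.le
    linarith
  linarith
-- END final

end Rn3
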