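import Pool.Agent.Rnt.Defs

/-!
# Root numbers of elliptic curves over `ℚ` with a rational point of order 3 (MP_b8563d_nt): definitions

`disc`, `wp`, `LocalSign`, `rootNumber`, `Minimal` are those of `Pool.Agent.Rnt.Defs`.
-/

set_option autoImplicit false

namespace Rn3

open Finset Filter Topology Rnt

/-- The elliptic curves over `ℚ` with a rational point of order `3` and of naive height at most `X`, up to isomorphism: the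
pairs `(A, B)` with `Minimal A B`, `4A³ + 27B² ≠ 0`, `max(4|A|³, 27B²) ≤ X` such that `y² = x³ + Ax + B` has a rational
point `(x, y)` whose `x` is a root of the `3`-division polynomial `3x⁴ + 6Ax² + 12Bx - A²`. -/
def Fam3 (X : ℝ) : Set (ℤ × ℤ) :=
  {E | Minimal E.1 E.2 ∧ disc E.1 E.2 ≠ 0 ∧
    (∃ x y : ℚ, y ^ 2 = x ^ 3 + E.1 * x + E.2 ∧ 3 * x ^ 4 + 6 * E.1 * x ^ 2 + 12 * E.2 * x - (E.1 : ℚ) ^ 2 = 0) ∧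
    4 * |(E.1 : ℝ)| ^ 3 ≤ X ∧ 27 * (E.2 : ℝ) ^ 2 ≤ X}

/-! ## Auxiliary definitions -/

/-- `A = 6kt - 27k⁴` -/
def AA (k t : ℤ) : ℤ := 6 * k * t - 27 * k ^ 4

/-- `B = t² - 18k³t + 54k⁶` -/
def B3 (k t : ℤ) : ℤ := t ^ 2 - 18 * k ^ 3 * t + 54 * k ^ 6

/-- `n = t - 4k³` -/
def nn (k t : ℤ) : ℤ := t - 4 * k ^ 3

theorem disc_eq (k t : ℤ) : disc (AA k t) (B3 k t) = 27 * t ^ 3 * nn k t := by
  unfold disc AA B3 nn; ring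

/-- exceptional pairs -/
def Exc3 (T j : ℕ) (k t : ℤ) : Prop :=
  t = 0 ∨ nn k t = 0 ∨
  (∃ p : ℕ, p.Prime ∧ T < p ∧ (((p : ℤ) ∣ k ∧ (p : ℤ) ∣ t) ∨ (p : ℤ) ^ 2 ∣ t ∨ (p : ℤ) ^ 2 ∣ nn k t)) ∨
  (∃ p : ℕ, p.Prime ∧ p ≤ T ∧ ((p : ℤ) ^ j ∣ t ∨ (p : ℤ) ^ j ∣ nn k t))

/-- the box `|k| ≤ Y`, `|t| ≤ 15 Y³` -/
noncomputable def Box3 (Y : ℝ) : Finset (ℤ × ℤ) := (Icc (-⌊Y⌋) ⌊Y⌋) ×ˢ (Icc (-⌊15 * Y ^ 3⌋) ⌊15 * Y ^ 3⌋)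

open Classical in
/-- The pairs `(k, t)` of height at most `Y¹²`. -/
noncomputable def Reg3 (Y : ℝ) : Finset (ℤ × ℤ) :=
  (Box3 Y).filter (fun x => 4 * |((AA x.1 x.2 : ℤ) : ℝ)| ^ 3 ≤ Y ^ 12 ∧ 27 * ((B3 x.1 x.2 : ℤ) : ℝ) ^ 2 ≤ Y ^ 12)

open Classical in
/-- the pairs `(k, t)` of the curves of the family -/
noncomputable def PR3 (Y : ℝ) : Finset (ℤ × ℤ) :=
  (Reg3 Y).filter (fun x => Minimal (AA x.1 x.2) (B3 x.1 x.2) ∧ disc (AA x.1 x.2) (B3 x.1 x.2) ≠ 0)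

/-- the two possible signs of `n = t - 4k³` -/
def sg (σ : Bool) (k t : ℤ) : Prop := if σ then 0 < nn k t else nn k t < 0

open Classical in
/-- the cells: sign of `n`, residue classes -/
noncomputable def Cell3 (M : ℕ) (k₀ t₀ : ℤ) (σ : Bool) (Y : ℝ) : Finset (ℤ × ℤ) :=
  (Reg3 Y).filter (fun x => sg σ x.1 x.2 ∧ (M : ℤ) ∣ x.1 - k₀ ∧ (M : ℤ) ∣ x.2 - t₀)

end Rn3
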