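import Pool.Agent.Rnt.Ana
import Pool.Agent.Rn3.Defs

/-!
# Rn3 INP: the two inputs from Rnt ANA
-/

set_option autoImplicit false

namespace Rn3

open Finset Filter Topology Rnt

theorem ap3 (M v D : ℕ) (hM : 0 < M) (hv : 0 < v) (hD : 0 < D) (n₀ : ℤ) (ε : ℝ) (hε : 0 < ε) :
    ∃ J₀ : ℕ, ∀ J : ℕ, J₀ ≤ J → ∃ N₀ : ℕ, ∀ N : ℕ, N₀ ≤ N →
      ∑ m ∈ Icc (-(N : ℤ)) N, |∑ i ∈ range J, gg M v n₀ (m + D * i)| ≤ ε * N * J :=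
  Rnt.ap3 M v D hM hv hD n₀ ε hε

theorem vdc (R : ℤ) (H K : ℕ) (x : ℤ → ℝ) (hx : ∀ r, r ∉ Ioc R (R + H) → x r = 0) :
    (K : ℝ) ^ 2 * (∑ r ∈ Ioc R (R + H), x r) ^ 2 ≤
      (H + K) * (K * ∑ r ∈ Ioc R (R + H), x r ^ 2 +
        2 * ∑ h ∈ Ico 1 K, ((K : ℝ) - h) * ∑ r ∈ Ioc R (R + H), x r * x (r + h)) :=
  Rnt.vdc R H K x hx

/-- `|gg| ≤ 1` -/
theorem gg_le (M u : ℕ) (n₀ n : ℤ) : |gg M u n₀ n| ≤ 1 := by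
  unfold gg mob
  split_ifs with h
  · have h1 : |ArithmeticFunction.moebius (n / u).natAbs| ≤ 1 := ArithmeticFunction.abs_moebius_le_one
    exact_mod_cast h1
  · simp

end Rn3
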