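import Pool.Agent.Rn3.Defs
import Pool.Agent.Rnt.Cnt

/-!
# Rn3 REG: the region
-/

set_option autoImplicit false

namespace Rn3

open Finset Filter Topology Rnt

open scoped Classical

/-- `4|A|³ ≤ Y¹²` iff `|A| ≤ al Y⁴` -/
noncomputable def al : ℝ := (1 / 4 : ℝ) ^ ((1 : ℝ) / 3)

/-- `27B² ≤ Y¹²` iff `|B| ≤ be Y⁶` -/
noncomputable def be : ℝ := Real.sqrt (1 / 27)

/-- the region: `|t| ≤ 15 Y³`, height conditions, sign of `n` -/
def InR (σ : Bool) (Y : ℝ) (k t : ℤ) : Prop :=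
  |(t : ℝ)| ≤ 15 * Y ^ 3 ∧ 4 * |((AA k t : ℤ) : ℝ)| ^ 3 ≤ Y ^ 12 ∧ 27 * ((B3 k t : ℤ) : ℝ) ^ 2 ≤ Y ^ 12 ∧ sg σ k t

/-- the larger box `|k| ≤ 2Y`, `|t| ≤ 15 Y³` -/
noncomputable def Bx (Y : ℝ) : Finset (ℤ × ℤ) := (Icc (-⌊2 * Y⌋) ⌊2 * Y⌋) ×ˢ (Icc (-⌊15 * Y ^ 3⌋) ⌊15 * Y ^ 3⌋)

/-- the pairs near the boundary of the region -/
noncomputable def Near (η Y : ℝ) : Finset (ℤ × ℤ) :=
  (Bx Y).filter (fun x => |(|((AA x.1 x.2 : ℤ) : ℝ)| - al * Y ^ 4)| ≤ η * Y ^ 4 ∨ |(|((B3 x.1 x.2 : ℤ) : ℝ)| - be * Y ^ 6)| ≤ η * Y ^ 6 ∨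
    |((nn x.1 x.2 : ℤ) : ℝ)| ≤ η * Y ^ 3)

-- BEGIN A_iff
theorem A_iff_al : al ^ 3 = 1 / 4 := by
  unfold al
  rw [← Real.rpow_natCast, ← Real.rpow_mul (by norm_num)]
  norm_num

theorem A_iff_be : be ^ 2 = 1 / 27 := by
  unfold be
  exact Real.sq_sqrt (by norm_num)

/-- R1. `al ^ 3 = 1/4`, `be ^ 2 = 1/27`. -/
theorem A_iff (Y : ℝ) (hY : 0 ≤ Y) (a b : ℝ) :
    (4 * |a| ^ 3 ≤ Y ^ 12 ↔ |a| ≤ al * Y ^ 4) ∧ (27 * b ^ 2 ≤ Y ^ 12 ↔ |b| ≤ be * Y ^ 6) := by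
  have hal : 0 ≤ al := by unfold al; positivity
  have hbe : 0 ≤ be := by unfold be; positivity
  constructor
  · rw [← pow_le_pow_iff_left₀ (abs_nonneg a) (mul_nonneg hal (pow_nonneg hY 4)) (three_ne_zero)]
    have h1 : (al * Y ^ 4) ^ 3 = Y ^ 12 / 4 := by
      rw [mul_pow, A_iff_al]
      ring
    rw [h1, le_div_iff₀ (by norm_num)]
    constructor <;> intro h <;> linarith
  · rw [← pow_le_pow_iff_left₀ (abs_nonneg b) (mul_nonneg hbe (pow_nonneg hY 6)) (two_ne_zero)]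
    have h1 : (be * Y ^ 6) ^ 2 = Y ^ 12 / 27 := by
      rw [mul_pow, A_iff_be]
      ring
    rw [h1, sq_abs, le_div_iff₀ (by norm_num)]
    constructor <;> intro h <;> linarith
-- END A_iff

-- BEGIN lip
/-- R2. `A(k,t) - A(κ,t) = 6(k-κ)t - 27(k⁴-κ⁴)`, `|k⁴-κ⁴| ≤ 32 d Y³`: `954 d Y³`; `18|t||k³-κ³| ≤ 18·15·12 d Y⁵`, `54|k⁶-κ⁶| ≤ 54·192 d Y⁵`: `13608 d Y⁵`; `4|k³-κ³| ≤ 48 d Y²`. -/
theorem lip (Y d : ℝ) (hY : 1 ≤ Y) (k κ t : ℤ) (hk : |(k : ℝ)| ≤ 2 * Y) (hκ : |(κ : ℝ)| ≤ 2 * Y) (hd : |(k : ℝ) - κ| ≤ d)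
    (ht : |(t : ℝ)| ≤ 15 * Y ^ 3) :
    |((AA k t : ℤ) : ℝ) - (AA κ t : ℤ)| ≤ 1000 * d * Y ^ 3 ∧ |((B3 k t : ℤ) : ℝ) - (B3 κ t : ℤ)| ≤ 14000 * d * Y ^ 5 ∧
      |((nn k t : ℤ) : ℝ) - (nn κ t : ℤ)| ≤ 50 * d * Y ^ 2 := by
  have hY0 : 0 ≤ Y := by linarith
  have hd0 : 0 ≤ d := (abs_nonneg _).trans hd
  set x : ℝ := (k : ℝ) with hx
  set y : ℝ := (κ : ℝ) with hy
  set s : ℝ := (t : ℝ) with hs
  have hx2 : x ^ 2 ≤ (2 * Y) ^ 2 := by
    rw [← sq_abs x]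
    exact pow_le_pow_left₀ (abs_nonneg x) hk 2
  have hy2 : y ^ 2 ≤ (2 * Y) ^ 2 := by
    rw [← sq_abs y]
    exact pow_le_pow_left₀ (abs_nonneg y) hκ 2
  have hxy : |x * y| ≤ (2 * Y) ^ 2 := by
    rw [abs_mul, sq]
    exact mul_le_mul hk hκ (abs_nonneg y) (by linarith)
  have h3 : |x ^ 3 - y ^ 3| ≤ 12 * d * Y ^ 2 := by
    have e : x ^ 3 - y ^ 3 = (x - y) * (x ^ 2 + x * y + y ^ 2) := by ring
    rw [e, abs_mul]
    have h4 : |x ^ 2 + x * y + y ^ 2| ≤ 12 * Y ^ 2 := by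
      rw [abs_le] at hxy ⊢
      constructor <;> nlinarith [sq_nonneg x, sq_nonneg y, sq_nonneg (x + y)]
    calc |x - y| * |x ^ 2 + x * y + y ^ 2| ≤ d * (12 * Y ^ 2) := mul_le_mul hd h4 (abs_nonneg _) hd0
      _ = 12 * d * Y ^ 2 := by ring
  have h4 : |x ^ 4 - y ^ 4| ≤ 32 * d * Y ^ 3 := by
    have e : x ^ 4 - y ^ 4 = (x - y) * ((x + y) * (x ^ 2 + y ^ 2)) := by ring
    rw [e, abs_mul, abs_mul]
    have h5 : |x + y| ≤ 4 * Y := (abs_add_le x y).trans (by linarith)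
    have h6 : |x ^ 2 + y ^ 2| ≤ 8 * Y ^ 2 := by
      rw [abs_of_nonneg (by positivity)]
      nlinarith
    calc |x - y| * (|x + y| * |x ^ 2 + y ^ 2|) ≤ d * (4 * Y * (8 * Y ^ 2)) :=
          mul_le_mul hd (mul_le_mul h5 h6 (abs_nonneg _) (by positivity)) (by positivity) hd0
      _ = 32 * d * Y ^ 3 := by ring
  have hx3 : |x ^ 3 + y ^ 3| ≤ 16 * Y ^ 3 := by
    have h5 : |x ^ 3| ≤ (2 * Y) ^ 3 := by
      rw [abs_pow]
      exact pow_le_pow_left₀ (abs_nonneg x) hk 3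
    have h6 : |y ^ 3| ≤ (2 * Y) ^ 3 := by
      rw [abs_pow]
      exact pow_le_pow_left₀ (abs_nonneg y) hκ 3
    calc |x ^ 3 + y ^ 3| ≤ |x ^ 3| + |y ^ 3| := abs_add_le _ _
      _ ≤ (2 * Y) ^ 3 + (2 * Y) ^ 3 := add_le_add h5 h6
      _ = 16 * Y ^ 3 := by ring
  have h6 : |x ^ 6 - y ^ 6| ≤ 192 * d * Y ^ 5 := by
    have e : x ^ 6 - y ^ 6 = (x ^ 3 - y ^ 3) * (x ^ 3 + y ^ 3) := by ring
    rw [e, abs_mul]
    calc |x ^ 3 - y ^ 3| * |x ^ 3 + y ^ 3| ≤ (12 * d * Y ^ 2) * (16 * Y ^ 3) :=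
          mul_le_mul h3 hx3 (abs_nonneg _) (by positivity)
      _ = 192 * d * Y ^ 5 := by ring
  refine ⟨?_, ?_, ?_⟩
  · have e : ((AA k t : ℤ) : ℝ) - (AA κ t : ℤ) = 6 * ((x - y) * s) - 27 * (x ^ 4 - y ^ 4) := by
      unfold AA
      push_cast
      ring
    have h7 : |(x - y) * s| ≤ d * (15 * Y ^ 3) := by
      rw [abs_mul]
      exact mul_le_mul hd ht (abs_nonneg _) hd0
    have h8 : 0 ≤ d * Y ^ 3 := by positivity
    rw [e]
    rw [abs_le] at h7 h4 ⊢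
    constructor <;> linarith
  · have e : ((B3 k t : ℤ) : ℝ) - (B3 κ t : ℤ) = -(18 * ((x ^ 3 - y ^ 3) * s)) + 54 * (x ^ 6 - y ^ 6) := by
      unfold B3
      push_cast
      ring
    have h7 : |(x ^ 3 - y ^ 3) * s| ≤ 180 * d * Y ^ 5 := by
      rw [abs_mul]
      calc |x ^ 3 - y ^ 3| * |s| ≤ (12 * d * Y ^ 2) * (15 * Y ^ 3) :=
            mul_le_mul h3 ht (abs_nonneg _) (by positivity)
        _ = 180 * d * Y ^ 5 := by ring
    have h8 : 0 ≤ d * Y ^ 5 := by positivity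
    rw [e]
    rw [abs_le] at h7 h6 ⊢
    constructor <;> linarith
  · have e : ((nn k t : ℤ) : ℝ) - (nn κ t : ℤ) = -(4 * (x ^ 3 - y ^ 3)) := by
      unfold nn
      push_cast
      ring
    have h8 : 0 ≤ d * Y ^ 2 := by positivity
    rw [e]
    rw [abs_le] at h3 ⊢
    constructor <;> linarith
-- END lip

-- BEGIN near_diff
private theorem near_diff_abs (a b c w e : ℝ) (h1 : w < |(|a| - c)|) (h2 : |a - b| ≤ e) (h3 : e ≤ w) :
    (|a| ≤ c ↔ |b| ≤ c) := by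
  have h4 : |(|a| - |b|)| ≤ e := le_trans (abs_abs_sub_abs_le_abs_sub a b) h2
  rw [abs_le] at h4
  rcases lt_abs.1 h1 with h5 | h5
  · constructor
    · intro h6; linarith [h4.1, h4.2]
    · intro h6; linarith [h4.1, h4.2]
  · constructor
    · intro h6; linarith [h4.1, h4.2]
    · intro h6; linarith [h4.1, h4.2]

/-- R3. -/
theorem near_diff (d η : ℝ) (hd : 0 ≤ d) (hη : 0 < η) : ∃ Y₀ : ℝ, ∀ Y : ℝ, Y₀ ≤ Y → ∀ (σ : Bool) (k κ t : ℤ), |(k : ℝ)| ≤ 2 * Y →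
      |(κ : ℝ)| ≤ 2 * Y → |(k : ℝ) - κ| ≤ d → |(t : ℝ)| ≤ 15 * Y ^ 3 →
      (InR σ Y k t ↔ InR σ Y κ t) ∨ (k, t) ∈ Near η Y := by
  refine ⟨max 1 (14000 * d / η), fun Y hY σ k κ t hk hκ hkκ ht => ?_⟩
  have hY1 : 1 ≤ Y := le_trans (le_max_left _ _) hY
  have hY2 : 14000 * d / η ≤ Y := le_trans (le_max_right _ _) hY
  have hY0 : 0 ≤ Y := by linarith
  have hY3 : 14000 * d ≤ η * Y := by
    rw [div_le_iff₀ hη] at hY2
    linarith
  by_cases hmem : (k, t) ∈ Near η Y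
  · exact Or.inr hmem
  left
  obtain ⟨hA, hB, hn⟩ := lip Y d hY1 k κ t hk hκ hkκ ht
  have hBx : (k, t) ∈ Bx Y := by
    simp only [Bx, Finset.mem_product, Finset.mem_Icc]
    rw [abs_le] at hk ht
    refine ⟨⟨?_, ?_⟩, ⟨?_, ?_⟩⟩
    · rw [neg_le]
      apply Int.le_floor.2
      push_cast
      linarith
    · apply Int.le_floor.2
      linarith
    · rw [neg_le]
      apply Int.le_floor.2
      push_cast
      linarith
    · apply Int.le_floor.2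
      linarith
  simp only [Near, Finset.mem_filter, not_and, not_or, not_le] at hmem
  obtain ⟨h1, h2, h3⟩ := hmem hBx
  have e1 : 1000 * d * Y ^ 3 ≤ η * Y ^ 4 := by
    have : 1000 * d ≤ η * Y := by nlinarith
    calc 1000 * d * Y ^ 3 ≤ (η * Y) * Y ^ 3 := mul_le_mul_of_nonneg_right this (by positivity)
      _ = η * Y ^ 4 := by ring
  have e2 : 14000 * d * Y ^ 5 ≤ η * Y ^ 6 := by
    calc 14000 * d * Y ^ 5 ≤ (η * Y) * Y ^ 5 := mul_le_mul_of_nonneg_right hY3 (by positivity)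
      _ = η * Y ^ 6 := by ring
  have e3 : 50 * d * Y ^ 2 ≤ η * Y ^ 3 := by
    have : 50 * d ≤ η * Y := by nlinarith
    calc 50 * d * Y ^ 2 ≤ (η * Y) * Y ^ 2 := mul_le_mul_of_nonneg_right this (by positivity)
      _ = η * Y ^ 3 := by ring
  have iA := near_diff_abs _ _ _ _ _ h1 hA e1
  have iB := near_diff_abs _ _ _ _ _ h2 hB e2
  have iA1 := (A_iff Y hY0 ((AA k t : ℤ) : ℝ) ((B3 k t : ℤ) : ℝ)).1
  have iA2 := (A_iff Y hY0 ((AA κ t : ℤ) : ℝ) ((B3 κ t : ℤ) : ℝ)).1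
  have iB1 := (A_iff Y hY0 ((AA k t : ℤ) : ℝ) ((B3 k t : ℤ) : ℝ)).2
  have iB2 := (A_iff Y hY0 ((AA κ t : ℤ) : ℝ) ((B3 κ t : ℤ) : ℝ)).2
  have hs : sg σ k t ↔ sg σ κ t := by
    have h4 : (0 < nn k t ↔ 0 < nn κ t) ∧ (nn k t < 0 ↔ nn κ t < 0) := by
      rw [abs_le] at hn
      have c1 : (0 < nn k t ↔ (0 : ℝ) < ((nn k t : ℤ) : ℝ)) := by exact_mod_cast Iff.rfl
      have c2 : (0 < nn κ t ↔ (0 : ℝ) < ((nn κ t : ℤ) : ℝ)) := by exact_mod_cast Iff.rfl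
      have c3 : (nn k t < 0 ↔ ((nn k t : ℤ) : ℝ) < 0) := by exact_mod_cast Iff.rfl
      have c4 : (nn κ t < 0 ↔ ((nn κ t : ℤ) : ℝ) < 0) := by exact_mod_cast Iff.rfl
      rw [c1, c2, c3, c4]
      rcases lt_abs.1 h3 with h5 | h5
      · constructor
        · constructor
          · intro _; linarith [hn.1, hn.2]
          · intro _; linarith [hn.1, hn.2, mul_pos hη (pow_pos (lt_of_lt_of_le one_pos hY1) 3)]
        · have p := mul_pos hη (pow_pos (lt_of_lt_of_le one_pos hY1) 3)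
          constructor
          · intro h6; linarith [hn.1, hn.2]
          · intro h6; linarith [hn.1, hn.2]
      · constructor
        · have p := mul_pos hη (pow_pos (lt_of_lt_of_le one_pos hY1) 3)
          constructor
          · intro h6; linarith [hn.1, hn.2]
          · intro h6; linarith [hn.1, hn.2]
        · constructor
          · intro _; linarith [hn.1, hn.2]
          · intro _; linarith [hn.1, hn.2, mul_pos hη (pow_pos (lt_of_lt_of_le one_pos hY1) 3)]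
    unfold sg
    cases σ
    · simpa using h4.2
    · simpa using h4.1
  unfold InR
  rw [iA1, iA2, iB1, iB2, iA, iB, hs]
-- END near_diff

-- BEGIN int_card
/-- R4. Integers in a closed interval. -/
theorem int_card (S : Finset ℤ) (a w : ℝ) (hw : 0 ≤ w) (h : ∀ t ∈ S, |(t : ℝ) - a| ≤ w) : (S.card : ℝ) ≤ 2 * w + 1 := by
  have hsub : S ⊆ Finset.Icc ⌈a - w⌉ ⌊a + w⌋ := by
    intro t ht
    have h1 := abs_le.1 (h t ht)
    rw [Finset.mem_Icc, Int.ceil_le, Int.le_floor]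
    constructor <;> linarith [h1.1, h1.2]
  have h2 : (S.card : ℝ) ≤ ((Finset.Icc ⌈a - w⌉ ⌊a + w⌋).card : ℝ) := by
    exact_mod_cast Finset.card_le_card hsub
  refine h2.trans ?_
  rw [Int.card_Icc]
  rcases le_total 0 (⌊a + w⌋ + 1 - ⌈a - w⌉) with h3 | h3
  · have h4 : (((⌊a + w⌋ + 1 - ⌈a - w⌉).toNat : ℕ) : ℝ) = ((⌊a + w⌋ + 1 - ⌈a - w⌉ : ℤ) : ℝ) := by
      exact_mod_cast Int.toNat_of_nonneg h3
    rw [h4]
    push_cast
    linarith [Int.floor_le (a + w), Int.le_ceil (a - w)]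
  · rw [Int.toNat_of_nonpos h3]
    push_cast
    linarith
-- END int_card

-- BEGIN sq_card
private theorem sq_card_half (S : Finset ℤ) (a : ℤ) (s1 s2 e : ℝ) (he : e ^ 2 = 1) (h12 : s1 ≤ s2)
    (h : ∀ t ∈ S, s1 ≤ e * ((t : ℝ) - a) ∧ e * ((t : ℝ) - a) ≤ s2) : (S.card : ℝ) ≤ (s2 - s1) + 1 := by
  have h1 := int_card S (a + e * ((s1 + s2) / 2)) ((s2 - s1) / 2) (by linarith) (by
    intro t ht
    obtain ⟨h2, h3⟩ := h t ht
    have h4 : (t : ℝ) - (a + e * ((s1 + s2) / 2)) = e * (e * ((t : ℝ) - a) - (s1 + s2) / 2) := by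
      have h5 : e * (e * ((t : ℝ) - a)) = (t : ℝ) - a := by
        have h6 : e * (e * ((t : ℝ) - a)) = e ^ 2 * ((t : ℝ) - a) := by ring
        rw [h6, he, one_mul]
      rw [mul_sub, h5]
      ring
    have h7 : |e| = 1 := by
      have h8 : |e| ^ 2 = 1 := by rw [sq_abs, he]
      have h9 : 0 ≤ |e| := abs_nonneg e
      nlinarith
    rw [h4, abs_mul, h7, one_mul, abs_le]
    constructor <;> linarith)
  linarith

/-- R5. `x² ∈ [c - w, c + w]`: `|x| ∈ [√(c-w)⁺, √(c+w)]`, an interval of length at most `√(2w)`. -/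
theorem sq_card (S : Finset ℤ) (a : ℤ) (c w : ℝ) (hw : 0 ≤ w) (h : ∀ t ∈ S, |((t : ℝ) - a) ^ 2 - c| ≤ w) :
    (S.card : ℝ) ≤ 2 * Real.sqrt (2 * w) + 2 := by
  have hlen : Real.sqrt (c + w) - Real.sqrt (c - w) ≤ Real.sqrt (2 * w) := by
    rcases le_total (c - w) 0 with h0 | h0
    · rw [Real.sqrt_eq_zero_of_nonpos h0, sub_zero]
      exact Real.sqrt_le_sqrt (by linarith)
    · have h1 := Real.sqrt_nonneg (c - w)
      have h2 := Real.sqrt_nonneg (2 * w)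
      have h3 := Real.sq_sqrt h0
      have h4 := Real.sq_sqrt (show (0 : ℝ) ≤ 2 * w by linarith)
      have h5 : Real.sqrt (c + w) ≤ Real.sqrt (c - w) + Real.sqrt (2 * w) := by
        rw [Real.sqrt_le_iff]
        exact ⟨by linarith, by nlinarith [mul_nonneg h1 h2]⟩
      linarith
  have h12 : Real.sqrt (c - w) ≤ Real.sqrt (c + w) := Real.sqrt_le_sqrt (by linarith)
  have hb : ∀ t ∈ S, Real.sqrt (c - w) ≤ |(t : ℝ) - a| ∧ |(t : ℝ) - a| ≤ Real.sqrt (c + w) := by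
    intro t ht
    have h1 := abs_le.mp (h t ht)
    refine ⟨?_, Real.abs_le_sqrt (by linarith [h1.2])⟩
    rw [Real.sqrt_le_iff, sq_abs]
    exact ⟨abs_nonneg _, by linarith [h1.1]⟩
  have hS : S.card = (S.filter (fun t : ℤ => a ≤ t)).card + (S.filter (fun t : ℤ => ¬ a ≤ t)).card :=
    (Finset.card_filter_add_card_filter_not _).symm
  have hp : ((S.filter (fun t : ℤ => a ≤ t)).card : ℝ) ≤ (Real.sqrt (c + w) - Real.sqrt (c - w)) + 1 := by
    refine sq_card_half _ a _ _ 1 (by norm_num) h12 ?_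
    intro t ht
    rw [Finset.mem_filter] at ht
    have h1 : (0 : ℝ) ≤ (t : ℝ) - a := by
      have : (a : ℝ) ≤ t := by exact_mod_cast ht.2
      linarith
    have h2 := hb t ht.1
    rw [abs_of_nonneg h1] at h2
    rw [one_mul]
    exact h2
  have hn : ((S.filter (fun t : ℤ => ¬ a ≤ t)).card : ℝ) ≤ (Real.sqrt (c + w) - Real.sqrt (c - w)) + 1 := by
    refine sq_card_half _ a _ _ (-1) (by norm_num) h12 ?_
    intro t ht
    rw [Finset.mem_filter, not_le] at ht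
    have h1 : (t : ℝ) - a ≤ 0 := by
      have : (t : ℝ) ≤ a := by exact_mod_cast ht.2.le
      linarith
    have h2 := hb t ht.1
    rw [abs_of_nonpos h1] at h2
    rw [neg_one_mul]
    exact h2
  rw [hS]
  push_cast
  linarith
-- END sq_card

-- BEGIN near_A
private theorem near_A_cardIcc (x : ℝ) (hx : 0 ≤ x) : ((Icc (-⌊x⌋) ⌊x⌋).card : ℝ) ≤ 2 * x + 1 := by
  rw [Int.card_Icc]
  have h0 : 0 ≤ ⌊x⌋ := Int.floor_nonneg.mpr hx
  have h1 : ((⌊x⌋ + 1 - -⌊x⌋).toNat : ℤ) = ⌊x⌋ + 1 - -⌊x⌋ := Int.toNat_of_nonneg (by linarith)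
  have h2 : (((⌊x⌋ + 1 - -⌊x⌋).toNat : ℕ) : ℝ) = ((⌊x⌋ + 1 - -⌊x⌋ : ℤ) : ℝ) := by
    exact_mod_cast h1
  rw [h2]
  push_cast
  linarith [Int.floor_le x]

/-- counting by columns -/
private theorem near_A_cols (Y : ℝ) (P : ℤ → ℤ → Prop) (K : Finset ℤ) (c : ℝ)
    (hK : ∀ k ∈ Icc (-⌊2 * Y⌋) ⌊2 * Y⌋, k ∉ K → ∀ t, ¬ P k t)
    (hc : ∀ k ∈ K, (((Icc (-⌊15 * Y ^ 3⌋) ⌊15 * Y ^ 3⌋).filter (fun t => P k t)).card : ℝ) ≤ c) :
    (((Bx Y).filter (fun x => P x.1 x.2)).card : ℝ) ≤ K.card * c := by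
  have h1 : (Bx Y).filter (fun x => P x.1 x.2) ⊆
      K.biUnion (fun k => ((Icc (-⌊15 * Y ^ 3⌋) ⌊15 * Y ^ 3⌋).filter (fun t => P k t)).image (fun t => (k, t))) := by
    intro x hx
    simp only [Bx, Finset.mem_filter, Finset.mem_product] at hx
    rw [Finset.mem_biUnion]
    by_cases hk : x.1 ∈ K
    · refine ⟨x.1, hk, ?_⟩
      rw [Finset.mem_image]
      exact ⟨x.2, Finset.mem_filter.2 ⟨hx.1.2, hx.2⟩, rfl⟩
    · exact absurd hx.2 (hK x.1 hx.1.1 hk x.2)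
  calc (((Bx Y).filter (fun x => P x.1 x.2)).card : ℝ) ≤
      ((K.biUnion (fun k => ((Icc (-⌊15 * Y ^ 3⌋) ⌊15 * Y ^ 3⌋).filter (fun t => P k t)).image (fun t => (k, t)))).card : ℝ) := by
        exact_mod_cast Finset.card_le_card h1
    _ ≤ ((∑ k ∈ K, (((Icc (-⌊15 * Y ^ 3⌋) ⌊15 * Y ^ 3⌋).filter (fun t => P k t)).image (fun t => (k, t))).card : ℕ) : ℝ) := by
        exact_mod_cast Finset.card_biUnion_le
    _ = ∑ k ∈ K, ((((Icc (-⌊15 * Y ^ 3⌋) ⌊15 * Y ^ 3⌋).filter (fun t => P k t)).image (fun t => (k, t))).card : ℝ) := by push_cast; rfl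
    _ ≤ ∑ k ∈ K, c := by
        apply Finset.sum_le_sum
        intro k hk
        refine le_trans ?_ (hc k hk)
        exact_mod_cast Finset.card_image_le
    _ = K.card * c := by simp

/-- R6. -/
theorem near_A (η : ℝ) (hη : 0 < η) (hη1 : η ≤ 1) (Y : ℝ) (hY : 1 ≤ Y) (c : ℝ) :
    (((Bx Y).filter (fun x => |((AA x.1 x.2 : ℤ) : ℝ) - c| ≤ η * Y ^ 4)).card : ℝ) ≤ 64 * Real.sqrt η * Y ^ 4 + 36 * Y ^ 3 := by
  have hY0 : 0 ≤ Y := by linarith
  have hs0 : 0 < Real.sqrt η := Real.sqrt_pos.2 hη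
  have hs1 : Real.sqrt η ≤ 1 := by
    rw [← Real.sqrt_one]; exact Real.sqrt_le_sqrt hη1
  have hss : Real.sqrt η * Real.sqrt η = η := Real.mul_self_sqrt hη.le
  have hY3 : Y ≤ Y ^ 3 := by nlinarith [sq_nonneg Y, mul_nonneg hY0 hY0]
  have hY31 : 1 ≤ Y ^ 3 := one_le_pow₀ hY
  set s := Real.sqrt η with hs
  -- split: small k and large k
  set K1 : Finset ℤ := Icc (-⌊s * Y⌋) ⌊s * Y⌋ with hK1
  set K2 : Finset ℤ := (Icc (-⌊2 * Y⌋) ⌊2 * Y⌋).filter (fun k => k ∉ K1) with hK2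
  obtain ⟨P1, hP1⟩ : ∃ P : ℤ → ℤ → Prop, ∀ k t, P k t ↔ k ∈ K1 := ⟨fun k _ => k ∈ K1, fun _ _ => Iff.rfl⟩
  obtain ⟨P2, hP2⟩ : ∃ P : ℤ → ℤ → Prop, ∀ k t, P k t ↔ (k ∉ K1 ∧ |((AA k t : ℤ) : ℝ) - c| ≤ η * Y ^ 4) :=
    ⟨fun k t => k ∉ K1 ∧ |((AA k t : ℤ) : ℝ) - c| ≤ η * Y ^ 4, fun _ _ => Iff.rfl⟩
  have hsub : (Bx Y).filter (fun x => |((AA x.1 x.2 : ℤ) : ℝ) - c| ≤ η * Y ^ 4) ⊆
      (Bx Y).filter (fun x => P1 x.1 x.2) ∪ (Bx Y).filter (fun x => P2 x.1 x.2) := by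
    intro x hx
    rw [Finset.mem_filter] at hx
    rw [Finset.mem_union, Finset.mem_filter, Finset.mem_filter]
    by_cases h : x.1 ∈ K1
    · exact Or.inl ⟨hx.1, (hP1 _ _).2 h⟩
    · exact Or.inr ⟨hx.1, (hP2 _ _).2 ⟨h, hx.2⟩⟩
  have c1 : (((Bx Y).filter (fun x => P1 x.1 x.2)).card : ℝ) ≤ 62 * s * Y ^ 4 + 31 * Y ^ 3 := by
    have h1 := near_A_cols Y P1 K1 (31 * Y ^ 3) (fun k _ hk t => fun h => hk ((hP1 k t).1 h))
      (fun k _ => by
        calc _ ≤ ((Icc (-⌊15 * Y ^ 3⌋) ⌊15 * Y ^ 3⌋).card : ℝ) := by exact_mod_cast Finset.card_filter_le _ _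
          _ ≤ 2 * (15 * Y ^ 3) + 1 := near_A_cardIcc _ (by positivity)
          _ ≤ 31 * Y ^ 3 := by linarith)
    have h2 : (K1.card : ℝ) ≤ 2 * (s * Y) + 1 := near_A_cardIcc _ (by positivity)
    calc _ ≤ K1.card * (31 * Y ^ 3) := h1
      _ ≤ (2 * (s * Y) + 1) * (31 * Y ^ 3) := mul_le_mul_of_nonneg_right h2 (by positivity)
      _ = 62 * s * Y ^ 4 + 31 * Y ^ 3 := by ring
  have c2 : (((Bx Y).filter (fun x => P2 x.1 x.2)).card : ℝ) ≤ 5 / 3 * s * Y ^ 4 + 5 * Y := by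
    have h1 := near_A_cols Y P2 K2 (s * Y ^ 3 / 3 + 1)
      (fun k hk hk2 t hP => by
        apply hk2
        rw [hK2, Finset.mem_filter]
        exact ⟨hk, ((hP2 k t).1 hP).1⟩)
      (fun k hk => by
        rw [hK2, Finset.mem_filter] at hk
        have hkK := hk.2
        rw [hK1, Finset.mem_Icc, ← abs_le, not_le] at hkK
        have hkl : s * Y < |(k : ℝ)| := by
          have h3 : (⌊s * Y⌋ : ℤ) < |k| := hkK
          have h4 : (s * Y) < ((|k| : ℤ) : ℝ) := Int.floor_lt.1 h3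
          simpa using h4
        have hk0 : (0 : ℝ) < |(k : ℝ)| := lt_of_le_of_lt (by positivity) hkl
        have hkne : (k : ℝ) ≠ 0 := abs_pos.1 hk0
        have h5 := int_card ((Icc (-⌊15 * Y ^ 3⌋) ⌊15 * Y ^ 3⌋).filter (fun t => P2 k t))
          ((c + 27 * (k : ℝ) ^ 4) / (6 * k)) (s * Y ^ 3 / 6) (by positivity)
          (by
            intro t ht
            rw [Finset.mem_filter] at ht
            have h6 := ((hP2 k t).1 ht.2).2
            have h7 : ((AA k t : ℤ) : ℝ) - c = 6 * k * ((t : ℝ) - (c + 27 * (k : ℝ) ^ 4) / (6 * k)) := by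
              unfold AA
              push_cast
              field_simp
              ring
            rw [h7, abs_mul] at h6
            have h8 : |6 * (k : ℝ)| = 6 * |(k : ℝ)| := by rw [abs_mul]; norm_num
            rw [h8] at h6
            set D := |(t : ℝ) - (c + 27 * (k : ℝ) ^ 4) / (6 * k)| with hD
            have hD0 : 0 ≤ D := abs_nonneg _
            have h9 : 6 * (s * Y) * D ≤ η * Y ^ 4 := by
              refine le_trans ?_ h6
              apply mul_le_mul_of_nonneg_right _ hD0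
              linarith
            have h10 : (s * Y) * (6 * D) ≤ (s * Y) * (s * Y ^ 3) := by
              calc (s * Y) * (6 * D) = 6 * (s * Y) * D := by ring
                _ ≤ η * Y ^ 4 := h9
                _ = (s * s) * Y ^ 4 := by rw [hss]
                _ = (s * Y) * (s * Y ^ 3) := by ring
            have h11 : 6 * D ≤ s * Y ^ 3 := le_of_mul_le_mul_left h10 (by positivity)
            linarith)
        linarith)
    have h2 : (K2.card : ℝ) ≤ 5 * Y := by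
      calc (K2.card : ℝ) ≤ ((Icc (-⌊2 * Y⌋) ⌊2 * Y⌋).card : ℝ) := by exact_mod_cast Finset.card_filter_le _ _
        _ ≤ 2 * (2 * Y) + 1 := near_A_cardIcc _ (by positivity)
        _ ≤ 5 * Y := by linarith
    calc _ ≤ K2.card * (s * Y ^ 3 / 3 + 1) := h1
      _ ≤ (5 * Y) * (s * Y ^ 3 / 3 + 1) := mul_le_mul_of_nonneg_right h2 (by positivity)
      _ = 5 / 3 * s * Y ^ 4 + 5 * Y := by ring
  have c3 : (((Bx Y).filter (fun x => |((AA x.1 x.2 : ℤ) : ℝ) - c| ≤ η * Y ^ 4)).card : ℝ) ≤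
      (((Bx Y).filter (fun x => P1 x.1 x.2)).card : ℝ) + (((Bx Y).filter (fun x => P2 x.1 x.2)).card : ℝ) := by
    exact_mod_cast le_trans (Finset.card_le_card hsub) (Finset.card_union_le _ _)
  have h9 : 0 ≤ s * Y ^ 4 := by positivity
  nlinarith
-- END near_A

-- BEGIN near_B
private theorem near_B_card (η : ℝ) (Y : ℝ) (hY : 1 ≤ Y) (P : ℤ → ℤ → Prop) (c : ℝ) (hc0 : 0 ≤ c)
    (hc : ∀ k, (((Icc (-⌊15 * Y ^ 3⌋) ⌊15 * Y ^ 3⌋).filter (fun t => P k t)).card : ℝ) ≤ c) :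
    (((Bx Y).filter (fun x => P x.1 x.2)).card : ℝ) ≤ 5 * Y * c := by
  have h1 := near_A_cols Y P (Icc (-⌊2 * Y⌋) ⌊2 * Y⌋) c (fun k hk hk2 => absurd hk hk2) (fun k _ => hc k)
  have h2 : ((Icc (-⌊2 * Y⌋) ⌊2 * Y⌋).card : ℝ) ≤ 5 * Y := by
    have := near_A_cardIcc (2 * Y) (by linarith)
    linarith
  exact le_trans h1 (mul_le_mul_of_nonneg_right h2 hc0)

/-- R7. -/
theorem near_B (η : ℝ) (hη : 0 < η) (hη1 : η ≤ 1) (Y : ℝ) (hY : 1 ≤ Y) (c : ℝ) :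
    (((Bx Y).filter (fun x => |((B3 x.1 x.2 : ℤ) : ℝ) - c| ≤ η * Y ^ 6)).card : ℝ) ≤ 15 * Real.sqrt η * Y ^ 4 + 10 * Y ^ 3 := by
  have hY0 : 0 ≤ Y := by linarith
  have hY3 : Y ≤ Y ^ 3 := by nlinarith [sq_nonneg Y, mul_nonneg hY0 hY0]
  have hs : Real.sqrt (2 * (η * Y ^ 6)) ≤ 3 / 2 * (Real.sqrt η * Y ^ 3) := by
    rw [Real.sqrt_le_left (by positivity)]
    have h1 : (3 / 2 * (Real.sqrt η * Y ^ 3)) ^ 2 = 9 / 4 * (Real.sqrt η) ^ 2 * Y ^ 6 := by ring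
    rw [h1, Real.sq_sqrt hη.le]
    have : 0 ≤ η * Y ^ 6 := by positivity
    nlinarith
  have h := near_B_card η Y hY (fun k t => |((B3 k t : ℤ) : ℝ) - c| ≤ η * Y ^ 6) (3 * (Real.sqrt η * Y ^ 3) + 2) (by positivity)
    (by
      intro k
      have h2 := sq_card ((Icc (-⌊15 * Y ^ 3⌋) ⌊15 * Y ^ 3⌋).filter (fun t => |((B3 k t : ℤ) : ℝ) - c| ≤ η * Y ^ 6))
        (9 * k ^ 3) (27 * (k : ℝ) ^ 6 + c) (η * Y ^ 6) (by positivity)
        (by
          intro t ht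
          rw [Finset.mem_filter] at ht
          have h3 : ((t : ℝ) - ((9 * k ^ 3 : ℤ) : ℝ)) ^ 2 - (27 * (k : ℝ) ^ 6 + c) = ((B3 k t : ℤ) : ℝ) - c := by
            unfold B3
            push_cast
            ring
          rw [h3]
          exact ht.2)
      linarith)
  have h4 : 0 ≤ Real.sqrt η * Y ^ 4 := by positivity
  calc _ ≤ 5 * Y * (3 * (Real.sqrt η * Y ^ 3) + 2) := h
    _ = 15 * Real.sqrt η * Y ^ 4 + 10 * Y := by ring
    _ ≤ _ := by linarith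
-- END near_B

-- BEGIN near_n
/-- R8. -/
theorem near_n (η : ℝ) (hη : 0 < η) (hη1 : η ≤ 1) (Y : ℝ) (hY : 1 ≤ Y) :
    (((Bx Y).filter (fun x => |((nn x.1 x.2 : ℤ) : ℝ)| ≤ η * Y ^ 3)).card : ℝ) ≤ 10 * Real.sqrt η * Y ^ 4 + 5 * Y ^ 3 := by
  have hY0 : 0 ≤ Y := by linarith
  have hY3 : Y ≤ Y ^ 3 := by nlinarith [sq_nonneg Y, mul_nonneg hY0 hY0]
  have hs1 : Real.sqrt η ≤ 1 := by
    rw [← Real.sqrt_one]; exact Real.sqrt_le_sqrt hη1
  have hss : Real.sqrt η * Real.sqrt η = η := Real.mul_self_sqrt hη.le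
  have hle : η ≤ Real.sqrt η := by nlinarith [Real.sqrt_nonneg η]
  have h := near_B_card η Y hY (fun k t => |((nn k t : ℤ) : ℝ)| ≤ η * Y ^ 3) (2 * (η * Y ^ 3) + 1) (by positivity)
    (by
      intro k
      apply int_card _ (4 * (k : ℝ) ^ 3) (η * Y ^ 3) (by positivity)
      intro t ht
      rw [Finset.mem_filter] at ht
      have h3 : (t : ℝ) - 4 * (k : ℝ) ^ 3 = ((nn k t : ℤ) : ℝ) := by
        unfold nn
        push_cast
        ring
      rw [h3]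
      exact ht.2)
  have h4 : η * Y ^ 4 ≤ Real.sqrt η * Y ^ 4 := mul_le_mul_of_nonneg_right hle (by positivity)
  calc _ ≤ 5 * Y * (2 * (η * Y ^ 3) + 1) := h
    _ = 10 * (η * Y ^ 4) + 5 * Y := by ring
    _ ≤ _ := by linarith
-- END near_n

-- BEGIN near_card
/-- R9. `near_A` and `near_B` for `c = al Y⁴`, `-al Y⁴`, `be Y⁶`, `-be Y⁶` (`||A| - x| ≤ w` implies `|A - x| ≤ w` or `|A + x| ≤ w`), `near_n`. -/
theorem near_card (η : ℝ) (hη : 0 < η) (hη1 : η ≤ 1) (Y : ℝ) (hY : 1 ≤ Y) :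
    ((Near η Y).card : ℝ) ≤ 200 * Real.sqrt η * Y ^ 4 + 200 * Y ^ 3 := by
  have key : ∀ z x w : ℝ, |(|z| - x)| ≤ w → |z - x| ≤ w ∨ |z - -x| ≤ w := by
    intro z x w h
    rcases abs_choice z with h1 | h1
    · left; rwa [h1] at h
    · right
      rw [h1] at h
      rw [← abs_neg]
      have e : -(z - -x) = -z - x := by ring
      rwa [e]
  have hsub : Near η Y ⊆
      ((Bx Y).filter (fun x => |((AA x.1 x.2 : ℤ) : ℝ) - al * Y ^ 4| ≤ η * Y ^ 4)) ∪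
      ((Bx Y).filter (fun x => |((AA x.1 x.2 : ℤ) : ℝ) - -(al * Y ^ 4)| ≤ η * Y ^ 4)) ∪
      ((Bx Y).filter (fun x => |((B3 x.1 x.2 : ℤ) : ℝ) - be * Y ^ 6| ≤ η * Y ^ 6)) ∪
      ((Bx Y).filter (fun x => |((B3 x.1 x.2 : ℤ) : ℝ) - -(be * Y ^ 6)| ≤ η * Y ^ 6)) ∪
      ((Bx Y).filter (fun x => |((nn x.1 x.2 : ℤ) : ℝ)| ≤ η * Y ^ 3)) := by
    intro x hx
    unfold Near at hx
    rw [Finset.mem_filter] at hx
    obtain ⟨hb, h | h | h⟩ := hx
    · rcases key _ _ _ h with h1 | h1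
      · simp only [Finset.mem_union, Finset.mem_filter]
        exact Or.inl (Or.inl (Or.inl (Or.inl ⟨hb, h1⟩)))
      · simp only [Finset.mem_union, Finset.mem_filter]
        exact Or.inl (Or.inl (Or.inl (Or.inr ⟨hb, h1⟩)))
    · rcases key _ _ _ h with h1 | h1
      · simp only [Finset.mem_union, Finset.mem_filter]
        exact Or.inl (Or.inl (Or.inr ⟨hb, h1⟩))
      · simp only [Finset.mem_union, Finset.mem_filter]
        exact Or.inl (Or.inr ⟨hb, h1⟩)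
    · simp only [Finset.mem_union, Finset.mem_filter]
      exact Or.inr ⟨hb, h⟩
  have h0 := (Finset.card_le_card hsub).trans ((Finset.card_union_le _ _).trans
    (Nat.add_le_add_right ((Finset.card_union_le _ _).trans
      (Nat.add_le_add_right ((Finset.card_union_le _ _).trans
        (Nat.add_le_add_right (Finset.card_union_le _ _) _)) _)) _))
  have h1 : ((Near η Y).card : ℝ) ≤ _ := Nat.cast_le.2 h0
  push_cast at h1
  have a1 := near_A η hη hη1 Y hY (al * Y ^ 4)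
  have a2 := near_A η hη hη1 Y hY (-(al * Y ^ 4))
  have b1 := near_B η hη hη1 Y hY (be * Y ^ 6)
  have b2 := near_B η hη hη1 Y hY (-(be * Y ^ 6))
  have n1 := near_n η hη hη1 Y hY
  have hY0 : (0 : ℝ) ≤ Y := by linarith
  have hs : 0 ≤ Real.sqrt η * Y ^ 4 := by positivity
  have hY3 : 0 ≤ Y ^ 3 := by positivity
  refine h1.trans ?_
  nlinarith
-- END near_card

-- BEGIN avg_bound
private theorem avg_bound_shift (M H : ℕ) (L : ℤ) (hL : 0 ≤ L) (G : ℤ → ℝ) (hG : ∀ k, L < |k| → G k = 0) (i : ℕ) (hi : i < H) :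
    ∑ κ ∈ Icc (-L - M * H) L, G (κ + M * (i : ℤ)) = ∑ k ∈ Icc (-L) L, G k := by
  have hMi0 : (0 : ℤ) ≤ M * (i : ℤ) := by positivity
  have hMi1 : (M : ℤ) * (i : ℤ) ≤ M * H := by
    apply mul_le_mul_of_nonneg_left _ (Nat.cast_nonneg M)
    exact_mod_cast hi.le
  have h1 : ∑ κ ∈ Icc (-L - M * H) L, G (κ + M * (i : ℤ)) =
      ∑ k ∈ (Icc (-L - M * H) L).image (fun κ => κ + M * (i : ℤ)), G k := by
    rw [Finset.sum_image]
    intro a _ b _ hab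
    simpa using hab
  rw [h1]
  symm
  apply Finset.sum_subset
  · intro k hk
    rw [Finset.mem_Icc] at hk
    rw [Finset.mem_image]
    refine ⟨k - M * (i : ℤ), ?_, by ring⟩
    rw [Finset.mem_Icc]
    constructor <;> linarith
  · intro k _ hk
    apply hG
    by_contra h
    apply hk
    rw [Finset.mem_Icc, ← abs_le]
    exact not_lt.mp h

private theorem avg_bound_diff (W : Finset ℤ) (P Q : ℤ → Prop) (f : ℤ → ℝ) (hf : ∀ t, |f t| ≤ 1) (S : Finset ℤ)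
    (h : ∀ t ∈ W, (P t ↔ Q t) ∨ t ∈ S) :
    |∑ t ∈ W with P t, f t - ∑ t ∈ W with Q t, f t| ≤ S.card := by
  rw [Finset.sum_filter, Finset.sum_filter, ← Finset.sum_sub_distrib]
  calc |∑ t ∈ W, ((if P t then f t else 0) - (if Q t then f t else 0))|
      ≤ ∑ t ∈ W, |(if P t then f t else 0) - (if Q t then f t else 0)| := Finset.abs_sum_le_sum_abs _ _
    _ ≤ ∑ t ∈ W, (if t ∈ S then (1 : ℝ) else 0) := by
        apply Finset.sum_le_sum
        intro t ht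
        have hft := hf t
        rcases h t ht with h1 | h1
        · have h2 : (if P t then f t else 0) - (if Q t then f t else 0) = 0 := by
            by_cases hp : P t
            · rw [if_pos hp, if_pos (h1.1 hp), sub_self]
            · rw [if_neg hp, if_neg (fun hq => hp (h1.2 hq)), sub_self]
          rw [h2, abs_zero]
          split_ifs <;> norm_num
        · rw [if_pos h1]
          split_ifs
          · simp
          · simpa using hft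
          · simpa using hft
          · simp
    _ = ((W.filter (fun t => t ∈ S)).card : ℝ) := by
        rw [← Finset.sum_filter]
        simp
    _ ≤ S.card := by
        have : W.filter (fun t => t ∈ S) ⊆ S := by
          intro t ht
          exact (Finset.mem_filter.1 ht).2
        exact_mod_cast Finset.card_le_card this

private theorem avg_bound_fib (I : Finset ℤ) (c : ℤ) (Nr : Finset (ℤ × ℤ)) :
    ∑ κ ∈ I, (((Nr.filter (fun x => x.1 = κ + c)).image Prod.snd).card : ℝ) ≤ Nr.card := by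
  have h1 : ∀ κ ∈ I, (((Nr.filter (fun x => x.1 = κ + c)).image Prod.snd).card : ℝ) ≤
      ((Nr.filter (fun x => x.1 - c = κ)).card : ℝ) := by
    intro κ _
    have h2 : (Nr.filter (fun x => x.1 = κ + c)) = Nr.filter (fun x => x.1 - c = κ) := by
      apply Finset.filter_congr
      intro x _
      constructor
      · intro h; rw [h]; ring
      · intro h; rw [← h]; ring
    rw [h2]
    exact_mod_cast Finset.card_image_le
  calc _ ≤ ∑ κ ∈ I, ((Nr.filter (fun x => x.1 - c = κ)).card : ℝ) := Finset.sum_le_sum h1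
    _ = ((∑ κ ∈ I, (Nr.filter (fun x => x.1 - c = κ)).card : ℕ) : ℝ) := by push_cast; rfl
    _ ≤ Nr.card := by
        have h3 := Finset.card_eq_sum_card_fiberwise (s := Nr.filter (fun x => x.1 - c ∈ I)) (t := I) (f := fun x => x.1 - c)
          (by intro x hx; simpa using (Finset.mem_filter.1 hx).2)
        have h4 : ∑ κ ∈ I, (Nr.filter (fun x => x.1 - c = κ)).card ≤ Nr.card := by
          calc _ = ∑ κ ∈ I, ((Nr.filter (fun x => x.1 - c ∈ I)).filter (fun x => x.1 - c = κ)).card := by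
                apply Finset.sum_congr rfl
                intro κ hκ
                congr 1
                ext x
                simp only [Finset.mem_filter]
                constructor
                · rintro ⟨h5, h6⟩
                  exact ⟨⟨h5, by rw [h6]; exact hκ⟩, h6⟩
                · rintro ⟨⟨h5, _⟩, h6⟩
                  exact ⟨h5, h6⟩
            _ = (Nr.filter (fun x => x.1 - c ∈ I)).card := h3.symm
            _ ≤ Nr.card := Finset.card_filter_le _ _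
        exact_mod_cast h4

/-- R10. Finite inequality. -/
theorem avg_bound (M H : ℕ) (hH : 0 < H) (L : ℤ) (hL : 0 ≤ L) (R : ℤ → ℤ → Prop) (W : Finset ℤ) (hR : ∀ k t, R k t → |k| ≤ L)
    (F : ℤ → ℤ → ℝ) (hF : ∀ k t, |F k t| ≤ 1) (Nr : Finset (ℤ × ℤ))
    (hN : ∀ κ ∈ Icc (-L - M * H) L, ∀ i < H, ∀ t ∈ W, (R (κ + M * (i : ℤ)) t ↔ R κ t) ∨ (κ + M * (i : ℤ), t) ∈ Nr)
    (B : ℝ) (hB : ∀ κ ∈ Icc (-L - M * H) L, |∑ t ∈ W with R κ t, ∑ i ∈ range H, F (κ + M * (i : ℤ)) t| ≤ B) :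
    (H : ℝ) * |∑ k ∈ Icc (-L) L, ∑ t ∈ W with R k t, F k t| ≤ (2 * L + M * H + 1) * B + H * Nr.card := by
  set G : ℤ → ℝ := fun k => ∑ t ∈ W with R k t, F k t with hG
  have hG0 : ∀ k, L < |k| → G k = 0 := by
    intro k hk
    rw [hG]
    apply Finset.sum_eq_zero
    intro t ht
    exact absurd (hR k t (Finset.mem_filter.1 ht).2) (not_le.mpr hk)
  have h1 : (H : ℝ) * ∑ k ∈ Icc (-L) L, G k = ∑ i ∈ range H, ∑ κ ∈ Icc (-L - M * H) L, G (κ + M * (i : ℤ)) := by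
    rw [Finset.sum_congr rfl (fun i hi => avg_bound_shift M H L hL G hG0 i (Finset.mem_range.1 hi))]
    simp
  have h2 : ∑ i ∈ range H, ∑ κ ∈ Icc (-L - M * H) L, G (κ + M * (i : ℤ)) =
      ∑ κ ∈ Icc (-L - M * H) L, ∑ t ∈ W with R κ t, ∑ i ∈ range H, F (κ + M * (i : ℤ)) t +
      ∑ i ∈ range H, ∑ κ ∈ Icc (-L - M * H) L, (G (κ + M * (i : ℤ)) - ∑ t ∈ W with R κ t, F (κ + M * (i : ℤ)) t) := by
    have h3 : ∑ κ ∈ Icc (-L - M * H) L, ∑ t ∈ W with R κ t, ∑ i ∈ range H, F (κ + M * (i : ℤ)) t =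
        ∑ i ∈ range H, ∑ κ ∈ Icc (-L - M * H) L, ∑ t ∈ W with R κ t, F (κ + M * (i : ℤ)) t := by
      rw [Finset.sum_comm]
      refine Finset.sum_congr rfl fun κ _ => ?_
      rw [Finset.sum_comm]
    rw [h3, ← Finset.sum_add_distrib]
    refine Finset.sum_congr rfl fun i _ => ?_
    rw [← Finset.sum_add_distrib]
    refine Finset.sum_congr rfl fun κ _ => ?_
    ring
  have h4 : |∑ κ ∈ Icc (-L - M * H) L, ∑ t ∈ W with R κ t, ∑ i ∈ range H, F (κ + M * (i : ℤ)) t| ≤ (2 * L + M * H + 1) * B := by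
    calc _ ≤ ∑ κ ∈ Icc (-L - M * H) L, |∑ t ∈ W with R κ t, ∑ i ∈ range H, F (κ + M * (i : ℤ)) t| := Finset.abs_sum_le_sum_abs _ _
      _ ≤ ∑ κ ∈ Icc (-L - M * H) L, B := Finset.sum_le_sum hB
      _ = (2 * L + M * H + 1) * B := by
        rw [Finset.sum_const, Int.card_Icc, nsmul_eq_mul]
        congr 1
        have h5 : 0 ≤ L + 1 - (-L - M * H) := by
          have : (0 : ℤ) ≤ M * H := by positivity
          linarith
        have h6 : (((L + 1 - (-L - M * H)).toNat : ℤ) : ℝ) = ((L + 1 - (-L - M * H) : ℤ) : ℝ) := by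
          rw [Int.toNat_of_nonneg h5]
        have h7 : (((L + 1 - (-L - M * H)).toNat : ℕ) : ℝ) = (((L + 1 - (-L - M * H)).toNat : ℤ) : ℝ) := by push_cast; rfl
        rw [h7, h6]
        push_cast
        ring
  have h5 : |∑ i ∈ range H, ∑ κ ∈ Icc (-L - M * H) L, (G (κ + M * (i : ℤ)) - ∑ t ∈ W with R κ t, F (κ + M * (i : ℤ)) t)| ≤ H * Nr.card := by
    calc _ ≤ ∑ i ∈ range H, |∑ κ ∈ Icc (-L - M * H) L, (G (κ + M * (i : ℤ)) - ∑ t ∈ W with R κ t, F (κ + M * (i : ℤ)) t)| := Finset.abs_sum_le_sum_abs _ _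
      _ ≤ ∑ i ∈ range H, (Nr.card : ℝ) := by
        apply Finset.sum_le_sum
        intro i hi
        calc _ ≤ ∑ κ ∈ Icc (-L - M * H) L, |G (κ + M * (i : ℤ)) - ∑ t ∈ W with R κ t, F (κ + M * (i : ℤ)) t| := Finset.abs_sum_le_sum_abs _ _
          _ ≤ ∑ κ ∈ Icc (-L - M * H) L, (((Nr.filter (fun x => x.1 = κ + M * (i : ℤ))).image Prod.snd).card : ℝ) := by
            apply Finset.sum_le_sum
            intro κ hκ
            apply avg_bound_diff W (fun t => R (κ + M * (i : ℤ)) t) (fun t => R κ t) (fun t => F (κ + M * (i : ℤ)) t) (fun t => hF _ t)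
            intro t ht
            rcases hN κ hκ i (Finset.mem_range.1 hi) t ht with h6 | h6
            · exact Or.inl h6
            · right
              rw [Finset.mem_image]
              exact ⟨_, Finset.mem_filter.2 ⟨h6, rfl⟩, rfl⟩
          _ ≤ Nr.card := avg_bound_fib _ _ _
      _ = H * Nr.card := by simp
  have hHR : (0 : ℝ) ≤ H := Nat.cast_nonneg H
  calc (H : ℝ) * |∑ k ∈ Icc (-L) L, G k| = |(H : ℝ) * ∑ k ∈ Icc (-L) L, G k| := by rw [abs_mul, abs_of_nonneg hHR]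
    _ = _ := by rw [h1, h2]
    _ ≤ _ := abs_add_le _ _
    _ ≤ _ := add_le_add h4 h5
-- END avg_bound

-- BEGIN mem_Reg3
/-- R11. `|A| ≤ 0.63 Y⁴`, `|B| ≤ 0.1925 Y⁶`. With `c = k³`: `A = 3k(2t - 9c)`, `B = (t - 9c)² - 27c²`. If `|k| > Y`: `w = 2t - 9c` has `|w| ≤ 0.21 Y³ ≤ 0.21 |c|`, `B = w²/4 - 4.5 c w - 6.75 c²`, so `|B| ≥ 5.7 c² > Y⁶`.
So `|k| ≤ Y`, and `(t - 9c)² ≤ 27.2 Y⁶`, `|t| ≤ 9 Y³ + 5.3 Y³`. -/
theorem mem_Reg3 (Y : ℝ) (hY : 0 ≤ Y) (k t : ℤ) : (k, t) ∈ Reg3 Y ↔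
    4 * |((AA k t : ℤ) : ℝ)| ^ 3 ≤ Y ^ 12 ∧ 27 * ((B3 k t : ℤ) : ℝ) ^ 2 ≤ Y ^ 12 := by
  unfold Reg3
  rw [Finset.mem_filter]
  constructor
  · exact fun h => h.2
  · intro h
    refine ⟨?_, h⟩
    obtain ⟨h1, h2⟩ := h
    obtain ⟨x, hx⟩ : ∃ x : ℝ, x = (k : ℝ) := ⟨_, rfl⟩
    obtain ⟨s, hs⟩ : ∃ s : ℝ, s = (t : ℝ) := ⟨_, rfl⟩
    have hA : ((AA k t : ℤ) : ℝ) = 3 * x * (2 * s - 9 * x ^ 3) := by
      unfold AA
      rw [hx, hs]
      push_cast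
      ring
    have hB : ((B3 k t : ℤ) : ℝ) = (s - 9 * x ^ 3) ^ 2 - 27 * (x ^ 3) ^ 2 := by
      unfold B3
      rw [hx, hs]
      push_cast
      ring
    rw [hA] at h1
    rw [hB] at h2
    have hY3 : 0 ≤ Y ^ 3 := pow_nonneg hY 3
    have hkY : |x| ≤ Y := by
      by_contra hlt
      push Not at hlt
      have hx0 : 0 < |x| := lt_of_le_of_lt hY hlt
      obtain ⟨c, hc⟩ : ∃ c : ℝ, c = |x| ^ 3 := ⟨_, rfl⟩
      obtain ⟨w, hw⟩ : ∃ w : ℝ, w = |2 * s - 9 * x ^ 3| := ⟨_, rfl⟩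
      have hc0 : 0 < c := by rw [hc]; positivity
      have hw0 : 0 ≤ w := by rw [hw]; exact abs_nonneg _
      have hYc : Y ^ 12 < c ^ 4 := by
        rw [hc, ← pow_mul]
        exact pow_lt_pow_left₀ hlt hY (by norm_num)
      have hAw : 4 * |3 * x * (2 * s - 9 * x ^ 3)| ^ 3 = 108 * c * w ^ 3 := by
        rw [abs_mul, abs_mul, hc, hw, abs_of_pos (by norm_num : (0 : ℝ) < 3)]
        ring
      rw [hAw] at h1
      have h3 : 108 * w ^ 3 < c ^ 3 := by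
        by_contra h4
        push Not at h4
        have h5 : c ^ 3 * c ≤ 108 * w ^ 3 * c := mul_le_mul_of_nonneg_right h4 hc0.le
        nlinarith
      have h4 : 4 * w < c := by
        by_contra h5
        push Not at h5
        have h6 : c ^ 3 ≤ (4 * w) ^ 3 := pow_le_pow_left₀ hc0.le h5 3
        have h7 : 0 ≤ w ^ 3 := pow_nonneg hw0 3
        nlinarith
      have hcx : (x ^ 3) ^ 2 = c ^ 2 := by
        rw [hc, ← abs_pow, sq_abs]
      have hww : (2 * s - 9 * x ^ 3) ^ 2 = w ^ 2 := by rw [hw, sq_abs]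
      have hcw : |x ^ 3 * (2 * s - 9 * x ^ 3)| = c * w := by
        rw [abs_mul, abs_pow, hc, hw]
      have hcw2 := neg_abs_le (x ^ 3 * (2 * s - 9 * x ^ 3))
      rw [hcw] at hcw2
      have hBe : (s - 9 * x ^ 3) ^ 2 - 27 * (x ^ 3) ^ 2 = w ^ 2 / 4 - 9 / 2 * (x ^ 3 * (2 * s - 9 * x ^ 3)) - 27 / 4 * c ^ 2 := by
        rw [← hww, ← hcx]
        ring
      rw [hBe] at h2
      have h5 : w ^ 2 ≤ c ^ 2 / 16 := by nlinarith
      have h6 : c * w ≤ c ^ 2 / 4 := by nlinarith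
      have h7 : 5 * c ^ 2 ≤ -(w ^ 2 / 4 - 9 / 2 * (x ^ 3 * (2 * s - 9 * x ^ 3)) - 27 / 4 * c ^ 2) := by nlinarith
      have h8 : (5 * c ^ 2) ^ 2 ≤ (-(w ^ 2 / 4 - 9 / 2 * (x ^ 3 * (2 * s - 9 * x ^ 3)) - 27 / 4 * c ^ 2)) ^ 2 :=
        pow_le_pow_left₀ (by positivity) h7 2
      rw [neg_sq] at h8
      have h9 : 0 < c ^ 4 := by positivity
      nlinarith
    have hkY3 : |x ^ 3| ≤ Y ^ 3 := by
      rw [abs_pow]
      exact pow_le_pow_left₀ (abs_nonneg x) hkY 3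
    have htY : |s| ≤ 15 * Y ^ 3 := by
      have h3 : (x ^ 3) ^ 2 ≤ (Y ^ 3) ^ 2 := by
        rw [← sq_abs (x ^ 3)]
        exact pow_le_pow_left₀ (abs_nonneg _) hkY3 2
      have h4 : |(s - 9 * x ^ 3) ^ 2 - 27 * (x ^ 3) ^ 2| ≤ (Y ^ 3) ^ 2 := by
        apply abs_le_of_sq_le_sq _ (by positivity)
        nlinarith [sq_nonneg ((s - 9 * x ^ 3) ^ 2 - 27 * (x ^ 3) ^ 2)]
      have h5 := (abs_le.1 h4).2
      have h6 : |s - 9 * x ^ 3| ≤ 6 * Y ^ 3 := by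
        apply abs_le_of_sq_le_sq _ (by positivity)
        nlinarith
      have h7 := abs_le.1 h6
      have h8 := abs_le.1 hkY3
      rw [abs_le]
      constructor <;> linarith [h7.1, h7.2, h8.1, h8.2]
    unfold Box3
    rw [Finset.mem_product, Finset.mem_Icc, Finset.mem_Icc]
    have a1 := abs_le.1 hkY
    have a2 := abs_le.1 htY
    rw [hx] at a1
    rw [hs] at a2
    refine ⟨⟨?_, Int.le_floor.2 a1.2⟩, ?_, Int.le_floor.2 a2.2⟩
    · have h3 : -k ≤ ⌊Y⌋ := Int.le_floor.2 (by push_cast; linarith [a1.1])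
      simp only
      omega
    · have h3 : -t ≤ ⌊15 * Y ^ 3⌋ := Int.le_floor.2 (by push_cast; linarith [a2.1])
      simp only
      omega
-- END mem_Reg3

end Rn3
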